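import Mathlib

set_option autoImplicit false

namespace Pool.Agent.HL26

/-- number of residue classes mod `p` met by `E` -/
def nu (E : Finset ℕ) (p : ℕ) : ℕ := (E.image (fun e : ℕ => (e : ZMod p))).card

/-- the singular series of a finite set `E` of integers:
the product over all primes `p` of `(1 - 1/p)^(-|E|) * (1 - nu_E(p)/p)` -/
noncomputable def singularSeries (E : Finset ℕ) : ℝ :=
  ∏' p : Nat.Primes, (((1 - 1 / ((p : ℕ) : ℝ))⁻¹) ^ E.card * (1 - (nu E (p : ℕ) : ℝ) / ((p : ℕ) : ℝ)))

/-- the number of integers `1 ≤ m ≤ x` such that `m + e` is prime for every `e ∈ E` -/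
noncomputable def tupleCount (x : ℝ) (E : Finset ℕ) : ℕ :=
  ((Finset.Icc 1 ⌊x⌋₊).filter (fun m => ∀ e ∈ E, Nat.Prime (m + e))).card

/-- the translate of `E` with least element `0` -/
noncomputable def translate0 (E : Finset ℕ) : Finset ℕ := E.image (fun e => e - sInf (E : Set ℕ))

end Pool.Agent.HL26
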