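import Mathlib
import Pool.Agent.HL26.Defs

set_option autoImplicit false

open Finset

namespace Pool.Agent.HL26

open Classical in
/-- the number of `b ∈ B` with `c + b` a unit mod `P` -/
noncomputable def V (P : ℕ) (B : Finset ℕ) (c : ZMod P) : ℕ :=
  (B.filter (fun b : ℕ => IsUnit (c + (b : ZMod P)))).card

lemma V_eq (P : ℕ) (B : Finset ℕ) (c : ZMod P) [DecidablePred fun b : ℕ => IsUnit (c + (b : ZMod P))] :
    V P B c = (B.filter (fun b : ℕ => IsUnit (c + (b : ZMod P)))).card := by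
  unfold V
  congr!

/-- the number of `b ∈ B` with `n + b` prime -/
def Gam (B : Finset ℕ) (n : ℕ) : ℕ := (B.filter (fun b : ℕ => Nat.Prime (n + b))).card

/-- moments of `V` over all residues -/
noncomputable def W (P : ℕ) [NeZero P] (B : Finset ℕ) (j : ℕ) : ℝ :=
  ∑ c : ZMod P, (V P B c : ℝ) ^ j

lemma card_filter_zmod_le (P : ℕ) [NeZero P] (N : ℕ) (c : ZMod P) :
    (((Finset.Icc 1 N).filter (fun n : ℕ => (n : ZMod P) = c)).card : ℝ) ≤ N / P + 1 := by
  have hP : 0 < P := Nat.pos_of_ne_zero (NeZero.ne P)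
  have h1 : (Finset.Icc 1 N).filter (fun n : ℕ => (n : ZMod P) = c)
      = (Finset.Ioc 0 N).filter (fun n : ℕ => n ≡ c.val [MOD P]) := by
    ext n
    simp only [mem_filter, mem_Icc, mem_Ioc]
    constructor
    · rintro ⟨⟨h1, h2⟩, h3⟩
      refine ⟨⟨h1, h2⟩, ?_⟩
      rw [← ZMod.natCast_eq_natCast_iff, h3, ZMod.natCast_zmod_val]
    · rintro ⟨⟨h1, h2⟩, h3⟩
      refine ⟨⟨h1, h2⟩, ?_⟩
      rw [← ZMod.natCast_eq_natCast_iff] at h3
      rw [h3, ZMod.natCast_zmod_val]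
  rw [h1]
  have h2 := Nat.Ioc_filter_modEq_card (a := 0) (b := N) hP (c.val)
  have h3 : (((Finset.Ioc 0 N).filter (fun n : ℕ => n ≡ c.val [MOD P])).card : ℝ)
      = ((((Finset.Ioc 0 N).filter (fun n : ℕ => n ≡ c.val [MOD P])).card : ℤ) : ℝ) := by
    push_cast; rfl
  rw [h3, h2]
  have hPr : (0 : ℝ) < P := by exact_mod_cast hP
  rw [Int.cast_max]
  apply max_le
  · push_cast
    have e1 : ((⌊((N : ℚ) - (c.val : ℚ)) / (P : ℚ)⌋ : ℤ) : ℝ) ≤ ((N : ℝ) - c.val) / P := by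
      have := Int.floor_le (((N : ℚ) - (c.val : ℚ)) / (P : ℚ))
      have h' : ((⌊((N : ℚ) - (c.val : ℚ)) / (P : ℚ)⌋ : ℤ) : ℝ) = (((⌊((N : ℚ) - (c.val : ℚ)) / (P : ℚ)⌋ : ℤ) : ℚ) : ℝ) := by push_cast; rfl
      rw [h']
      have h'' : (((N : ℝ) - c.val) / P) = (((((N : ℚ) - (c.val : ℚ)) / (P : ℚ) : ℚ)) : ℝ) := by push_cast; rfl
      rw [h'']
      exact_mod_cast this
    have e2 : ((0 : ℝ) - c.val) / P - 1 ≤ ((⌊(((0 : ℕ) : ℚ) - (c.val : ℚ)) / (P : ℚ)⌋ : ℤ) : ℝ) := by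
      have := (Int.sub_one_lt_floor ((((0 : ℕ) : ℚ) - (c.val : ℚ)) / (P : ℚ))).le
      have h' : ((⌊(((0 : ℕ) : ℚ) - (c.val : ℚ)) / (P : ℚ)⌋ : ℤ) : ℝ) = (((⌊(((0 : ℕ) : ℚ) - (c.val : ℚ)) / (P : ℚ)⌋ : ℤ) : ℚ) : ℝ) := by push_cast; rfl
      rw [h']
      have h'' : ((0 : ℝ) - c.val) / P - 1 = ((((((0 : ℕ) : ℚ) - (c.val : ℚ)) / (P : ℚ) - 1 : ℚ)) : ℝ) := by push_cast; rfl
      rw [h'']
      exact_mod_cast this
    have e3 : ((N : ℝ) - c.val) / P = N / P - c.val / P := by ring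
    have e4 : ((0 : ℝ) - c.val) / P = - (c.val / P) := by ring
    have e2' : - ((c.val : ℝ) / P) - 1 ≤ ((⌊(((0 : ℕ) : ℚ) - (c.val : ℚ)) / (P : ℚ)⌋ : ℤ) : ℝ) := by
      rw [← e4]; exact e2
    simp only [Nat.cast_zero] at e2'
    rw [e3] at e1
    linarith
  · push_cast
    positivity

lemma sum_zmod_le (P : ℕ) [NeZero P] (N : ℕ) (g : ZMod P → ℝ) (hg : ∀ c, 0 ≤ g c) :
    ∑ n ∈ Finset.Icc 1 N, g (n : ZMod P) ≤ ((N : ℝ) / P + 1) * ∑ c : ZMod P, g c := by
  classical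
  rw [← Finset.sum_fiberwise (Finset.Icc 1 N) (fun n : ℕ => (n : ZMod P)) (fun n : ℕ => g (n : ZMod P))]
  rw [Finset.mul_sum]
  apply Finset.sum_le_sum
  intro c _
  have : ∑ n ∈ (Finset.Icc 1 N).filter (fun n : ℕ => (n : ZMod P) = c), g (n : ZMod P)
      = ∑ n ∈ (Finset.Icc 1 N).filter (fun n : ℕ => (n : ZMod P) = c), g c := by
    apply Finset.sum_congr rfl
    intro n hn
    rw [(Finset.mem_filter.mp hn).2]
  rw [this, Finset.sum_const, nsmul_eq_mul]
  exact mul_le_mul_of_nonneg_right (card_filter_zmod_le P N c) (hg c)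


lemma sum_fiber_ge (P : ℕ) [NeZero P] (H N1 : ℕ) (κ : ℝ)
    (hstar : ∀ a : ZMod P, IsUnit a →
      κ ≤ (((Finset.Ioc H N1).filter (fun p : ℕ => p.Prime ∧ (p : ZMod P) = a)).card : ℝ))
    (g : ZMod P → ℝ) (hg : ∀ c, 0 ≤ g c) :
    κ * ∑ a : ZMod P, (if IsUnit a then g a else 0) ≤
      ∑ p ∈ (Finset.Ioc H N1).filter (fun p : ℕ => p.Prime), g (p : ZMod P) := by
  classical
  rw [← Finset.sum_fiberwise ((Finset.Ioc H N1).filter (fun p : ℕ => p.Prime)) (fun n : ℕ => (n : ZMod P)) (fun n : ℕ => g (n : ZMod P))]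
  rw [Finset.mul_sum]
  apply Finset.sum_le_sum
  intro a _
  have : ∑ n ∈ ((Finset.Ioc H N1).filter (fun p : ℕ => p.Prime)).filter (fun n : ℕ => (n : ZMod P) = a), g (n : ZMod P)
      = ∑ n ∈ ((Finset.Ioc H N1).filter (fun p : ℕ => p.Prime)).filter (fun n : ℕ => (n : ZMod P) = a), g a := by
    apply Finset.sum_congr rfl
    intro n hn
    rw [(Finset.mem_filter.mp hn).2]
  rw [this, Finset.sum_const, nsmul_eq_mul, Finset.filter_filter]
  split_ifs with h
  · exact mul_le_mul_of_nonneg_right (hstar a h) (hg a)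
  · have := hg a
    have h2 : (0:ℝ) ≤ (((Finset.Ioc H N1).filter (fun p : ℕ => p.Prime ∧ (p : ZMod P) = a)).card : ℝ) := by positivity
    simp only [mul_zero]
    positivity

lemma sum_Gam_V_ge (P : ℕ) [NeZero P] (B : Finset ℕ) (H N1 : ℕ) (hB : ∀ b ∈ B, b ≤ H)
    (κ : ℝ)
    (hstar : ∀ a : ZMod P, IsUnit a →
      κ ≤ (((Finset.Ioc H N1).filter (fun p : ℕ => p.Prime ∧ (p : ZMod P) = a)).card : ℝ))
    (j : ℕ) :
    κ * W P B (j + 1) ≤ ∑ n ∈ Finset.Icc 1 N1, (Gam B n : ℝ) * (V P B (n : ZMod P) : ℝ) ^ j := by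
  classical
  -- rewrite the right-hand side as a sum over b
  have h1 : ∑ n ∈ Finset.Icc 1 N1, (Gam B n : ℝ) * (V P B (n : ZMod P) : ℝ) ^ j
      = ∑ b ∈ B, ∑ n ∈ (Finset.Icc 1 N1).filter (fun n => Nat.Prime (n + b)), (V P B (n : ZMod P) : ℝ) ^ j := by
    have : ∀ n ∈ Finset.Icc 1 N1, (Gam B n : ℝ) * (V P B (n : ZMod P) : ℝ) ^ j
        = ∑ b ∈ B, if Nat.Prime (n + b) then (V P B (n : ZMod P) : ℝ) ^ j else 0 := by
      intro n _
      rw [← Finset.sum_filter, Finset.sum_const, nsmul_eq_mul]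
      rfl
    rw [Finset.sum_congr rfl this, Finset.sum_comm]
    apply Finset.sum_congr rfl
    intro b _
    rw [Finset.sum_filter]
  have h2 : W P B (j + 1) = ∑ b ∈ B, ∑ a : ZMod P, (if IsUnit a then (V P B (a - (b : ZMod P)) : ℝ) ^ j else 0) := by
    unfold W
    have e1 : ∀ b ∈ B, ∑ a : ZMod P, (if IsUnit a then (V P B (a - (b : ZMod P)) : ℝ) ^ j else 0)
        = ∑ c : ZMod P, (if IsUnit (c + (b : ZMod P)) then (V P B c : ℝ) ^ j else 0) := by
      intro b _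
      rw [← Equiv.sum_comp (Equiv.addRight (b : ZMod P))]
      apply Finset.sum_congr rfl
      intro c _
      simp
    rw [Finset.sum_congr rfl e1, Finset.sum_comm]
    apply Finset.sum_congr rfl
    intro c _
    rw [← Finset.sum_filter, Finset.sum_const, nsmul_eq_mul, pow_succ, mul_comm, V_eq P B c]
  rw [h1, h2, Finset.mul_sum]
  apply Finset.sum_le_sum
  intro b hb
  refine (sum_fiber_ge P H N1 κ hstar (fun a => (V P B (a - (b : ZMod P)) : ℝ) ^ j) (fun c => by positivity)).trans ?_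
  -- injection p ↦ p - b
  have hbH := hB b hb
  have h3 : ∑ p ∈ (Finset.Ioc H N1).filter (fun p : ℕ => p.Prime), (V P B ((p : ZMod P) - (b : ZMod P)) : ℝ) ^ j
      = ∑ n ∈ ((Finset.Ioc H N1).filter (fun p : ℕ => p.Prime)).image (fun p => p - b), (V P B (n : ZMod P) : ℝ) ^ j := by
    rw [Finset.sum_image]
    · apply Finset.sum_congr rfl
      intro p hp
      have hp' := (Finset.mem_filter.mp hp).1
      rw [Finset.mem_Ioc] at hp'
      rw [Nat.cast_sub (by omega)]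
    · intro p hp q hq hpq
      have hp' := (Finset.mem_filter.mp hp).1
      have hq' := (Finset.mem_filter.mp hq).1
      rw [Finset.mem_Ioc] at hp' hq'
      simp only at hpq
      omega
  rw [h3]
  apply Finset.sum_le_sum_of_subset_of_nonneg
  · intro n hn
    rw [Finset.mem_image] at hn
    obtain ⟨p, hp, rfl⟩ := hn
    rw [Finset.mem_filter, Finset.mem_Ioc] at hp
    rw [Finset.mem_filter, Finset.mem_Icc]
    refine ⟨⟨by omega, by omega⟩, ?_⟩
    rw [Nat.sub_add_cancel (by omega)]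
    exact hp.2
  · intro n _ _
    positivity

/-- Bernoulli-type tangent inequality. -/
lemma tangent_ineq (r : ℕ) (hr : 1 ≤ r) (u w : ℝ) (hu : 0 ≤ u) (hw : 0 ≤ w) :
    (r : ℝ) * u * w ^ (r - 1) - (r - 1 : ℝ) * w ^ r ≤ u ^ r := by
  rcases hw.eq_or_lt with h | h
  · subst h
    rcases Nat.lt_or_ge 1 r with h1 | h1
    · have : (0:ℝ) ^ (r-1) = 0 := zero_pow (by omega)
      rw [this, zero_pow (by omega)]
      have : 0 ≤ u ^ r := by positivity
      linarith
    · have : r = 1 := by omega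
      subst this
      simp
  · have hb := one_add_mul_le_pow (a := u / w - 1) (by have := div_nonneg hu hw; linarith) r
    have h2 : (1 + (u / w - 1)) ^ r = u ^ r / w ^ r := by rw [← div_pow]; congr 1; ring
    rw [h2] at hb
    have hwr : 0 < w ^ r := by positivity
    have h3 := mul_le_mul_of_nonneg_right hb hwr.le
    rw [div_mul_cancel₀ _ hwr.ne'] at h3
    have h4 : (1 + (r:ℝ) * (u / w - 1)) * w ^ r = (r : ℝ) * u * w ^ (r - 1) - (r - 1 : ℝ) * w ^ r := by
      have : w ^ r = w ^ (r-1) * w := by rw [← pow_succ]; congr 1; omega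
      rw [this]
      field_simp
      ring
    linarith

lemma descFactorial_ge (r : ℕ) (hr : 1 ≤ r) (g : ℕ) (w : ℝ) (hw : 0 ≤ w) :
    (r : ℝ) * ((g : ℝ) - (r - 1)) * w ^ (r - 1) - (r - 1 : ℝ) * w ^ r ≤ (g.descFactorial r : ℝ) := by
  have h1 := Nat.pow_sub_le_descFactorial g r
  have h2 : ((((g + 1 - r : ℕ)) : ℝ)) ^ r ≤ (g.descFactorial r : ℝ) := by exact_mod_cast h1
  refine le_trans ?_ h2
  refine le_trans ?_ (tangent_ineq r hr ((g + 1 - r : ℕ) : ℝ) w (by positivity) hw)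
  have h3 : (g : ℝ) - (r - 1) ≤ ((g + 1 - r : ℕ) : ℝ) := by
    rcases Nat.lt_or_ge (g + 1) r with h | h
    · have : g + 1 - r = 0 := by omega
      rw [this]
      have : ((g + 1 : ℕ) : ℝ) ≤ r := by exact_mod_cast h.le
      push_cast at *
      linarith
    · rw [Nat.cast_sub h]
      push_cast
      linarith
  have h4 : (0:ℝ) ≤ r := by positivity
  have h5 : (0:ℝ) ≤ w ^ (r-1) := by positivity
  have := mul_le_mul_of_nonneg_right (mul_le_mul_of_nonneg_left h3 h4) h5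
  linarith

lemma sum_descFactorial_ge (P : ℕ) [NeZero P] (B : Finset ℕ) (H N1 : ℕ) (hB : ∀ b ∈ B, b ≤ H)
    (κ : ℝ)
    (hstar : ∀ a : ZMod P, IsUnit a →
      κ ≤ (((Finset.Ioc H N1).filter (fun p : ℕ => p.Prime ∧ (p : ZMod P) = a)).card : ℝ))
    (j : ℕ) (lam : ℝ) (hlam : 0 ≤ lam) :
    ((j + 1 : ℕ) : ℝ) * lam ^ j * (κ * W P B (j + 1) - j * (((N1 : ℝ) / P + 1) * W P B j))
      - (j : ℝ) * lam ^ (j + 1) * (((N1 : ℝ) / P + 1) * W P B (j + 1)) ≤
    ∑ n ∈ Finset.Icc 1 N1, ((Gam B n).descFactorial (j + 1) : ℝ) := by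
  have h1 : ∀ n ∈ Finset.Icc 1 N1,
      ((j + 1 : ℕ) : ℝ) * lam ^ j * ((Gam B n : ℝ) * (V P B (n : ZMod P) : ℝ) ^ j) -
      ((j + 1 : ℕ) : ℝ) * lam ^ j * j * ((V P B (n : ZMod P) : ℝ) ^ j)
      - (j : ℝ) * lam ^ (j + 1) * ((V P B (n : ZMod P) : ℝ) ^ (j + 1)) ≤
      ((Gam B n).descFactorial (j + 1) : ℝ) := by
    intro n _
    have := descFactorial_ge (j + 1) (by omega) (Gam B n) (lam * (V P B (n : ZMod P) : ℝ)) (by positivity)
    refine le_trans (le_of_eq ?_) this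
    simp only [Nat.add_sub_cancel]
    push_cast
    rw [mul_pow, mul_pow]
    ring
  have h2 := Finset.sum_le_sum h1
  rw [Finset.sum_sub_distrib, Finset.sum_sub_distrib, ← Finset.mul_sum, ← Finset.mul_sum, ← Finset.mul_sum] at h2
  have h3 := sum_Gam_V_ge P B H N1 hB κ hstar j
  have h4 := sum_zmod_le P N1 (fun c => (V P B c : ℝ) ^ j) (fun c => by positivity)
  have h5 := sum_zmod_le P N1 (fun c => (V P B c : ℝ) ^ (j + 1)) (fun c => by positivity)
  refine le_trans ?_ h2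
  have c1 : (0:ℝ) ≤ ((j + 1 : ℕ) : ℝ) * lam ^ j := by positivity
  have c2 : (0:ℝ) ≤ ((j + 1 : ℕ) : ℝ) * lam ^ j * j := by positivity
  have c3 : (0:ℝ) ≤ (j : ℝ) * lam ^ (j + 1) := by positivity
  have e1 := mul_le_mul_of_nonneg_left h3 c1
  have e2 := mul_le_mul_of_nonneg_left h4 c2
  have e3 := mul_le_mul_of_nonneg_left h5 c3
  unfold W at *
  nlinarith [e1, e2, e3]

/-- the first moment -/
lemma W_one (P : ℕ) [NeZero P] (B : Finset ℕ) : W P B 1 = (B.card : ℝ) * (Nat.totient P : ℝ) := by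
  classical
  unfold W
  have h1 : ∀ c : ZMod P, (V P B c : ℝ) ^ 1 = ∑ b ∈ B, if IsUnit (c + (b : ZMod P)) then (1:ℝ) else 0 := by
    intro c
    rw [pow_one, ← Finset.sum_filter, Finset.sum_const, nsmul_eq_mul, mul_one, V_eq P B c]
  rw [Finset.sum_congr rfl (fun c _ => h1 c), Finset.sum_comm]
  have h2 : ∀ b ∈ B, ∑ c : ZMod P, (if IsUnit (c + (b : ZMod P)) then (1:ℝ) else 0) = (Nat.totient P : ℝ) := by
    intro b _
    have := Equiv.sum_comp (Equiv.addRight (b : ZMod P)) (fun c => if IsUnit c then (1:ℝ) else 0)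
    simp only [Equiv.coe_addRight] at this
    refine (Finset.sum_congr rfl fun c _ => ?_).trans (this.trans ?_)
    · by_cases h : IsUnit (c + (b : ZMod P)) <;> simp [h]
    rw [← Finset.sum_filter, Finset.sum_const, nsmul_eq_mul, mul_one]
    congr 1
    rw [← ZMod.card_units_eq_totient P, ← Fintype.card_subtype]
    refine Fintype.card_congr ⟨fun u => u.2.unit, fun u => ⟨u, u.isUnit⟩, ?_, ?_⟩
    · intro u
      simp
    · intro u
      ext
      simp
  rw [Finset.sum_congr rfl h2, Finset.sum_const, nsmul_eq_mul]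


lemma W_mul_le (P : ℕ) [NeZero P] (B : Finset ℕ) (j : ℕ) :
    W P B j * W P B 1 ≤ P * W P B (j + 1) := by
  unfold W
  have h : MonovaryOn (fun c : ZMod P => (V P B c : ℝ) ^ j) (fun c : ZMod P => (V P B c : ℝ) ^ 1)
      (Finset.univ : Finset (ZMod P)) := by
    intro a _ b _ hab
    simp only [pow_one] at hab
    exact pow_le_pow_left₀ (by positivity) hab.le j
  have := h.sum_mul_sum_le_card_mul_sum
  rw [Finset.card_univ, ZMod.card] at this
  refine this.trans (le_of_eq ?_)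
  congr 1
  apply Finset.sum_congr rfl
  intro c _
  rw [pow_one, pow_succ]

/-- double counting of `r`-subsets -/
lemma sum_choose_eq {ι : Type*} (S : Finset ι) (B : Finset ℕ) (Q : ι → ℕ → Prop)
    [∀ i, DecidablePred (Q i)] (r : ℕ) :
    ∑ i ∈ S, (B.filter (Q i)).card.choose r =
      ∑ E ∈ B.powersetCard r, (S.filter (fun i => ∀ e ∈ E, Q i e)).card := by
  have h1 : ∀ i ∈ S, (B.filter (Q i)).card.choose r
      = ∑ E ∈ B.powersetCard r, if (∀ e ∈ E, Q i e) then 1 else 0 := by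
    intro i _
    rw [← Finset.card_powersetCard, ← Finset.card_filter]
    congr 1
    ext E
    simp only [Finset.mem_powersetCard, Finset.mem_filter, Finset.subset_iff]
    constructor
    · rintro ⟨h1, h2⟩
      exact ⟨⟨fun x hx => (h1 hx).1, h2⟩, fun x hx => (h1 hx).2⟩
    · rintro ⟨⟨h1, h2⟩, h3⟩
      exact ⟨fun x hx => ⟨h1 hx, h3 x hx⟩, h2⟩
  rw [Finset.sum_congr rfl h1, Finset.sum_comm]
  apply Finset.sum_congr rfl
  intro E _
  rw [Finset.card_filter]

lemma card_avoid (p : ℕ) [Fact p.Prime] (E : Finset ℕ) :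
    (Finset.univ.filter (fun z : ZMod p => ∀ e ∈ E, z + (e : ZMod p) ≠ 0)).card = p - nu E p := by
  have h1 : (Finset.univ.filter (fun z : ZMod p => ∀ e ∈ E, z + (e : ZMod p) ≠ 0))
      = (E.image (fun e : ℕ => -(e : ZMod p)))ᶜ := by
    ext z
    simp only [Finset.mem_filter, Finset.mem_univ, true_and, Finset.mem_compl, Finset.mem_image, not_exists,
      not_and]
    constructor
    · intro h e he heq
      exact h e he (by rw [← heq]; ring)
    · intro h e he heq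
      exact h e he (by linear_combination -heq)
  rw [h1, Finset.card_compl, ZMod.card]
  congr 1
  unfold nu
  have : E.image (fun e : ℕ => -(e : ZMod p)) = (E.image (fun e : ℕ => (e : ZMod p))).image (fun z => -z) := by
    rw [Finset.image_image]
    rfl
  rw [this, Finset.card_image_of_injective _ neg_injective]

lemma nu_le (E : Finset ℕ) (p : ℕ) [NeZero p] : nu E p ≤ p := by
  unfold nu
  calc _ ≤ (Finset.univ : Finset (ZMod p)).card := Finset.card_le_card (Finset.subset_univ _)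
    _ = p := by rw [Finset.card_univ, ZMod.card]

lemma nu_le_card (E : Finset ℕ) (p : ℕ) : nu E p ≤ E.card := Finset.card_image_le

lemma card_units_eq (PP : Finset ℕ) (hPP : ∀ p ∈ PP, p.Prime) (E : Finset ℕ)
    [NeZero (∏ p ∈ PP, p)] [DecidablePred fun c : ZMod (∏ p ∈ PP, p) => ∀ e ∈ E, IsUnit (c + (e : ZMod (∏ p ∈ PP, p)))] :
    (Finset.univ.filter (fun c : ZMod (∏ p ∈ PP, p) => ∀ e ∈ E, IsUnit (c + (e : ZMod (∏ p ∈ PP, p))))).card
      = ∏ p ∈ PP, (p - nu E p) := by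
  classical
  have hfact : ∀ i : PP, Fact (i : ℕ).Prime := fun i => ⟨hPP i i.2⟩
  have hcop : Pairwise (Function.onFun Nat.Coprime (fun i : PP => (i : ℕ))) := by
    intro i j hij
    exact (Nat.coprime_primes (hPP i i.2) (hPP j j.2)).mpr (fun h => hij (Subtype.ext h))
  have hprod : (∏ p ∈ PP, p) = ∏ i : PP, (i : ℕ) := (Finset.prod_coe_sort PP (fun p => p)).symm
  let e : ZMod (∏ p ∈ PP, p) ≃+* (Π i : PP, ZMod (i : ℕ)) :=
    (ZMod.ringEquivCongr hprod).trans (ZMod.prodEquivPi (fun i : PP => (i : ℕ)) hcop)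
  have h1 : (Finset.univ.filter (fun c : ZMod (∏ p ∈ PP, p) => ∀ t ∈ E, IsUnit (c + (t : ZMod (∏ p ∈ PP, p))))).card
      = (Fintype.piFinset (fun i : PP => Finset.univ.filter (fun z : ZMod (i : ℕ) => ∀ t ∈ E, z + (t : ZMod (i : ℕ)) ≠ 0))).card := by
    apply Finset.card_bij (fun c _ => e c)
    · intro c hc
      rw [Fintype.mem_piFinset]
      intro i
      rw [Finset.mem_filter] at hc ⊢
      refine ⟨Finset.mem_univ _, ?_⟩
      intro t ht
      have h2 := (hc.2 t ht).map e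
      rw [map_add, map_natCast, Pi.isUnit_iff] at h2
      have h3 := (h2 i).ne_zero
      simpa using h3
    · intro a _ b _ hab
      exact e.injective hab
    · intro f hf
      rw [Fintype.mem_piFinset] at hf
      refine ⟨e.symm f, ?_, by simp⟩
      rw [Finset.mem_filter]
      refine ⟨Finset.mem_univ _, ?_⟩
      intro t ht
      have h2 : IsUnit (f + ((t : ℕ) : Π i : PP, ZMod (i : ℕ))) := by
        rw [Pi.isUnit_iff]
        intro i
        have h3 := (Finset.mem_filter.mp (hf i)).2 t ht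
        have : (f + ((t : ℕ) : Π i : PP, ZMod (i : ℕ))) i = f i + (t : ZMod (i : ℕ)) := by simp
        rw [this]
        exact isUnit_iff_ne_zero.mpr h3
      have h4 := h2.map e.symm
      rwa [map_add, map_natCast] at h4
  rw [h1, Fintype.card_piFinset, ← Finset.prod_coe_sort PP]
  apply Finset.prod_congr rfl
  intro i _
  exact card_avoid (i : ℕ) E


/-- truncated singular series over a finite set of primes -/
noncomputable def SP (PP : Finset ℕ) (E : Finset ℕ) : ℝ :=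
  ∏ p ∈ PP, (((1 - 1 / (p : ℝ))⁻¹) ^ E.card * (1 - (nu E p : ℝ) / (p : ℝ)))

lemma SP_nonneg (PP : Finset ℕ) (hPP : ∀ p ∈ PP, p.Prime) (E : Finset ℕ) : 0 ≤ SP PP E := by
  unfold SP
  apply Finset.prod_nonneg
  intro p hp
  have hpp := hPP p hp
  have hp0 : (0:ℝ) < p := by exact_mod_cast hpp.pos
  have : NeZero p := ⟨hpp.ne_zero⟩
  have h1 : (nu E p : ℝ) / p ≤ 1 := by
    rw [div_le_one hp0]
    exact_mod_cast nu_le E p
  have h2 : (1:ℝ) / p ≤ 1 := by
    rw [div_le_one hp0]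
    exact_mod_cast hpp.one_lt.le
  have h3 : (0:ℝ) ≤ (1 - 1 / (p:ℝ))⁻¹ := inv_nonneg.mpr (by linarith)
  exact mul_nonneg (pow_nonneg h3 _) (by linarith)

lemma totient_prod (PP : Finset ℕ) (hPP : ∀ p ∈ PP, p.Prime) :
    ((Nat.totient (∏ p ∈ PP, p) : ℕ) : ℝ) = ∏ p ∈ PP, ((p : ℝ) - 1) := by
  classical
  induction PP using Finset.induction_on with
  | empty => simp
  | insert q s hq ih =>
    rw [Finset.prod_insert hq, Finset.prod_insert hq, Nat.totient_mul]
    · push_cast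
      rw [ih (fun p hp => hPP p (Finset.mem_insert_of_mem hp))]
      rw [Nat.totient_prime (hPP q (Finset.mem_insert_self _ _))]
      have := (hPP q (Finset.mem_insert_self _ _)).one_lt.le
      rw [Nat.cast_sub this]
      simp
    · apply Nat.Coprime.prod_right
      intro p hp
      rw [Nat.coprime_primes (hPP q (Finset.mem_insert_self _ _)) (hPP p (Finset.mem_insert_of_mem hp))]
      rintro rfl
      exact hq hp

lemma SP_eq (PP : Finset ℕ) (hPP : ∀ p ∈ PP, p.Prime) (E : Finset ℕ) :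
    SP PP E = (((∏ p ∈ PP, p : ℕ) : ℝ) / (Nat.totient (∏ p ∈ PP, p) : ℝ)) ^ E.card
      * ((((∏ p ∈ PP, (p - nu E p) : ℕ) : ℕ) : ℝ) / ((∏ p ∈ PP, p : ℕ) : ℝ)) := by
  rw [totient_prod PP hPP]
  unfold SP
  rw [Finset.prod_mul_distrib, Finset.prod_pow]
  push_cast
  rw [← Finset.prod_div_distrib]
  congr 1
  · congr 1
    apply Finset.prod_congr rfl
    intro p hp
    have : (0:ℝ) < p := by exact_mod_cast (hPP p hp).pos
    have h2 : (1:ℝ) < p := by exact_mod_cast (hPP p hp).one_lt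
    have h3 : (p:ℝ) - 1 ≠ 0 := by linarith
    have h4 : (1 - 1 / (p:ℝ)) = ((p:ℝ) - 1) / p := by field_simp
    rw [h4, inv_div]
  · rw [← Finset.prod_div_distrib]
    apply Finset.prod_congr rfl
    intro p hp
    have : (0:ℝ) < p := by exact_mod_cast (hPP p hp).pos
    have : NeZero p := ⟨(hPP p hp).ne_zero⟩
    rw [Nat.cast_sub (nu_le E p)]
    field_simp

/-- The main inequality. -/
theorem engine (PP : Finset ℕ) (hPP : ∀ p ∈ PP, p.Prime) (B : Finset ℕ) (H N1 : ℕ)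
    (hB : ∀ b ∈ B, b ≤ H) (j : ℕ) (X L ε K : ℝ) (hX : 0 < X) (hL : 0 < L) (hε : 0 < ε)
    (hK : 0 < K) (hKM : K * L ≤ B.card)
    (hstar : ∀ a : ZMod (∏ p ∈ PP, p), IsUnit a →
      (1 - ε) * X / ((Nat.totient (∏ p ∈ PP, p) : ℝ) * L) ≤
        (((Finset.Ioc H N1).filter (fun p : ℕ => p.Prime ∧ (p : ZMod (∏ p ∈ PP, p)) = a)).card : ℝ))
    (hN1 : (N1 : ℝ) / ((∏ p ∈ PP, p : ℕ) : ℝ) + 1 ≤ (1 + ε) * X / ((∏ p ∈ PP, p : ℕ) : ℝ)) :
    (1 - (2 * j + 1) * ε - (j + 1) * j * (1 + ε) / K) * (X / L ^ (j + 1)) *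
        ∑ E ∈ B.powersetCard (j + 1), SP PP E ≤
      ∑ E ∈ B.powersetCard (j + 1),
        (((Finset.Icc 1 N1).filter (fun n => ∀ e ∈ E, Nat.Prime (n + e))).card : ℝ) := by
  classical
  set P := ∏ p ∈ PP, p with hP
  have hP0 : P ≠ 0 := by
    rw [hP, Finset.prod_ne_zero_iff]
    intro p hp
    exact (hPP p hp).ne_zero
  have : NeZero P := ⟨hP0⟩
  have hPpos : (0:ℝ) < P := by exact_mod_cast Nat.pos_of_ne_zero hP0
  set φ : ℝ := (Nat.totient P : ℝ) with hφ
  have hφpos : 0 < φ := by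
    rw [hφ]; exact_mod_cast Nat.totient_pos.mpr (Nat.pos_of_ne_zero hP0)
  have hM : 0 < (B.card : ℝ) := lt_of_lt_of_le (by positivity) hKM
  -- positivity case split
  by_cases hc : 1 - (2 * j + 1) * ε - (j + 1) * j * (1 + ε) / K ≤ 0
  · have h0 : 0 ≤ ∑ E ∈ B.powersetCard (j + 1), SP PP E :=
      Finset.sum_nonneg (fun E _ => SP_nonneg PP hPP E)
    have h1 : (1 - (2 * j + 1) * ε - (j + 1) * j * (1 + ε) / K) * (X / L ^ (j + 1)) *
        ∑ E ∈ B.powersetCard (j + 1), SP PP E ≤ 0 := by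
      apply mul_nonpos_of_nonpos_of_nonneg _ h0
      exact mul_nonpos_of_nonpos_of_nonneg hc (by positivity)
    exact h1.trans (Finset.sum_nonneg (fun E _ => by positivity))
  push Not at hc
  -- the analytic inequality
  set lam : ℝ := P / (φ * L) with hlam
  have hlampos : 0 < lam := by positivity
  have hmain := sum_descFactorial_ge P B H N1 hB ((1 - ε) * X / (φ * L)) hstar j lam hlampos.le
  have hW1 := W_one P B
  have hWmul := W_mul_le P B j
  have hWj : 0 ≤ W P B j := Finset.sum_nonneg (fun c _ => by positivity)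
  have hWj1 : 0 ≤ W P B (j + 1) := Finset.sum_nonneg (fun c _ => by positivity)
  have hWle : W P B j ≤ lam / K * W P B (j + 1) := by
    rw [hW1] at hWmul
    have h1 : W P B j ≤ (P / (B.card * φ)) * W P B (j + 1) := by
      rw [div_mul_eq_mul_div, le_div_iff₀ (by positivity)]
      exact hWmul
    refine h1.trans ?_
    apply mul_le_mul_of_nonneg_right _ hWj1
    rw [hlam, div_div]
    apply div_le_div_of_nonneg_left hPpos.le (by positivity)
    calc φ * L * K = (K * L) * φ := by ring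
      _ ≤ B.card * φ := mul_le_mul_of_nonneg_right hKM hφpos.le
  have hT : (N1 : ℝ) / P + 1 ≤ (1 + ε) * X / P := hN1
  have hT0 : 0 ≤ (N1 : ℝ) / P + 1 := by positivity
  -- lower bound of the left-hand side of hmain
  have hkey : lam ^ (j + 1) * (X / P) * W P B (j + 1) * (1 - (2 * j + 1) * ε - (j + 1) * j * (1 + ε) / K)
      ≤ ((j + 1 : ℕ) : ℝ) * lam ^ j * ((1 - ε) * X / (φ * L) * W P B (j + 1) - j * (((N1 : ℝ) / P + 1) * W P B j))
      - (j : ℝ) * lam ^ (j + 1) * (((N1 : ℝ) / P + 1) * W P B (j + 1)) := by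
    have e1 : (1 - ε) * X / (φ * L) = (1 - ε) * lam * (X / P) := by
      rw [hlam]; field_simp
    have e2 : ((N1 : ℝ) / P + 1) * W P B j ≤ ((1 + ε) * (X / P)) * (lam / K * W P B (j + 1)) := by
      apply mul_le_mul _ hWle hWj (by positivity)
      rw [← mul_div_assoc]; exact hT
    have e3 : ((N1 : ℝ) / P + 1) * W P B (j + 1) ≤ ((1 + ε) * (X / P)) * W P B (j + 1) := by
      apply mul_le_mul_of_nonneg_right _ hWj1
      rw [← mul_div_assoc]; exact hT
    have c1 : (0:ℝ) ≤ ((j + 1 : ℕ) : ℝ) * lam ^ j * j := by positivity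
    have c2 : (0:ℝ) ≤ (j : ℝ) * lam ^ (j + 1) := by positivity
    have f1 := mul_le_mul_of_nonneg_left e2 c1
    have f2 := mul_le_mul_of_nonneg_left e3 c2
    rw [e1]
    have g1 : ((j + 1 : ℕ) : ℝ) * lam ^ j * ((1 - ε) * lam * (X / P) * W P B (j + 1) - j * (((N1 : ℝ) / P + 1) * W P B j))
      - (j : ℝ) * lam ^ (j + 1) * (((N1 : ℝ) / P + 1) * W P B (j + 1))
      = ((j + 1 : ℕ) : ℝ) * lam ^ j * ((1 - ε) * lam * (X / P) * W P B (j + 1))
        - ((j + 1 : ℕ) : ℝ) * lam ^ j * j * (((N1 : ℝ) / P + 1) * W P B j)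
        - (j : ℝ) * lam ^ (j + 1) * (((N1 : ℝ) / P + 1) * W P B (j + 1)) := by ring
    rw [g1]
    have g2 : lam ^ (j + 1) * (X / P) * W P B (j + 1) * (1 - (2 * j + 1) * ε - (j + 1) * j * (1 + ε) / K)
      = ((j + 1 : ℕ) : ℝ) * lam ^ j * ((1 - ε) * lam * (X / P) * W P B (j + 1))
        - ((j + 1 : ℕ) : ℝ) * lam ^ j * j * (((1 + ε) * (X / P)) * (lam / K * W P B (j + 1)))
        - (j : ℝ) * lam ^ (j + 1) * (((1 + ε) * (X / P)) * W P B (j + 1)) := by
      push_cast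
      ring
    rw [g2]
    linarith
  -- combinatorial identities
  have hcomb1 : ∑ n ∈ Finset.Icc 1 N1, ((Gam B n).descFactorial (j + 1) : ℝ)
      = ((j + 1).factorial : ℝ) * ∑ E ∈ B.powersetCard (j + 1),
        (((Finset.Icc 1 N1).filter (fun n => ∀ e ∈ E, Nat.Prime (n + e))).card : ℝ) := by
    have h1 := sum_choose_eq (Finset.Icc 1 N1) B (fun n b => Nat.Prime (n + b)) (j + 1)
    have h2 : ∑ n ∈ Finset.Icc 1 N1, (Gam B n).descFactorial (j + 1)
        = (j + 1).factorial * ∑ n ∈ Finset.Icc 1 N1, (B.filter (fun b => Nat.Prime (n + b))).card.choose (j + 1) := by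
      rw [Finset.mul_sum]
      apply Finset.sum_congr rfl
      intro n _
      rw [Nat.descFactorial_eq_factorial_mul_choose]
      rfl
    rw [h1] at h2
    exact_mod_cast h2
  have hcomb2 : ((j + 1).factorial : ℝ) * ∑ E ∈ B.powersetCard (j + 1), ((∏ p ∈ PP, (p - nu E p) : ℕ) : ℝ)
      ≤ W P B (j + 1) := by
    have h1 := sum_choose_eq (Finset.univ : Finset (ZMod P)) B (fun c b => IsUnit (c + (b : ZMod P))) (j + 1)
    have h2 : ((j + 1).factorial : ℝ) * ∑ c : ZMod P, ((B.filter (fun b : ℕ => IsUnit (c + (b : ZMod P)))).card.choose (j + 1) : ℝ)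
        ≤ W P B (j + 1) := by
      unfold W
      rw [Finset.mul_sum]
      apply Finset.sum_le_sum
      intro c _
      rw [V_eq P B c]
      have := Nat.descFactorial_le_pow (B.filter (fun b : ℕ => IsUnit (c + (b : ZMod P)))).card (j + 1)
      rw [Nat.descFactorial_eq_factorial_mul_choose] at this
      exact_mod_cast this
    refine le_trans (le_of_eq ?_) h2
    congr 1
    have h3 : ∑ E ∈ B.powersetCard (j + 1), ((∏ p ∈ PP, (p - nu E p) : ℕ) : ℝ)
      = ((∑ E ∈ B.powersetCard (j + 1), (∏ p ∈ PP, (p - nu E p)) : ℕ) : ℝ) := by push_cast; rfl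
    rw [h3]
    have h4 : ∑ E ∈ B.powersetCard (j + 1), (∏ p ∈ PP, (p - nu E p))
        = ∑ c : ZMod P, (B.filter (fun b : ℕ => IsUnit (c + (b : ZMod P)))).card.choose (j + 1) := by
      rw [h1]
      apply Finset.sum_congr rfl
      intro E _
      exact (card_units_eq PP hPP E).symm
    rw [h4]
    push_cast
    rfl
  rw [hcomb1] at hmain
  have hfin := hkey.trans hmain
  have hfac : (0:ℝ) < ((j + 1).factorial : ℝ) := by positivity
  -- conclude
  have h5 : lam ^ (j + 1) * (X / P) * (((j + 1).factorial : ℝ) * ∑ E ∈ B.powersetCard (j + 1), ((∏ p ∈ PP, (p - nu E p) : ℕ) : ℝ)) * (1 - (2 * j + 1) * ε - (j + 1) * j * (1 + ε) / K)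
     ≤ ((j + 1).factorial : ℝ) * ∑ E ∈ B.powersetCard (j + 1),
        (((Finset.Icc 1 N1).filter (fun n => ∀ e ∈ E, Nat.Prime (n + e))).card : ℝ) := by
    refine le_trans ?_ hfin
    apply mul_le_mul_of_nonneg_right _ hc.le
    exact mul_le_mul_of_nonneg_left hcomb2 (by positivity)
  have h6 : ((j + 1).factorial : ℝ) * ((1 - (2 * j + 1) * ε - (j + 1) * j * (1 + ε) / K) * (X / L ^ (j + 1)) *
        ∑ E ∈ B.powersetCard (j + 1), SP PP E)
      = lam ^ (j + 1) * (X / P) * (((j + 1).factorial : ℝ) * ∑ E ∈ B.powersetCard (j + 1), ((∏ p ∈ PP, (p - nu E p) : ℕ) : ℝ)) * (1 - (2 * j + 1) * ε - (j + 1) * j * (1 + ε) / K) := by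
    have h7 : ∑ E ∈ B.powersetCard (j + 1), SP PP E
        = (P / φ) ^ (j + 1) * (1 / P) * ∑ E ∈ B.powersetCard (j + 1), ((∏ p ∈ PP, (p - nu E p) : ℕ) : ℝ) := by
      rw [Finset.mul_sum]
      apply Finset.sum_congr rfl
      intro E hE
      rw [SP_eq PP hPP E, (Finset.mem_powersetCard.mp hE).2]
      rw [← hP, ← hφ]
      ring
    rw [h7, hlam, div_pow, div_pow, mul_pow]
    field_simp
  rw [← h6] at h5
  exact le_of_mul_le_mul_left h5 hfac

end Pool.Agent.HL26
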