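import Mathlib
import Pool.Agent.HL26.Engine

set_option autoImplicit false

open Finset

namespace Pool.Agent.HL26

/-- local factor of the singular series -/
noncomputable def loc (E : Finset ℕ) (p : ℕ) : ℝ :=
  ((1 - 1 / (p : ℝ))⁻¹) ^ E.card * (1 - (nu E p : ℝ) / (p : ℝ))

lemma singularSeries_eq (E : Finset ℕ) : singularSeries E = ∏' p : Nat.Primes, loc E (p : ℕ) := rfl

lemma SP_eq_prod_loc (PP E : Finset ℕ) : SP PP E = ∏ p ∈ PP, loc E p := rfl

lemma loc_nonneg (E : Finset ℕ) (p : ℕ) (hp : p.Prime) : 0 ≤ loc E p := by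
  unfold loc
  have hp0 : (0:ℝ) < p := by exact_mod_cast hp.pos
  have : NeZero p := ⟨hp.ne_zero⟩
  have h1 : (nu E p : ℝ) / p ≤ 1 := by
    rw [div_le_one hp0]
    exact_mod_cast nu_le E p
  have h2 : (1:ℝ) / p ≤ 1 := by
    rw [div_le_one hp0]
    exact_mod_cast hp.one_lt.le
  have h3 : (0:ℝ) ≤ (1 - 1 / (p:ℝ))⁻¹ := inv_nonneg.mpr (by linarith)
  exact mul_nonneg (pow_nonneg h3 _) (by linarith)

lemma one_sub_inv_pos (p : ℕ) (hp : p.Prime) : 0 < 1 - 1 / (p : ℝ) := by
  have : (1:ℝ) < p := by exact_mod_cast hp.one_lt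
  have h : 1 / (p:ℝ) < 1 := by rw [div_lt_one (by linarith)]; exact this
  linarith

lemma loc_le_one (E : Finset ℕ) (p : ℕ) (hp : p.Prime) (h : nu E p = E.card) : loc E p ≤ 1 := by
  unfold loc
  rw [h]
  have h0 := one_sub_inv_pos p hp
  have hb := one_add_mul_le_pow (a := -(1 / (p : ℝ))) (by linarith) E.card
  rw [inv_pow, inv_mul_le_iff₀ (by positivity), mul_one]
  have e : (1 + (E.card : ℝ) * -(1 / (p:ℝ))) = 1 - (E.card : ℝ) / p := by ring
  rw [e] at hb
  exact hb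

lemma loc_ge (E : Finset ℕ) (p : ℕ) (hp : p.Prime) :
    1 - ((E.card : ℝ)) ^ 2 / (p : ℝ) ^ 2 ≤ loc E p := by
  have hp0 : (0:ℝ) < p := by exact_mod_cast hp.pos
  by_cases hr : E.card ≤ p
  · unfold loc
    have h0 := one_sub_inv_pos p hp
    have h1 : 1 + 1 / (p:ℝ) ≤ (1 - 1 / (p:ℝ))⁻¹ := by
      rw [le_inv_comm₀ (by positivity) h0, inv_eq_one_div, le_div_iff₀ (by positivity)]
      have : 0 ≤ (1 / (p:ℝ))^2 := by positivity
      nlinarith
    have h2 : 1 + (E.card : ℝ) / p ≤ ((1 - 1 / (p:ℝ))⁻¹) ^ E.card := by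
      calc 1 + (E.card : ℝ) / p = 1 + (E.card : ℝ) * (1 / p) := by ring
        _ ≤ (1 + 1 / (p:ℝ)) ^ E.card := one_add_mul_le_pow (by have : (0:ℝ) < 1 / p := by positivity
                                                               linarith) _
        _ ≤ _ := pow_le_pow_left₀ (by positivity) h1 _
    have h3 : (nu E p : ℝ) ≤ E.card := by exact_mod_cast nu_le_card E p
    have h4 : 1 - (E.card : ℝ) / p ≤ 1 - (nu E p : ℝ) / p := by
      have : (nu E p : ℝ) / p ≤ (E.card : ℝ) / p := div_le_div_of_nonneg_right h3 hp0.le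
      linarith
    have h5 : 0 ≤ 1 - (E.card : ℝ) / p := by
      have : (E.card : ℝ) / p ≤ 1 := by
        rw [div_le_one hp0]; exact_mod_cast hr
      linarith
    calc 1 - ((E.card : ℝ)) ^ 2 / (p : ℝ) ^ 2 = (1 + (E.card : ℝ) / p) * (1 - (E.card : ℝ) / p) := by
          field_simp
          ring
      _ ≤ _ := mul_le_mul h2 h4 h5 (by positivity)
  · push Not at hr
    have h1 : (p : ℝ) ≤ E.card := by exact_mod_cast hr.le
    have h2 : 1 ≤ ((E.card : ℝ)) ^ 2 / (p : ℝ) ^ 2 := by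
      rw [le_div_iff₀ (by positivity), one_mul]
      exact pow_le_pow_left₀ hp0.le h1 2
    have := loc_nonneg E p hp
    linarith

lemma nu_pos (E : Finset ℕ) (hE : E.Nonempty) (p : ℕ) : 1 ≤ nu E p := by
  unfold nu
  exact Finset.card_pos.mpr (hE.image _)

lemma loc_le (E : Finset ℕ) (hE : E.Nonempty) (p : ℕ) (hp : p.Prime) :
    loc E p ≤ ((1 - 1 / (p:ℝ))⁻¹) ^ (E.card - 1) := by
  unfold loc
  have h0 := one_sub_inv_pos p hp
  have hp0 : (0:ℝ) < p := by exact_mod_cast hp.pos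
  have h1 : 1 - (nu E p : ℝ) / p ≤ 1 - 1 / p := by
    have : (1:ℝ) / p ≤ (nu E p : ℝ) / p := by
      apply div_le_div_of_nonneg_right _ hp0.le
      exact_mod_cast nu_pos E hE p
    linarith
  have hc : E.card = (E.card - 1) + 1 := by
    have := hE.card_pos
    omega
  have h3 : 0 ≤ ((1 - 1 / (p:ℝ))⁻¹) ^ E.card := by positivity
  calc _ ≤ ((1 - 1 / (p:ℝ))⁻¹) ^ E.card * (1 - 1 / p) := mul_le_mul_of_nonneg_left h1 h3
    _ = ((1 - 1 / (p:ℝ))⁻¹) ^ (E.card - 1) := by
      conv_lhs => rw [hc]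
      rw [pow_succ, mul_assoc, inv_mul_cancel₀ h0.ne', mul_one]

lemma exists_dvd_of_nu_lt (E : Finset ℕ) (p : ℕ) (h : nu E p < E.card) :
    ∃ e ∈ E, ∃ e' ∈ E, e < e' ∧ p ∣ e' - e := by
  by_contra hcon
  push Not at hcon
  have : nu E p = E.card := by
    unfold nu
    rw [Finset.card_image_iff]
    intro a ha b hb hab
    simp only at hab
    rw [ZMod.natCast_eq_natCast_iff] at hab
    rcases Nat.lt_trichotomy a b with h1 | h1 | h1
    · exact absurd ((Nat.modEq_iff_dvd' h1.le).mp hab) (hcon a ha b hb h1)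
    · exact h1
    · exact absurd ((Nat.modEq_iff_dvd' h1.le).mp hab.symm) (hcon b hb a ha h1)
  omega

lemma nu_eq_card_of_lt (E : Finset ℕ) (p : ℕ) (h : ∀ e ∈ E, e < p) : nu E p = E.card := by
  rcases (nu_le_card E p).lt_or_eq with h1 | h1
  · obtain ⟨e, he, e', he', hlt, hdvd⟩ := exists_dvd_of_nu_lt E p h1
    have := Nat.le_of_dvd (by omega) hdvd
    have := h e' he'
    omega
  · exact h1

lemma summable_primes_inv_sq : Summable (fun p : Nat.Primes => 1 / ((p : ℕ) : ℝ) ^ 2) := by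
  have h : Summable (fun n : ℕ => 1 / (n : ℝ) ^ 2) := Real.summable_one_div_nat_pow.mpr (by norm_num)
  exact h.comp_injective (i := fun p : Nat.Primes => (p : ℕ)) (fun a b hab => Subtype.ext hab)

lemma multipliable_loc (E : Finset ℕ) : Multipliable (fun p : Nat.Primes => loc E (p : ℕ)) := by
  have h : Summable (fun p : Nat.Primes => loc E (p : ℕ) - 1) := by
    have hs := summable_primes_inv_sq.mul_left ((E.card : ℝ) ^ 2)
    refine Summable.of_norm_bounded_eventually hs ?_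
    rw [Filter.eventually_cofinite]
    -- exceptional set: primes ≤ sup E
    apply Set.Finite.subset (Set.Finite.preimage (s := {n : ℕ | n ≤ E.sup id}) (f := fun p : Nat.Primes => (p : ℕ)) (fun a _ b _ hab => Subtype.ext hab) (Set.finite_le_nat _))
    intro p hp
    simp only [Set.mem_ofPred_eq, Set.mem_preimage] at hp ⊢
    by_contra hlt
    push Not at hlt
    apply hp
    have h1 : nu E (p : ℕ) = E.card := by
      apply nu_eq_card_of_lt
      intro e he
      exact lt_of_le_of_lt (Finset.le_sup (f := id) he) hlt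
    have h2 := loc_le_one E p p.2 h1
    have h3 := loc_ge E p p.2
    rw [Real.norm_eq_abs, abs_le]
    constructor
    · have : ((E.card : ℝ)) ^ 2 / ((p:ℕ) : ℝ) ^ 2 = (E.card : ℝ) ^ 2 * (1 / ((p : ℕ) : ℝ) ^ 2) := by ring
      linarith
    · have : 0 ≤ (E.card : ℝ) ^ 2 * (1 / ((p : ℕ) : ℝ) ^ 2) := by positivity
      linarith
  have := Real.multipliable_one_add_of_summable h
  simpa using this


/-- primes up to `y` -/
def PPy (y : ℕ) : Finset ℕ := (Finset.range (y + 1)).filter Nat.Prime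

lemma PPy_prime (y : ℕ) : ∀ p ∈ PPy y, p.Prime := fun _ hp => (Finset.mem_filter.mp hp).2

lemma one_sub_sum_le_prod {ι : Type*} (T : Finset ι) (a : ι → ℝ) (h0 : ∀ i ∈ T, 0 ≤ a i)
    (h1 : ∀ i ∈ T, a i ≤ 1) : 1 - ∑ i ∈ T, a i ≤ ∏ i ∈ T, (1 - a i) := by
  classical
  induction T using Finset.induction_on with
  | empty => simp
  | insert i s hi ih =>
    rw [Finset.prod_insert hi, Finset.sum_insert hi]
    have ih' := ih (fun j hj => h0 j (Finset.mem_insert_of_mem hj)) (fun j hj => h1 j (Finset.mem_insert_of_mem hj))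
    have ha0 := h0 i (Finset.mem_insert_self _ _)
    have ha1 := h1 i (Finset.mem_insert_self _ _)
    have hs : 0 ≤ ∑ j ∈ s, a j := Finset.sum_nonneg (fun j hj => h0 j (Finset.mem_insert_of_mem hj))
    have : (1 - a i) * (1 - ∑ j ∈ s, a j) ≤ (1 - a i) * ∏ j ∈ s, (1 - a j) :=
      mul_le_mul_of_nonneg_left ih' (by linarith)
    nlinarith [mul_nonneg ha0 hs]

lemma sum_inv_sq_gt (y : ℕ) (hy : 1 ≤ y) (T : Finset ℕ) (hT : ∀ p ∈ T, y < p) :
    ∑ p ∈ T, 1 / (p : ℝ) ^ 2 ≤ 1 / (y : ℝ) := by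
  have hy0 : (0:ℝ) < y := by exact_mod_cast hy
  set n := T.sup id with hn
  have h1 : T ⊆ Finset.Ioc y (max y n) := by
    intro p hp
    rw [Finset.mem_Ioc]
    exact ⟨hT p hp, le_max_of_le_right (Finset.le_sup (f := id) hp)⟩
  have h2 : ∑ p ∈ T, 1 / (p : ℝ) ^ 2 ≤ ∑ p ∈ Finset.Ioc y (max y n), 1 / (p : ℝ) ^ 2 :=
    Finset.sum_le_sum_of_subset_of_nonneg h1 (fun _ _ _ => by positivity)
  have h3 := sum_Ioc_inv_sq_le_sub (α := ℝ) (k := y) (n := max y n) (by omega) (le_max_left _ _)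
  have h4 : ∑ p ∈ Finset.Ioc y (max y n), 1 / (p : ℝ) ^ 2 = ∑ i ∈ Finset.Ioc y (max y n), ((i:ℝ) ^ 2)⁻¹ := by
    apply Finset.sum_congr rfl
    intro i _
    rw [one_div]
  rw [h4] at h2
  have h5 : (0:ℝ) ≤ ((max y n : ℕ) : ℝ)⁻¹ := by positivity
  rw [one_div (y : ℝ)]
  linarith

lemma prod_tail_ge (E : Finset ℕ) (y : ℕ) (hy : 1 ≤ y) (T : Finset ℕ) (hT : ∀ p ∈ T, y < p)
    (hTp : ∀ p ∈ T, p.Prime) :
    1 - (E.card : ℝ) ^ 2 / y ≤ ∏ p ∈ T, loc E p := by
  have hy0 : (0:ℝ) < y := by exact_mod_cast hy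
  by_cases hr : E.card ≤ y
  · have h1 : ∏ p ∈ T, (1 - (E.card : ℝ) ^ 2 / (p : ℝ) ^ 2) ≤ ∏ p ∈ T, loc E p := by
      apply Finset.prod_le_prod
      · intro p hp
        have hp1 : (E.card : ℝ) ≤ p := by exact_mod_cast hr.trans (hT p hp).le
        have hp0 : (0:ℝ) < p := by exact_mod_cast (hTp p hp).pos
        have : ((E.card : ℝ)) ^ 2 / (p : ℝ) ^ 2 ≤ 1 := by
          rw [div_le_one (by positivity)]
          exact pow_le_pow_left₀ (by positivity) hp1 2
        linarith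
      · intro p hp
        exact loc_ge E p (hTp p hp)
    have h2 := one_sub_sum_le_prod T (fun p => (E.card : ℝ) ^ 2 / (p : ℝ) ^ 2) (fun p _ => by positivity)
      (fun p hp => by
        have hp1 : (E.card : ℝ) ≤ p := by exact_mod_cast hr.trans (hT p hp).le
        have hp0 : (0:ℝ) < p := by exact_mod_cast (hTp p hp).pos
        rw [div_le_one (by positivity)]
        exact pow_le_pow_left₀ (by positivity) hp1 2)
    have h3 : ∑ p ∈ T, (E.card : ℝ) ^ 2 / (p : ℝ) ^ 2 ≤ (E.card : ℝ) ^ 2 / y := by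
      have := mul_le_mul_of_nonneg_left (sum_inv_sq_gt y hy T hT) (by positivity : (0:ℝ) ≤ (E.card : ℝ) ^ 2)
      rw [Finset.mul_sum] at this
      calc _ = ∑ i ∈ T, (E.card : ℝ) ^ 2 * (1 / (i : ℝ) ^ 2) := by
            apply Finset.sum_congr rfl
            intro i _
            ring
        _ ≤ _ := this
        _ = _ := by ring
    linarith
  · push Not at hr
    have h1 : (y : ℝ) ≤ E.card := by exact_mod_cast hr.le
    have h1' : (1:ℝ) ≤ E.card := by exact_mod_cast (by omega : 1 ≤ E.card)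
    have h2 : 1 ≤ (E.card : ℝ) ^ 2 / y := by
      rw [le_div_iff₀ hy0]
      nlinarith
    have h3 : 0 ≤ ∏ p ∈ T, loc E p := Finset.prod_nonneg (fun p hp => loc_nonneg E p (hTp p hp))
    linarith

/-- number of primes `> y` dividing `d` -/
lemma card_prime_dvd_le (y d : ℕ) (hy : 2 ≤ y) (hd : 1 ≤ d) (T : Finset ℕ) (hT : ∀ p ∈ T, y < p)
    (hTp : ∀ p ∈ T, p.Prime) (hTd : ∀ p ∈ T, p ∣ d) :
    (T.card : ℝ) ≤ Real.log d / Real.log y := by
  have h1 : ∏ p ∈ T, p ∣ d := Finset.prod_primes_dvd d (fun p hp => (hTp p hp).prime) hTd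
  have h2 : ∏ p ∈ T, p ≤ d := Nat.le_of_dvd (by omega) h1
  have h3 : y ^ T.card ≤ ∏ p ∈ T, p := by
    rw [← Finset.prod_const]
    exact Finset.prod_le_prod' (fun p hp => (hT p hp).le)
  have h4 : (y : ℝ) ^ T.card ≤ d := by exact_mod_cast h3.trans h2
  have hy0 : (1:ℝ) < y := by exact_mod_cast (by omega : 1 < y)
  rw [le_div_iff₀ (Real.log_pos hy0)]
  rw [← Real.log_pow]
  exact Real.log_le_log (by positivity) h4

lemma card_bad_le (E : Finset ℕ) (y H : ℕ) (hy : 2 ≤ y) (hH : 1 ≤ H) (hE : ∀ e ∈ E, e ≤ H)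
    (T : Finset ℕ) (hT : ∀ p ∈ T, y < p) (hTp : ∀ p ∈ T, p.Prime) (hTb : ∀ p ∈ T, nu E p < E.card) :
    (T.card : ℝ) ≤ (E.card : ℝ) ^ 2 * (Real.log H / Real.log y) := by
  classical
  have hy0 : (1:ℝ) < y := by exact_mod_cast (by omega : 1 < y)
  have hlogy := Real.log_pos hy0
  have h1 : T ⊆ ((E ×ˢ E).filter (fun q => q.1 < q.2)).biUnion
      (fun q => T.filter (fun p => p ∣ q.2 - q.1)) := by
    intro p hp
    obtain ⟨e, he, e', he', hlt, hdvd⟩ := exists_dvd_of_nu_lt E p (hTb p hp)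
    rw [Finset.mem_biUnion]
    refine ⟨(e, e'), ?_, ?_⟩
    · rw [Finset.mem_filter, Finset.mem_product]
      exact ⟨⟨he, he'⟩, hlt⟩
    · rw [Finset.mem_filter]
      exact ⟨hp, hdvd⟩
  have h2 := (Finset.card_le_card h1).trans Finset.card_biUnion_le
  have h3 : (T.card : ℝ) ≤ ∑ q ∈ (E ×ˢ E).filter (fun q => q.1 < q.2), ((T.filter (fun p => p ∣ q.2 - q.1)).card : ℝ) := by
    exact_mod_cast h2
  have h4 : ∀ q ∈ (E ×ˢ E).filter (fun q => q.1 < q.2), ((T.filter (fun p => p ∣ q.2 - q.1)).card : ℝ)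
      ≤ Real.log H / Real.log y := by
    intro q hq
    rw [Finset.mem_filter, Finset.mem_product] at hq
    have hle : q.2 - q.1 ≤ H := (Nat.sub_le _ _).trans (hE q.2 hq.1.2)
    have hpos : 1 ≤ q.2 - q.1 := by omega
    have := card_prime_dvd_le y (q.2 - q.1) hy hpos (T.filter (fun p => p ∣ q.2 - q.1))
      (fun p hp => hT p (Finset.mem_filter.mp hp).1) (fun p hp => hTp p (Finset.mem_filter.mp hp).1)
      (fun p hp => (Finset.mem_filter.mp hp).2)
    refine this.trans (div_le_div_of_nonneg_right ?_ hlogy.le)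
    apply Real.log_le_log (by exact_mod_cast hpos)
    exact_mod_cast hle
  have h5 := Finset.sum_le_sum h4
  rw [Finset.sum_const, nsmul_eq_mul] at h5
  have h6 : (((E ×ˢ E).filter (fun q => q.1 < q.2)).card : ℝ) ≤ (E.card : ℝ) ^ 2 := by
    have := Finset.card_filter_le (E ×ˢ E) (fun q => q.1 < q.2)
    rw [Finset.card_product, ← sq] at this
    exact_mod_cast this
  have h7 : 0 ≤ Real.log H / Real.log y := div_nonneg (Real.log_nonneg (by exact_mod_cast hH)) hlogy.le
  exact h3.trans (h5.trans (mul_le_mul_of_nonneg_right h6 h7))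

lemma prod_tail_le (E : Finset ℕ) (hEne : E.Nonempty) (y H : ℕ) (hy : 2 ≤ y) (hH : 1 ≤ H) (hE : ∀ e ∈ E, e ≤ H)
    (T : Finset ℕ) (hT : ∀ p ∈ T, y < p) (hTp : ∀ p ∈ T, p.Prime) :
    ∏ p ∈ T, loc E p ≤ Real.exp ((E.card : ℝ) ^ 3 * Real.log H / (y * Real.log y)) := by
  classical
  have hy0 : (1:ℝ) < y := by exact_mod_cast (by omega : 1 < y)
  have hlogy := Real.log_pos hy0
  set Tb := T.filter (fun p => nu E p < E.card) with hTb
  have h1 : ∏ p ∈ T, loc E p ≤ ∏ p ∈ T, (if nu E p < E.card then Real.exp (1 / y) ^ (E.card - 1) else 1) := by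
    apply Finset.prod_le_prod
    · intro p hp
      exact loc_nonneg E p (hTp p hp)
    · intro p hp
      split_ifs with h
      · refine (loc_le E hEne p (hTp p hp)).trans ?_
        have h0 := one_sub_inv_pos p (hTp p hp)
        apply pow_le_pow_left₀ (inv_nonneg.mpr h0.le)
        have hp1 : (y : ℝ) + 1 ≤ p := by exact_mod_cast (hT p hp)
        have hp0 : (0:ℝ) < p := by linarith
        have e1 : (1 - 1 / (p:ℝ))⁻¹ = 1 / ((p:ℝ) - 1) + 1 := by
          have : (p:ℝ) - 1 ≠ 0 := by linarith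
          field_simp
          ring
        rw [e1]
        refine (Real.add_one_le_exp _).trans (Real.exp_le_exp.mpr ?_)
        apply one_div_le_one_div_of_le (by linarith) (by linarith)
      · apply loc_le_one E p (hTp p hp)
        have := nu_le_card E p
        omega
  refine h1.trans ?_
  rw [Finset.prod_ite, Finset.prod_const, Finset.prod_const_one, mul_one, ← Real.exp_nat_mul, ← Real.exp_nat_mul]
  apply Real.exp_le_exp.mpr
  have h2 := card_bad_le E y H hy hH hE Tb (fun p hp => hT p (Finset.mem_filter.mp hp).1)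
    (fun p hp => hTp p (Finset.mem_filter.mp hp).1) (fun p hp => (Finset.mem_filter.mp hp).2)
  have h3 : ((E.card - 1 : ℕ) : ℝ) ≤ E.card := by exact_mod_cast Nat.sub_le _ _
  have h7 : 0 ≤ Real.log H / Real.log y := div_nonneg (Real.log_nonneg (by exact_mod_cast hH)) hlogy.le
  calc (Tb.card : ℝ) * (((E.card - 1 : ℕ) : ℝ) * (1 / y))
      ≤ ((E.card : ℝ) ^ 2 * (Real.log H / Real.log y)) * ((E.card : ℝ) * (1 / y)) := by
        apply mul_le_mul h2 _ (by positivity) (by positivity)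
        exact mul_le_mul_of_nonneg_right h3 (by positivity)
    _ = _ := by
        field_simp

lemma exists_tail (E : Finset ℕ) (y : ℕ) (s : Finset Nat.Primes)
    (hs : (PPy y).preimage (fun p : Nat.Primes => (p : ℕ)) (fun a _ b _ hab => Subtype.ext hab) ⊆ s) :
    ∃ T : Finset ℕ, (∀ p ∈ T, y < p) ∧ (∀ p ∈ T, p.Prime) ∧
      ∏ p ∈ s, loc E (p : ℕ) = SP (PPy y) E * ∏ p ∈ T, loc E p := by
  classical
  set S0 := (PPy y).preimage (fun p : Nat.Primes => (p : ℕ)) (fun a _ b _ hab => Subtype.ext hab) with hS0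
  refine ⟨(s \ S0).map ⟨fun p : Nat.Primes => (p : ℕ), fun _ _ hab => Subtype.ext hab⟩, ?_, ?_, ?_⟩
  · intro p hp
    rw [Finset.mem_map] at hp
    obtain ⟨q, hq, rfl⟩ := hp
    rw [Finset.mem_sdiff] at hq
    have h2 := hq.2
    rw [hS0, Finset.mem_preimage] at h2
    unfold PPy at h2
    rw [Finset.mem_filter, Finset.mem_range] at h2
    simp only [Function.Embedding.coeFn_mk]
    by_contra hcon
    exact h2 ⟨by omega, q.2⟩
  · intro p hp
    rw [Finset.mem_map] at hp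
    obtain ⟨q, hq, rfl⟩ := hp
    exact q.2
  · rw [Finset.prod_map]
    have h1 : SP (PPy y) E = ∏ p ∈ S0, loc E (p : ℕ) := by
      rw [SP_eq_prod_loc, hS0]
      rw [Finset.prod_preimage (fun p : Nat.Primes => (p : ℕ)) (PPy y) _ (fun n => loc E n)]
      intro x hx hx2
      exact absurd ⟨⟨x, PPy_prime y x hx⟩, rfl⟩ hx2
    rw [h1, mul_comm]
    exact (Finset.prod_sdiff hs).symm

theorem singularSeries_ge (E : Finset ℕ) (y : ℕ) (hy : 1 ≤ y) :
    (1 - (E.card : ℝ) ^ 2 / y) * SP (PPy y) E ≤ singularSeries E := by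
  have h := (multipliable_loc E).hasProd
  rw [← singularSeries_eq] at h
  unfold HasProd at h
  refine ge_of_tendsto h ?_
  rw [SummationFilter.unconditional_filter]
  filter_upwards [Filter.eventually_ge_atTop ((PPy y).preimage (fun p : Nat.Primes => (p : ℕ)) (fun a _ b _ hab => Subtype.ext hab))] with s hs
  obtain ⟨T, hT, hTp, heq⟩ := exists_tail E y s hs
  rw [heq, mul_comm]
  exact mul_le_mul_of_nonneg_left (prod_tail_ge E y hy T hT hTp) (SP_nonneg _ (PPy_prime y) E)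

theorem singularSeries_le (E : Finset ℕ) (hEne : E.Nonempty) (y H : ℕ) (hy : 2 ≤ y) (hH : 1 ≤ H) (hE : ∀ e ∈ E, e ≤ H) :
    singularSeries E ≤ SP (PPy y) E * Real.exp ((E.card : ℝ) ^ 3 * Real.log H / (y * Real.log y)) := by
  have h := (multipliable_loc E).hasProd
  rw [← singularSeries_eq] at h
  unfold HasProd at h
  refine le_of_tendsto h ?_
  rw [SummationFilter.unconditional_filter]
  filter_upwards [Filter.eventually_ge_atTop ((PPy y).preimage (fun p : Nat.Primes => (p : ℕ)) (fun a _ b _ hab => Subtype.ext hab))] with s hs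
  obtain ⟨T, hT, hTp, heq⟩ := exists_tail E y s hs
  rw [heq]
  exact mul_le_mul_of_nonneg_left (prod_tail_le E hEne y H hy hH hE T hT hTp) (SP_nonneg _ (PPy_prime y) E)

end Pool.Agent.HL26
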