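import Mathlib
import Pool.Agent.HL26.Sing

set_option autoImplicit false

open Finset

namespace Pool.Agent.HL26

lemma sInf_mem_of_nonempty (E : Finset ℕ) (hE : E.Nonempty) : sInf (E : Set ℕ) ∈ E := by
  have := Nat.sInf_mem (s := (E : Set ℕ)) hE
  exact this

lemma sInf_le_of_mem (E : Finset ℕ) (e : ℕ) (he : e ∈ E) : sInf (E : Set ℕ) ≤ e :=
  Nat.sInf_le he

lemma card_translate0 (E : Finset ℕ) : (translate0 E).card = E.card := by
  unfold translate0
  rw [Finset.card_image_iff]
  intro a ha b hb hab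
  simp only at hab
  have h1 := sInf_le_of_mem E a ha
  have h2 := sInf_le_of_mem E b hb
  omega

lemma nu_translate0 (E : Finset ℕ) (p : ℕ) : nu (translate0 E) p = nu E p := by
  unfold nu translate0
  rw [Finset.image_image]
  have h1 : E.image ((fun e : ℕ => (e : ZMod p)) ∘ (fun e => e - sInf (E : Set ℕ)))
      = (E.image (fun e : ℕ => (e : ZMod p))).image (fun z => z - ((sInf (E : Set ℕ) : ℕ) : ZMod p)) := by
    rw [Finset.image_image]
    apply Finset.image_congr
    intro e he
    simp only [Function.comp]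
    rw [Nat.cast_sub (sInf_le_of_mem E e he)]
  rw [h1, Finset.card_image_of_injective]
  intro a b hab
  simpa using hab

lemma singularSeries_translate0 (E : Finset ℕ) : singularSeries (translate0 E) = singularSeries E := by
  unfold singularSeries
  simp_rw [nu_translate0, card_translate0]

lemma count_le_tupleCount (E : Finset ℕ) (H N1 : ℕ) (x : ℝ) (hE : E.Nonempty) (hH : ∀ e ∈ E, e ≤ H)
    (hx : N1 + H ≤ ⌊x⌋₊) :
    ((Finset.Icc 1 N1).filter (fun n => ∀ e ∈ E, Nat.Prime (n + e))).card ≤ tupleCount x (translate0 E) := by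
  unfold tupleCount
  have hmem := sInf_mem_of_nonempty E hE
  have hle := hH _ hmem
  apply Finset.card_le_card_of_injOn (fun n => n + sInf (E : Set ℕ))
  · intro n hn
    rw [Finset.mem_coe, Finset.mem_filter, Finset.mem_Icc] at hn ⊢
    simp only
    refine ⟨⟨by omega, by omega⟩, ?_⟩
    intro d hd
    unfold translate0 at hd
    rw [Finset.mem_image] at hd
    obtain ⟨e, he, rfl⟩ := hd
    have h1 := sInf_le_of_mem E e he
    have h2 : n + sInf (E : Set ℕ) + (e - sInf (E : Set ℕ)) = n + e := by omega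
    rw [h2]
    exact hn.2 e he
  · intro a _ b _ hab
    simp only at hab
    omega

/-- lower bound for the mean value of the truncated singular series over the `(j+1)`-subsets of `B` -/
lemma sum_SP_ge (PP : Finset ℕ) (hPP : ∀ p ∈ PP, p.Prime) (B : Finset ℕ) (j : ℕ) (w : ℝ) (hw : 0 < w)
    (hw' : w = (B.card : ℝ) * (Nat.totient (∏ p ∈ PP, p) : ℝ) / ((∏ p ∈ PP, p : ℕ) : ℝ)) :
    (1 - (j + 1) * j / w) * (B.card.choose (j + 1) : ℝ) ≤ ∑ E ∈ B.powersetCard (j + 1), SP PP E := by
  classical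
  set P := ∏ p ∈ PP, p with hP
  have hP0 : P ≠ 0 := by
    rw [hP, Finset.prod_ne_zero_iff]
    intro p hp
    exact (hPP p hp).ne_zero
  have : NeZero P := ⟨hP0⟩
  have hPpos : (0:ℝ) < P := by exact_mod_cast Nat.pos_of_ne_zero hP0
  set φ : ℝ := (Nat.totient P : ℝ) with hφ
  have hφpos : 0 < φ := by
    rw [hφ]; exact_mod_cast Nat.totient_pos.mpr (Nat.pos_of_ne_zero hP0)
  by_cases hc : 1 - ((j : ℝ) + 1) * j / w ≤ 0
  · have h0 : 0 ≤ ∑ E ∈ B.powersetCard (j + 1), SP PP E :=
      Finset.sum_nonneg (fun E _ => SP_nonneg PP hPP E)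
    exact (mul_nonpos_of_nonpos_of_nonneg hc (by positivity)).trans h0
  push Not at hc
  -- combinatorial identity
  have hfac : (0:ℝ) < ((j + 1).factorial : ℝ) := by positivity
  have hcomb : ((j + 1).factorial : ℝ) * ∑ E ∈ B.powersetCard (j + 1), ((∏ p ∈ PP, (p - nu E p) : ℕ) : ℝ)
      = ∑ c : ZMod P, ((V P B c).descFactorial (j + 1) : ℝ) := by
    have h1 := sum_choose_eq (Finset.univ : Finset (ZMod P)) B (fun c b => IsUnit (c + (b : ZMod P))) (j + 1)
    have h4 : ∑ E ∈ B.powersetCard (j + 1), (∏ p ∈ PP, (p - nu E p))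
        = ∑ c : ZMod P, (B.filter (fun b : ℕ => IsUnit (c + (b : ZMod P)))).card.choose (j + 1) := by
      rw [h1]
      apply Finset.sum_congr rfl
      intro E _
      exact (card_units_eq PP hPP E).symm
    have h5 : (j + 1).factorial * ∑ E ∈ B.powersetCard (j + 1), (∏ p ∈ PP, (p - nu E p))
        = ∑ c : ZMod P, (V P B c).descFactorial (j + 1) := by
      rw [h4, Finset.mul_sum]
      apply Finset.sum_congr rfl
      intro c _
      rw [V_eq P B c, Nat.descFactorial_eq_factorial_mul_choose]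
    exact_mod_cast h5
  have hlow : P * (w ^ (j + 1) - (j + 1) * j * w ^ j) ≤ ∑ c : ZMod P, ((V P B c).descFactorial (j + 1) : ℝ) := by
    have h1 : ∀ c ∈ (Finset.univ : Finset (ZMod P)), ((j + 1 : ℕ) : ℝ) * w ^ j * ((V P B c : ℝ)) - (((j + 1 : ℕ) : ℝ) * j * w ^ j + j * w ^ (j + 1))
        ≤ ((V P B c).descFactorial (j + 1) : ℝ) := by
      intro c _
      have := descFactorial_ge (j + 1) (by omega) (V P B c) w hw.le
      refine le_trans (le_of_eq ?_) this
      simp only [Nat.add_sub_cancel]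
      push_cast
      ring
    have h2 := Finset.sum_le_sum h1
    rw [Finset.sum_sub_distrib, ← Finset.mul_sum, Finset.sum_const, Finset.card_univ, ZMod.card, nsmul_eq_mul] at h2
    have h3 := W_one P B
    unfold W at h3
    simp only [pow_one] at h3
    rw [h3] at h2
    refine le_trans (le_of_eq ?_) h2
    have : (B.card : ℝ) * φ = P * w := by
      rw [hw']; field_simp
    rw [this]
    push_cast
    ring
  rw [← hcomb] at hlow
  have h7 : ∑ E ∈ B.powersetCard (j + 1), SP PP E
      = (P / φ) ^ (j + 1) * (1 / P) * ∑ E ∈ B.powersetCard (j + 1), ((∏ p ∈ PP, (p - nu E p) : ℕ) : ℝ) := by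
    rw [Finset.mul_sum]
    apply Finset.sum_congr rfl
    intro E hE
    rw [SP_eq PP hPP E, (Finset.mem_powersetCard.mp hE).2]
    rw [← hP, ← hφ]
    ring
  rw [h7]
  have h8 : (B.card.choose (j + 1) : ℝ) ≤ (B.card : ℝ) ^ (j + 1) / ((j + 1).factorial : ℝ) :=
    Nat.choose_le_pow_div (j + 1) B.card
  have h9 : (B.card : ℝ) = P / φ * w := by
    rw [hw']; field_simp
  calc (1 - ((j : ℝ) + 1) * j / w) * (B.card.choose (j + 1) : ℝ)
      ≤ (1 - ((j : ℝ) + 1) * j / w) * ((B.card : ℝ) ^ (j + 1) / ((j + 1).factorial : ℝ)) :=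
        mul_le_mul_of_nonneg_left h8 hc.le
    _ = (P / φ) ^ (j + 1) * (1 / P) * (P * (w ^ (j + 1) - (j + 1) * j * w ^ j) / ((j + 1).factorial : ℝ)) := by
        rw [h9, mul_pow, pow_succ w j]
        field_simp
    _ ≤ (P / φ) ^ (j + 1) * (1 / P) * ∑ E ∈ B.powersetCard (j + 1), ((∏ p ∈ PP, (p - nu E p) : ℕ) : ℝ) := by
        apply mul_le_mul_of_nonneg_left _ (by positivity)
        rw [div_le_iff₀ hfac]
        linarith

lemma ratio_le (y : ℕ) :
    ((∏ p ∈ PPy y, p : ℕ) : ℝ) ≤ (2:ℝ) ^ y * (Nat.totient (∏ p ∈ PPy y, p) : ℝ) := by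
  rw [totient_prod (PPy y) (PPy_prime y)]
  push_cast
  have h1 : ∏ p ∈ PPy y, (p : ℝ) ≤ ∏ p ∈ PPy y, (2 * ((p : ℝ) - 1)) := by
    apply Finset.prod_le_prod
    · intro p _; positivity
    · intro p hp
      have : (2:ℝ) ≤ p := by exact_mod_cast (PPy_prime y p hp).two_le
      linarith
  rw [Finset.prod_mul_distrib, Finset.prod_const] at h1
  refine h1.trans ?_
  apply mul_le_mul_of_nonneg_right
  · apply pow_le_pow_right₀ (by norm_num)
    have : PPy y ⊆ (Finset.range (y + 1)).erase 0 := by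
      intro p hp
      rw [Finset.mem_erase]
      exact ⟨(PPy_prime y p hp).ne_zero, (Finset.mem_filter.mp hp).1⟩
    have h2 := Finset.card_le_card this
    rw [Finset.card_erase_of_mem (by simp), Finset.card_range] at h2
    omega
  · apply Finset.prod_nonneg
    intro p hp
    have : (2:ℝ) ≤ p := by exact_mod_cast (PPy_prime y p hp).two_le
    linarith

lemma prod_PPy_le (y : ℕ) : ∏ p ∈ PPy y, p ≤ 4 ^ y := by
  have h := primorial_le_four_pow y
  exact h

end Pool.Agent.HL26
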