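import Mathlib
import Pool.Agent.HL26.Assemble

set_option autoImplicit false

open Finset

namespace Pool.Agent.HL26

lemma SP_pos (PP : Finset ℕ) (hPP : ∀ p ∈ PP, p.Prime) (E : Finset ℕ) (h : ∀ p ∈ PP, nu E p < p) :
    0 < SP PP E := by
  unfold SP
  apply Finset.prod_pos
  intro p hp
  have hpp := hPP p hp
  have hp0 : (0:ℝ) < p := by exact_mod_cast hpp.pos
  have h1 : (nu E p : ℝ) / p < 1 := by
    rw [div_lt_one hp0]
    exact_mod_cast h p hp
  have h2 := one_sub_inv_pos p hpp
  have h3 : (0:ℝ) < (1 - 1 / (p:ℝ))⁻¹ := inv_pos.mpr h2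
  exact mul_pos (pow_pos h3 _) (by linarith)

lemma singularSeries_nonneg (E : Finset ℕ) : 0 ≤ singularSeries E := by
  have h := (multipliable_loc E).hasProd
  rw [← singularSeries_eq] at h
  unfold HasProd at h
  refine ge_of_tendsto h ?_
  filter_upwards with s
  exact Finset.prod_nonneg (fun p _ => loc_nonneg E p p.2)

lemma singularSeries_pos_of (E : Finset ℕ) (h : ∀ p : ℕ, p.Prime → nu E p < p) :
    0 < singularSeries E := by
  have h1 := singularSeries_ge E (2 * E.card ^ 2 + 1) (by omega)
  have h2 := SP_pos (PPy (2 * E.card ^ 2 + 1)) (PPy_prime _) E (fun p hp => h p (PPy_prime _ p hp))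
  have h3 : 0 < 1 - (E.card : ℝ) ^ 2 / ((2 * E.card ^ 2 + 1 : ℕ) : ℝ) := by
    have : (E.card : ℝ) ^ 2 / ((2 * E.card ^ 2 + 1 : ℕ) : ℝ) < 1 := by
      rw [div_lt_one (by positivity)]
      push_cast
      nlinarith [sq_nonneg (E.card : ℝ)]
    linarith
  exact lt_of_lt_of_le (mul_pos h3 h2) h1

lemma singularSeries_eq_zero_of (E : Finset ℕ) (p : ℕ) (hp : p.Prime) (h : nu E p = p) :
    singularSeries E = 0 := by
  have hh := (multipliable_loc E).hasProd
  rw [← singularSeries_eq] at hh
  unfold HasProd at hh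
  refine tendsto_nhds_unique hh ?_
  refine tendsto_const_nhds.congr' ?_
  rw [SummationFilter.unconditional_filter]
  filter_upwards [Filter.eventually_ge_atTop ({⟨p, hp⟩} : Finset Nat.Primes)] with s hs
  symm
  apply Finset.prod_eq_zero (i := (⟨p, hp⟩ : Nat.Primes))
  · exact hs (Finset.mem_singleton_self _)
  · have hp0 : (p : ℝ) ≠ 0 := by exact_mod_cast hp.ne_zero
    simp only [loc, h]
    rw [div_self hp0, sub_self, mul_zero]

lemma admissible_of_pos (E : Finset ℕ) (h : 0 < singularSeries E) (p : ℕ) (hp : p.Prime) : nu E p < p := by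
  have : NeZero p := ⟨hp.ne_zero⟩
  rcases (nu_le E p).lt_or_eq with h1 | h1
  · exact h1
  · rw [singularSeries_eq_zero_of E p hp h1] at h
    exact absurd h (lt_irrefl _)

lemma tupleCount_le_of_zero (E : Finset ℕ) (h : singularSeries E = 0) (x : ℝ) :
    tupleCount x E ≤ E.card := by
  have h1 : ∃ p : ℕ, p.Prime ∧ p ≤ nu E p := by
    by_contra hcon
    push Not at hcon
    have := singularSeries_pos_of E (fun p hp => hcon p hp)
    rw [h] at this
    exact lt_irrefl _ this
  obtain ⟨p, hp, hnu⟩ := h1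
  have : NeZero p := ⟨hp.ne_zero⟩
  have hnu' : nu E p = p := le_antisymm (nu_le E p) hnu
  have hpc : p ≤ E.card := hnu.trans (nu_le_card E p)
  refine le_trans ?_ hpc
  unfold tupleCount
  have hsub : (Finset.Icc 1 ⌊x⌋₊).filter (fun m => ∀ e ∈ E, Nat.Prime (m + e)) ⊆ Finset.Icc 1 p := by
    intro m hm
    rw [Finset.mem_filter, Finset.mem_Icc] at hm
    rw [Finset.mem_Icc]
    refine ⟨hm.1.1, ?_⟩
    have huniv : E.image (fun e : ℕ => (e : ZMod p)) = Finset.univ := by
      apply Finset.eq_univ_of_card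
      rw [ZMod.card]
      exact hnu'
    have hmem : (-(m : ZMod p)) ∈ E.image (fun e : ℕ => (e : ZMod p)) := by
      rw [huniv]; exact Finset.mem_univ _
    rw [Finset.mem_image] at hmem
    obtain ⟨e, he, heq⟩ := hmem
    have hdvd : p ∣ m + e := by
      rw [← ZMod.natCast_eq_zero_iff]
      push_cast
      rw [heq]
      ring
    have hprime := hm.2 e he
    have := (Nat.prime_dvd_prime_iff_eq hp hprime).mp hdvd
    omega
  have := Finset.card_le_card hsub
  simpa using this

lemma zero_mem_translate0 (E : Finset ℕ) (hE : E.Nonempty) : 0 ∈ translate0 E := by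
  unfold translate0
  rw [Finset.mem_image]
  exact ⟨_, sInf_mem_of_nonempty E hE, by simp⟩

lemma translate0_add (E : Finset ℕ) : (translate0 E).image (fun d => d + sInf (E : Set ℕ)) = E := by
  unfold translate0
  rw [Finset.image_image]
  ext e
  rw [Finset.mem_image]
  constructor
  · rintro ⟨e', he', rfl⟩
    have := sInf_le_of_mem E e' he'
    simp only [Function.comp]
    rwa [Nat.sub_add_cancel this]
  · intro he
    refine ⟨e, he, ?_⟩
    have := sInf_le_of_mem E e he
    simp only [Function.comp]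
    omega

lemma two_le_of_mem (E : Finset ℕ) (h0 : 0 ∈ E) (hpos : 0 < singularSeries E) (d : ℕ) (hd : d ∈ E) (hd0 : d ≠ 0) :
    2 ≤ d := by
  by_contra hcon
  have hd1 : d = 1 := by omega
  subst hd1
  have h := admissible_of_pos E hpos 2 Nat.prime_two
  have : 2 ≤ nu E 2 := by
    unfold nu
    have hsub : ({(0 : ZMod 2), 1} : Finset (ZMod 2)) ⊆ E.image (fun e : ℕ => (e : ZMod 2)) := by
      intro z hz
      rw [Finset.mem_insert, Finset.mem_singleton] at hz
      rw [Finset.mem_image]
      rcases hz with rfl | rfl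
      · exact ⟨0, h0, by simp⟩
      · exact ⟨1, hd, by simp⟩
    have := Finset.card_le_card hsub
    simpa using this
  omega

end Pool.Agent.HL26
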