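import Mathlib
import Pool.Agent.HL26.Degenerate

set_option autoImplicit false

open Finset

namespace Pool.Agent.HL26

/-- Mertens: upper bound for the sum of `log p / p` -/
lemma sum_log_div_le (w : ℕ) (hw : 1 ≤ w) :
    ∑ p ∈ PPy w, Real.log p / p ≤ Real.log w + Real.log 4 := by
  have hw0 : (0:ℝ) < w := by exact_mod_cast hw
  have hPp : ∀ p ∈ PPy w, p.Prime := PPy_prime w
  -- theta bound
  have hθ : ∑ p ∈ PPy w, Real.log p ≤ w * Real.log 4 := by
    have h1 : (((∏ p ∈ PPy w, p : ℕ) : ℝ)) ≤ (4:ℝ) ^ w := by exact_mod_cast prod_PPy_le w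
    have h2 : 0 < ((∏ p ∈ PPy w, p : ℕ) : ℝ) := by
      exact_mod_cast Finset.prod_pos (fun p hp => (hPp p hp).pos)
    have h3 := Real.log_le_log h2 h1
    rw [Real.log_pow, Nat.cast_prod, Real.log_prod (fun p hp => by exact_mod_cast (hPp p hp).ne_zero)] at h3
    exact h3
  -- the double sum
  have hdouble : ∑ p ∈ PPy w, Real.log p * ((w / p : ℕ) : ℝ) ≤ w * Real.log w := by
    have h1 : ∀ p ∈ PPy w, Real.log p * ((w / p : ℕ) : ℝ) =
        ∑ n ∈ Finset.Ioc 0 w, if p ∣ n then Real.log p else 0 := by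
      intro p hp
      rw [← Finset.sum_filter, Finset.sum_const, Nat.Ioc_filter_dvd_card_eq_div, nsmul_eq_mul]
      ring
    rw [Finset.sum_congr rfl h1, Finset.sum_comm]
    have h2 : ∀ n ∈ Finset.Ioc 0 w, (∑ p ∈ PPy w, if p ∣ n then Real.log p else 0) ≤ Real.log w := by
      intro n hn
      rw [Finset.mem_Ioc] at hn
      rw [← Finset.sum_filter]
      set T := (PPy w).filter (fun p => p ∣ n) with hT
      have hTp : ∀ p ∈ T, p.Prime := fun p hp => hPp p (Finset.mem_filter.mp hp).1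
      have hd : ∏ p ∈ T, p ∣ n :=
        Finset.prod_primes_dvd n (fun p hp => (hTp p hp).prime) (fun p hp => (Finset.mem_filter.mp hp).2)
      have hle : ∏ p ∈ T, p ≤ w := (Nat.le_of_dvd hn.1 hd).trans hn.2
      have h3 : (((∏ p ∈ T, p : ℕ) : ℝ)) ≤ w := by exact_mod_cast hle
      have h4 : 0 < ((∏ p ∈ T, p : ℕ) : ℝ) := by
        exact_mod_cast Finset.prod_pos (fun p hp => (hTp p hp).pos)
      have h5 := Real.log_le_log h4 h3
      rw [Nat.cast_prod, Real.log_prod (fun p hp => by exact_mod_cast (hTp p hp).ne_zero)] at h5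
      exact h5
    refine (Finset.sum_le_sum h2).trans ?_
    rw [Finset.sum_const, Nat.card_Ioc, nsmul_eq_mul]
    simp
  have hfin : w * ∑ p ∈ PPy w, Real.log p / p ≤ w * (Real.log w + Real.log 4) := by
    rw [Finset.mul_sum]
    have h1 : ∀ p ∈ PPy w, w * (Real.log p / p) ≤ Real.log p * ((w / p : ℕ) : ℝ) + Real.log p := by
      intro p hp
      have hp0 : (0:ℝ) < p := by exact_mod_cast (hPp p hp).pos
      have hl : 0 ≤ Real.log p := Real.log_nonneg (by exact_mod_cast (hPp p hp).one_lt.le)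
      have h2 : (w : ℝ) / p ≤ ((w / p : ℕ) : ℝ) + 1 := by
        have := Nat.lt_floor_add_one ((w:ℝ) / p)
        rw [Nat.floor_div_natCast, Nat.floor_natCast] at this
        exact this.le
      calc w * (Real.log p / p) = Real.log p * (w / p) := by ring
        _ ≤ Real.log p * (((w / p : ℕ) : ℝ) + 1) := mul_le_mul_of_nonneg_left h2 hl
        _ = _ := by ring
    refine (Finset.sum_le_sum h1).trans ?_
    rw [Finset.sum_add_distrib]
    linarith
  exact le_of_mul_le_mul_left hfin hw0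

/-- Mertens: lower bound for the product -/
lemma log_le_prod (w : ℕ) : Real.log (w + 1) ≤ ∏ p ∈ PPy w, (1 - 1 / (p : ℝ))⁻¹ := by
  let f : ℕ →* ℝ := 
    { toFun := fun n => ((n : ℝ))⁻¹
      map_one' := by simp
      map_mul' := fun a b => by push_cast; rw [mul_inv] }
  have hf : ∀ {p : ℕ}, p.Prime → ‖f p‖ < 1 := by
    intro p hp
    change ‖((p:ℝ))⁻¹‖ < 1
    rw [norm_inv, Real.norm_natCast]
    exact inv_lt_one_of_one_lt₀ (by exact_mod_cast hp.one_lt)
  obtain ⟨hs, hh⟩ := EulerProduct.summable_and_hasSum_smoothNumbers_prod_primesBelow_geometric hf (w + 1)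
  have h1 : ∏ p ∈ PPy w, (1 - 1 / (p : ℝ))⁻¹ = ∏ p ∈ (w + 1).primesBelow, (1 - f p)⁻¹ := by
    unfold PPy Nat.primesBelow
    apply Finset.prod_congr rfl
    intro p _
    change (1 - 1 / (p : ℝ))⁻¹ = (1 - (p:ℝ)⁻¹)⁻¹
    rw [one_div]
  rw [h1, ← hh.tsum_eq]
  have h2 : Real.log (w + 1) ≤ ∑ n ∈ Finset.Icc 1 w, ((n:ℝ))⁻¹ := by
    have := log_add_one_le_harmonic w
    push_cast at this
    refine this.trans (le_of_eq ?_)
    rw [harmonic_eq_sum_Icc]
    push_cast
    rfl
  refine h2.trans ?_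
  have hmem : ∀ n ∈ Finset.Icc 1 w, n ∈ (w + 1).smoothNumbers := by
    intro n hn
    rw [Finset.mem_Icc] at hn
    exact Nat.mem_smoothNumbers_of_lt (by omega) (by omega)
  have h3 : ∑ n ∈ Finset.Icc 1 w, ((n:ℝ))⁻¹ =
      ∑ m ∈ (Finset.Icc 1 w).attach.map ⟨fun n => (⟨n.1, hmem n.1 n.2⟩ : (w + 1).smoothNumbers), 
        fun a b hab => by
          simp only [Subtype.mk.injEq] at hab
          exact Subtype.ext hab⟩, f m := by
    rw [Finset.sum_map, ← Finset.sum_attach]
    rfl
  rw [h3]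
  apply hh.summable.sum_le_tsum
  intro m _
  change 0 ≤ ((m : ℕ) : ℝ)⁻¹
  positivity


/-- the sum over the divisors of the primorial as a product -/
lemma sum_divisors_eq_prod (w : ℕ) (g : ℕ → ℝ) :
    ∑ l ∈ (∏ p ∈ PPy w, p).divisors, ∏ p ∈ l.primeFactors, g p = ∏ p ∈ PPy w, (1 + g p) := by
  classical
  set P := ∏ p ∈ PPy w, p with hP
  have hsq : Squarefree P := Finset.squarefree_prod_of_pairwise_isCoprime (fun p hp q hq hpq => by
      have := (Nat.coprime_primes (PPy_prime w p hp) (PPy_prime w q hq)).mpr hpq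
      simpa [Nat.isCoprime_iff_coprime, Nat.coprime_iff_isRelPrime] using this)
    (fun p hp => (PPy_prime w p hp).squarefree)
  have hpf : P.primeFactors = PPy w := Nat.primeFactors_prod (PPy_prime w)
  have hm : (ArithmeticFunction.prodPrimeFactors g).IsMultiplicative :=
    ArithmeticFunction.IsMultiplicative.prodPrimeFactors g
  have h := hm.prodPrimeFactors_one_add_of_squarefree hsq
  have h1 : ∑ l ∈ P.divisors, ∏ p ∈ l.primeFactors, g p =
      ∑ d ∈ P.divisors, (ArithmeticFunction.prodPrimeFactors g) d := by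
    apply Finset.sum_congr rfl
    intro d hd
    rw [ArithmeticFunction.prodPrimeFactors_apply (Nat.pos_of_mem_divisors hd).ne']
  rw [h1, ← h, hpf]
  apply Finset.prod_congr rfl
  intro p hp
  have hpp := PPy_prime w p hp
  rw [ArithmeticFunction.prodPrimeFactors_apply hpp.ne_zero, hpp.primeFactors, Finset.prod_singleton]

end Pool.Agent.HL26
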