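import Mathlib
import Pool.Agent.HL26.SieveA

set_option autoImplicit false

open Finset

namespace Pool.Agent.HL26

/-- `d / φ(d)` -/
noncomputable def G0 (d : ℕ) : ℝ := ∏ p ∈ d.primeFactors, (1 - 1 / (p : ℝ))⁻¹

lemma one_le_fac (p : ℕ) (hp : p.Prime) : 1 ≤ (1 - 1 / (p : ℝ))⁻¹ := by
  have h3 := one_sub_inv_pos p hp
  apply (one_le_inv₀ h3).mpr
  have hp0 : (0:ℝ) < p := by exact_mod_cast hp.pos
  have : (0:ℝ) < 1 / p := by positivity
  linarith

lemma one_le_G0 (d : ℕ) : 1 ≤ G0 d := by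
  unfold G0
  have : ∀ p ∈ d.primeFactors, (1:ℝ) ≤ (1 - 1 / (p : ℝ))⁻¹ :=
    fun p hp => one_le_fac p (Nat.prime_of_mem_primeFactors hp)
  calc (1:ℝ) = ∏ p ∈ d.primeFactors, 1 := by simp
    _ ≤ _ := Finset.prod_le_prod (fun _ _ => by norm_num) this

/-- the pairs of elements of `E` -/
def prs (E : Finset ℕ) : Finset (ℕ × ℕ) := (E ×ˢ E).filter (fun q => q.1 < q.2)

lemma loc_le_prod (E : Finset ℕ) (hE : E.Nonempty) (p : ℕ) (hp : p.Prime) :
    loc E p ≤ ∏ q ∈ prs E, (if p ∣ q.2 - q.1 then ((1 - 1 / (p:ℝ))⁻¹) ^ (E.card - 1) else 1) := by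
  have hfac : ∀ q ∈ prs E, (1:ℝ) ≤ (if p ∣ q.2 - q.1 then ((1 - 1 / (p:ℝ))⁻¹) ^ (E.card - 1) else 1) := by
    intro q _
    split_ifs
    · exact one_le_pow₀ (one_le_fac p hp)
    · exact le_refl _
  rcases (nu_le_card E p).lt_or_eq with h | h
  · obtain ⟨e, he, e', he', hlt, hdvd⟩ := exists_dvd_of_nu_lt E p h
    have hmem : (e, e') ∈ prs E := by
      unfold prs
      rw [Finset.mem_filter, Finset.mem_product]
      exact ⟨⟨he, he'⟩, hlt⟩
    refine (loc_le E hE p hp).trans ?_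
    rw [← Finset.mul_prod_erase _ _ hmem]
    simp only
    rw [if_pos hdvd]
    have h1 : (1:ℝ) ≤ ∏ q ∈ (prs E).erase (e, e'), (if p ∣ q.2 - q.1 then ((1 - 1 / (p:ℝ))⁻¹) ^ (E.card - 1) else 1) := by
      calc (1:ℝ) = ∏ q ∈ (prs E).erase (e, e'), 1 := by simp
        _ ≤ _ := Finset.prod_le_prod (fun _ _ => by norm_num) (fun q hq => hfac q (Finset.mem_of_mem_erase hq))
    have h2 : 0 ≤ ((1 - 1 / (p:ℝ))⁻¹) ^ (E.card - 1) := by
      have := one_le_fac p hp
      positivity
    nlinarith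
  · refine (loc_le_one E p hp h).trans ?_
    calc (1:ℝ) = ∏ q ∈ prs E, 1 := by simp
      _ ≤ _ := Finset.prod_le_prod (fun _ _ => by norm_num) hfac

lemma SP_le_prod (E : Finset ℕ) (hE : E.Nonempty) (y : ℕ) :
    SP (PPy y) E ≤ ∏ q ∈ prs E, (G0 (q.2 - q.1)) ^ (E.card - 1) := by
  rw [SP_eq_prod_loc]
  refine (Finset.prod_le_prod (fun p hp => loc_nonneg E p (PPy_prime y p hp))
    (fun p hp => loc_le_prod E hE p (PPy_prime y p hp))).trans ?_
  rw [Finset.prod_comm]
  apply Finset.prod_le_prod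
  · intro q _
    apply Finset.prod_nonneg
    intro p hp
    have := one_le_fac p (PPy_prime y p hp)
    split_ifs <;> positivity
  · intro q hq
    unfold prs at hq
    rw [Finset.mem_filter] at hq
    have hd : q.2 - q.1 ≠ 0 := by omega
    rw [Finset.prod_ite, Finset.prod_const_one, mul_one]
    unfold G0
    rw [← Finset.prod_pow]
    apply Finset.prod_le_prod_of_subset_of_one_le
    · intro p hp
      rw [Finset.mem_filter] at hp
      rw [Nat.mem_primeFactors]
      exact ⟨PPy_prime y p hp.1, hp.2, hd⟩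
    · intro p hp
      rw [Finset.mem_filter] at hp
      have := one_le_fac p (PPy_prime y p hp.1)
      positivity
    · intro p hp _
      exact one_le_pow₀ (one_le_fac p (Nat.prime_of_mem_primeFactors hp))

lemma one_add_pow_le (M : ℕ) (t : ℝ) (h0 : 0 ≤ t) (h1 : t ≤ 1) : (1 + t) ^ M ≤ 1 + (2 ^ M - 1) * t := by
  induction M with
  | zero => simp
  | succ n ih =>
    have h2 : (1:ℝ) ≤ 2 ^ n := one_le_pow₀ (by norm_num)
    calc (1 + t) ^ (n + 1) = (1 + t) ^ n * (1 + t) := pow_succ _ _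
      _ ≤ (1 + (2 ^ n - 1) * t) * (1 + t) := mul_le_mul_of_nonneg_right ih (by linarith)
      _ ≤ _ := by
          rw [pow_succ]
          nlinarith [mul_nonneg (mul_nonneg (sub_nonneg.mpr h2) h0) (sub_nonneg.mpr h1)]

lemma fac_pow_le (M p : ℕ) (hp : p.Prime) : ((1 - 1 / (p : ℝ))⁻¹) ^ M ≤ 1 + (2 ^ (M + 1)) / p := by
  have hp2 : (2:ℝ) ≤ p := by exact_mod_cast hp.two_le
  have h0 := one_sub_inv_pos p hp
  have h1 : (1 - 1 / (p : ℝ))⁻¹ ≤ 1 + 2 / p := by
    rw [inv_le_comm₀ h0 (by positivity), inv_eq_one_div, div_le_iff₀ (by positivity)]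
    have : (1 - 1 / (p:ℝ)) * (1 + 2 / p) = 1 + (1 / p) * (1 - 2 / p) := by
      field_simp
      ring
    rw [this]
    have h2 : (2:ℝ) / p ≤ 1 := by rw [div_le_one (by linarith)]; exact hp2
    have : 0 ≤ (1 / (p:ℝ)) * (1 - 2 / p) := mul_nonneg (by positivity) (by linarith)
    linarith
  have h2 : (2:ℝ) / p ≤ 1 := by rw [div_le_one (by linarith)]; exact hp2
  calc ((1 - 1 / (p : ℝ))⁻¹) ^ M ≤ (1 + 2 / p) ^ M := pow_le_pow_left₀ (by positivity) h1 M
    _ ≤ 1 + (2 ^ M - 1) * (2 / p) := one_add_pow_le M _ (by positivity) h2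
    _ ≤ 1 + (2 ^ (M + 1)) / p := by
        rw [pow_succ]
        have : (0:ℝ) ≤ 2 / p := by positivity
        have e : (2:ℝ) ^ M * 2 / p = 2 ^ M * (2 / p) := by ring
        rw [e]
        nlinarith

/-- moments of `d / φ(d)` -/
lemma sum_G0_pow_le (M H : ℕ) :
    ∑ d ∈ Finset.Icc 1 H, (G0 d) ^ M ≤ H * Real.exp (2 ^ (M + 1)) := by
  classical
  set a : ℝ := 2 ^ (M + 1) with ha
  have ha0 : 0 < a := by positivity
  have h1 : ∀ d ∈ Finset.Icc 1 H, (G0 d) ^ M ≤ ∑ T ∈ (PPy H).powerset,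
      if T ⊆ d.primeFactors then ∏ p ∈ T, (a / p) else 0 := by
    intro d hd
    rw [Finset.mem_Icc] at hd
    unfold G0
    rw [← Finset.prod_pow]
    calc ∏ p ∈ d.primeFactors, ((1 - 1 / (p : ℝ))⁻¹) ^ M ≤ ∏ p ∈ d.primeFactors, (1 + a / p) := by
          apply Finset.prod_le_prod
          · intro p hp
            have := one_le_fac p (Nat.prime_of_mem_primeFactors hp)
            positivity
          · intro p hp
            exact fac_pow_le M p (Nat.prime_of_mem_primeFactors hp)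
      _ = ∑ T ∈ d.primeFactors.powerset, ∏ p ∈ T, (a / p) := Finset.prod_one_add _
      _ ≤ _ := by
          rw [← Finset.sum_filter]
          apply le_of_eq
          apply Finset.sum_congr _ (fun _ _ => rfl)
          ext T
          rw [Finset.mem_powerset, Finset.mem_filter, Finset.mem_powerset]
          refine ⟨fun h => ⟨fun p hp => ?_, h⟩, fun h => h.2⟩
          unfold PPy
          rw [Finset.mem_filter, Finset.mem_range]
          have h3 := h hp
          have h4 := Nat.le_of_mem_primeFactors h3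
          exact ⟨by omega, Nat.prime_of_mem_primeFactors h3⟩
  refine (Finset.sum_le_sum h1).trans ?_
  rw [Finset.sum_comm]
  have h2 : ∀ T ∈ (PPy H).powerset, ∑ d ∈ Finset.Icc 1 H, (if T ⊆ d.primeFactors then ∏ p ∈ T, (a / p) else 0) ≤
      H * ∏ p ∈ T, (a / (p:ℝ) ^ 2) := by
    intro T hT
    rw [Finset.mem_powerset] at hT
    have hTp : ∀ p ∈ T, p.Prime := fun p hp => PPy_prime H p (hT hp)
    rw [← Finset.sum_filter, Finset.sum_const, nsmul_eq_mul]
    have h3 : ((Finset.Icc 1 H).filter (fun d => T ⊆ d.primeFactors)).card ≤ H / ∏ p ∈ T, p := by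
      have hsub : (Finset.Icc 1 H).filter (fun d => T ⊆ d.primeFactors) ⊆
          (Finset.Ioc 0 H).filter (fun d => (∏ p ∈ T, p) ∣ d) := by
        intro d hd
        rw [Finset.mem_filter, Finset.mem_Icc] at hd
        rw [Finset.mem_filter, Finset.mem_Ioc]
        refine ⟨⟨by omega, hd.1.2⟩, ?_⟩
        exact Finset.prod_primes_dvd d (fun p hp => (hTp p hp).prime)
          (fun p hp => Nat.dvd_of_mem_primeFactors (hd.2 hp))
      refine (Finset.card_le_card hsub).trans ?_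
      rw [Nat.Ioc_filter_dvd_card_eq_div]
    have h4 : (((Finset.Icc 1 H).filter (fun d => T ⊆ d.primeFactors)).card : ℝ) ≤ H / ∏ p ∈ T, (p:ℝ) := by
      calc (((Finset.Icc 1 H).filter (fun d => T ⊆ d.primeFactors)).card : ℝ) ≤ ((H / ∏ p ∈ T, p : ℕ) : ℝ) := by
            exact_mod_cast h3
        _ ≤ (H : ℝ) / ((∏ p ∈ T, p : ℕ) : ℝ) := Nat.cast_div_le
        _ = _ := by push_cast; rfl
    have h5 : 0 ≤ ∏ p ∈ T, (a / (p:ℝ)) := Finset.prod_nonneg (fun p _ => by positivity)
    calc _ ≤ ((H : ℝ) / ∏ p ∈ T, (p:ℝ)) * ∏ p ∈ T, (a / (p:ℝ)) := mul_le_mul_of_nonneg_right h4 h5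
      _ = H * ∏ p ∈ T, (a / (p:ℝ) ^ 2) := by
          rw [Finset.prod_div_distrib, Finset.prod_div_distrib, Finset.prod_pow T 2 (fun p : ℕ => (p:ℝ))]
          have h6 : ∏ p ∈ T, (p:ℝ) ≠ 0 := Finset.prod_ne_zero_iff.mpr (fun p hp => by
            exact_mod_cast (hTp p hp).ne_zero)
          field_simp
  refine (Finset.sum_le_sum h2).trans ?_
  rw [← Finset.mul_sum, ← Finset.prod_one_add]
  apply mul_le_mul_of_nonneg_left _ (by positivity)
  calc ∏ p ∈ PPy H, (1 + a / (p:ℝ) ^ 2) ≤ ∏ p ∈ PPy H, Real.exp (a / (p:ℝ) ^ 2) := by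
        apply Finset.prod_le_prod (fun p _ => by positivity)
        intro p _
        rw [add_comm]
        exact Real.add_one_le_exp _
    _ = Real.exp (∑ p ∈ PPy H, a / (p:ℝ) ^ 2) := by rw [Real.exp_sum]
    _ ≤ Real.exp a := by
        apply Real.exp_le_exp.mpr
        have h3 := sum_inv_sq_gt 1 (le_refl _) (PPy H) (fun p hp => (PPy_prime H p hp).one_lt)
        calc ∑ p ∈ PPy H, a / (p:ℝ) ^ 2 = a * ∑ p ∈ PPy H, 1 / (p:ℝ) ^ 2 := by
              rw [Finset.mul_sum]
              apply Finset.sum_congr rfl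
              intro p _
              ring
          _ ≤ a * (1 / ((1:ℕ) : ℝ)) := mul_le_mul_of_nonneg_left h3 ha0.le
          _ = a := by simp

lemma singularSeries_le_prod (E : Finset ℕ) (hE : E.Nonempty) :
    singularSeries E ≤ Real.exp ((E.card : ℝ) ^ 3) * ∏ q ∈ prs E, (G0 (q.2 - q.1)) ^ (E.card - 1) := by
  set H := max 2 (E.sup id) with hH
  have hH2 : 2 ≤ H := le_max_left _ _
  have hEH : ∀ e ∈ E, e ≤ H := fun e he => le_max_of_le_right (Finset.le_sup (f := id) he)
  have hHr : (2:ℝ) ≤ H := by exact_mod_cast hH2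
  have hlog : 0 < Real.log H := Real.log_pos (by linarith)
  have h1 := singularSeries_le E hE H H hH2 (by omega) hEH
  have h2 := SP_le_prod E hE H
  have h3 : Real.exp ((E.card : ℝ) ^ 3 * Real.log H / (H * Real.log H)) ≤ Real.exp ((E.card : ℝ) ^ 3) := by
    apply Real.exp_le_exp.mpr
    rw [mul_div_mul_right _ _ hlog.ne']
    apply div_le_self (by positivity) (by linarith)
  have h4 : 0 ≤ SP (PPy H) E := SP_nonneg _ (PPy_prime H) E
  calc singularSeries E ≤ SP (PPy H) E * Real.exp ((E.card : ℝ) ^ 3 * Real.log H / (H * Real.log H)) := h1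
    _ ≤ (∏ q ∈ prs E, (G0 (q.2 - q.1)) ^ (E.card - 1)) * Real.exp ((E.card : ℝ) ^ 3) :=
        mul_le_mul h2 h3 (Real.exp_pos _).le (h4.trans h2)
    _ = _ := mul_comm _ _

lemma prod_le_sum_pow {ι : Type*} (T : Finset ι) (hT : T.Nonempty) (f : ι → ℝ) (hf : ∀ i ∈ T, 1 ≤ f i)
    (n : ℕ) (hn : T.card ≤ n) : ∏ i ∈ T, f i ≤ ∑ i ∈ T, (f i) ^ n := by
  obtain ⟨j, hj, hmax⟩ := Finset.exists_max_image T f hT
  calc ∏ i ∈ T, f i ≤ ∏ i ∈ T, f j := Finset.prod_le_prod (fun i hi => by have := hf i hi; linarith) hmax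
    _ = (f j) ^ T.card := by rw [Finset.prod_const]
    _ ≤ (f j) ^ n := pow_le_pow_right₀ (hf j hj) hn
    _ ≤ _ := Finset.single_le_sum (f := fun i => (f i) ^ n) (fun i hi => by
        have := hf i hi
        positivity) hj

/-- second moment of the singular series -/
lemma sum_singularSeries_sq_le (r : ℕ) (hr : 2 ≤ r) : ∃ C : ℝ, 0 < C ∧ ∀ H : ℕ,
    ∑ E ∈ (Finset.range (H + 1)).powersetCard r, (singularSeries E) ^ 2 ≤ C * ((H : ℝ) + 1) ^ r := by
  classical
  set M : ℕ := 2 * (r - 1) * r ^ 2 with hM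
  refine ⟨Real.exp ((r:ℝ) ^ 3) ^ 2 * Real.exp (2 ^ (M + 1)), by positivity, ?_⟩
  intro H
  set R := Finset.range (H + 1) with hR
  have h1 : ∀ E ∈ R.powersetCard r, (singularSeries E) ^ 2 ≤
      Real.exp ((r:ℝ) ^ 3) ^ 2 * ∑ q ∈ prs E, (G0 (q.2 - q.1)) ^ M := by
    intro E hE
    rw [Finset.mem_powersetCard] at hE
    have hEne : E.Nonempty := by rw [← Finset.card_pos]; omega
    have hp : (prs E).Nonempty := by
      obtain ⟨a, ha, b, hb, hab⟩ := Finset.one_lt_card.mp (by omega : 1 < E.card)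
      unfold prs
      rcases Nat.lt_or_gt_of_ne hab with h | h
      · exact ⟨(a, b), Finset.mem_filter.mpr ⟨Finset.mem_product.mpr ⟨ha, hb⟩, h⟩⟩
      · exact ⟨(b, a), Finset.mem_filter.mpr ⟨Finset.mem_product.mpr ⟨hb, ha⟩, h⟩⟩
    have hcard : (prs E).card ≤ r ^ 2 := by
      unfold prs
      refine (Finset.card_filter_le _ _).trans ?_
      rw [Finset.card_product, hE.2, sq]
    have h2 := singularSeries_le_prod E hEne
    rw [hE.2] at h2
    calc (singularSeries E) ^ 2 ≤ (Real.exp ((r : ℝ) ^ 3) * ∏ q ∈ prs E, (G0 (q.2 - q.1)) ^ (r - 1)) ^ 2 :=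
          pow_le_pow_left₀ (by
            have h := (multipliable_loc E).hasProd
            rw [← singularSeries_eq] at h
            unfold HasProd at h
            refine ge_of_tendsto h ?_
            filter_upwards with s
            exact Finset.prod_nonneg (fun p _ => loc_nonneg E p p.2)) h2 2
      _ = Real.exp ((r : ℝ) ^ 3) ^ 2 * ∏ q ∈ prs E, ((G0 (q.2 - q.1)) ^ (2 * (r - 1))) := by
          rw [mul_pow, ← Finset.prod_pow]
          congr 1
          apply Finset.prod_congr rfl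
          intro q _
          rw [← pow_mul, mul_comm (r - 1) 2]
      _ ≤ Real.exp ((r : ℝ) ^ 3) ^ 2 * ∑ q ∈ prs E, ((G0 (q.2 - q.1)) ^ (2 * (r - 1))) ^ (r ^ 2) := by
          apply mul_le_mul_of_nonneg_left _ (by positivity)
          exact prod_le_sum_pow _ hp _ (fun q _ => one_le_pow₀ (one_le_G0 _)) _ hcard
      _ = _ := by
          congr 1
          apply Finset.sum_congr rfl
          intro q _
          rw [← pow_mul]
  refine (Finset.sum_le_sum h1).trans ?_
  rw [← Finset.mul_sum, mul_assoc]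
  apply mul_le_mul_of_nonneg_left _ (by positivity)
  -- double counting
  set f : ℕ × ℕ → ℝ := fun q => (G0 (q.2 - q.1)) ^ M with hf
  have hf0 : ∀ q, 0 ≤ f q := fun q => by
    have := one_le_G0 (q.2 - q.1)
    simp only [hf]; positivity
  have h2 : ∑ E ∈ R.powersetCard r, ∑ q ∈ prs E, f q =
      ∑ q ∈ prs R, ∑ E ∈ R.powersetCard r, if q.1 ∈ E ∧ q.2 ∈ E then f q else 0 := by
    rw [Finset.sum_comm]
    apply Finset.sum_congr rfl
    intro E hE
    rw [Finset.mem_powersetCard] at hE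
    rw [← Finset.sum_filter]
    apply Finset.sum_congr _ (fun _ _ => rfl)
    ext q
    unfold prs
    simp only [Finset.mem_filter, Finset.mem_product]
    constructor
    · rintro ⟨⟨h1, h2⟩, h3⟩
      exact ⟨⟨⟨hE.1 h1, hE.1 h2⟩, h3⟩, h1, h2⟩
    · rintro ⟨⟨_, h3⟩, h1, h2⟩
      exact ⟨⟨h1, h2⟩, h3⟩
  have h3 : ∀ q ∈ prs R, (∑ E ∈ R.powersetCard r, if q.1 ∈ E ∧ q.2 ∈ E then f q else 0) ≤
      ((H:ℝ) + 1) ^ (r - 2) * f q := by
    intro q hq
    unfold prs at hq
    rw [Finset.mem_filter, Finset.mem_product] at hq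
    rw [← Finset.sum_filter, Finset.sum_const, nsmul_eq_mul]
    apply mul_le_mul_of_nonneg_right _ (hf0 q)
    have h4 : ((R.powersetCard r).filter (fun E => q.1 ∈ E ∧ q.2 ∈ E)).card ≤ (R.powersetCard (r - 2)).card := by
      apply Finset.card_le_card_of_injOn (fun E => (E.erase q.1).erase q.2)
      · intro E hE
        rw [Finset.mem_coe, Finset.mem_filter, Finset.mem_powersetCard] at hE
        simp only
        rw [Finset.mem_coe, Finset.mem_powersetCard]
        refine ⟨(Finset.erase_subset _ _).trans ((Finset.erase_subset _ _).trans hE.1.1), ?_⟩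
        rw [Finset.card_erase_of_mem, Finset.card_erase_of_mem hE.2.1, hE.1.2]
        · omega
        · rw [Finset.mem_erase]
          exact ⟨by omega, hE.2.2⟩
      · intro E hE E' hE' hEE
        rw [Finset.mem_coe, Finset.mem_filter] at hE hE'
        simp only at hEE
        have e1 : ∀ F : Finset ℕ, q.1 ∈ F → q.2 ∈ F → insert q.1 (insert q.2 ((F.erase q.1).erase q.2)) = F := by
          intro F h1 h2
          rw [Finset.insert_erase (Finset.mem_erase.mpr ⟨by omega, h2⟩), Finset.insert_erase h1]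
        rw [← e1 E hE.2.1 hE.2.2, hEE, e1 E' hE'.2.1 hE'.2.2]
    have h5 : (R.powersetCard (r - 2)).card ≤ (H + 1) ^ (r - 2) := by
      rw [Finset.card_powersetCard, hR, Finset.card_range]
      exact Nat.choose_le_pow _ _
    exact_mod_cast h4.trans h5
  rw [h2]
  refine (Finset.sum_le_sum h3).trans ?_
  rw [← Finset.mul_sum]
  have h6 : ∑ q ∈ prs R, f q ≤ ((H:ℝ) + 1) * (H * Real.exp (2 ^ (M + 1))) := by
    calc ∑ q ∈ prs R, f q ≤ ∑ q ∈ R ×ˢ Finset.Icc 1 H, (G0 q.2) ^ M := by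
          have hinj : Set.InjOn (fun q : ℕ × ℕ => (q.1, q.2 - q.1)) (prs R : Set (ℕ × ℕ)) := by
            intro q hq q' hq' h
            unfold prs at hq hq'
            rw [Finset.mem_coe, Finset.mem_filter] at hq hq'
            simp only [Prod.mk.injEq] at h
            apply Prod.ext
            · exact h.1
            · omega
          have e : ∑ q ∈ prs R, f q = ∑ q ∈ (prs R).image (fun q : ℕ × ℕ => (q.1, q.2 - q.1)), (G0 q.2) ^ M := by
            rw [Finset.sum_image hinj]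
          rw [e]
          apply Finset.sum_le_sum_of_subset_of_nonneg
          · intro q hq
            rw [Finset.mem_image] at hq
            obtain ⟨q', hq', rfl⟩ := hq
            unfold prs at hq'
            rw [Finset.mem_filter, Finset.mem_product, hR, Finset.mem_range, Finset.mem_range] at hq'
            rw [Finset.mem_product, Finset.mem_Icc, hR, Finset.mem_range]
            simp only
            omega
          · intro q _ _
            have := one_le_G0 q.2
            positivity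
      _ = ∑ a ∈ R, ∑ d ∈ Finset.Icc 1 H, (G0 d) ^ M := by rw [Finset.sum_product]
      _ ≤ ∑ a ∈ R, (H * Real.exp (2 ^ (M + 1))) := Finset.sum_le_sum (fun _ _ => sum_G0_pow_le M H)
      _ = _ := by rw [Finset.sum_const, hR, Finset.card_range, nsmul_eq_mul]; push_cast; ring
  have hH0 : (0:ℝ) ≤ H := by positivity
  calc ((H:ℝ) + 1) ^ (r - 2) * ∑ q ∈ prs R, f q
      ≤ ((H:ℝ) + 1) ^ (r - 2) * (((H:ℝ) + 1) * (H * Real.exp (2 ^ (M + 1)))) :=
        mul_le_mul_of_nonneg_left h6 (by positivity)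
    _ ≤ ((H:ℝ) + 1) ^ (r - 2) * (((H:ℝ) + 1) * (((H:ℝ) + 1) * Real.exp (2 ^ (M + 1)))) := by
        gcongr
        linarith
    _ = Real.exp (2 ^ (M + 1)) * (((H:ℝ) + 1) ^ (r - 2) * ((H:ℝ) + 1) ^ 2) := by ring
    _ = _ := by rw [← pow_add, Nat.sub_add_cancel hr]

end Pool.Agent.HL26
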