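import Mathlib
import Pool.Agent.HL26.SieveA

set_option autoImplicit false

open Finset

namespace Pool.Agent.HL26

lemma exp_le_one_add_two (u : ℝ) (h0 : 0 ≤ u) (h1 : u ≤ 1) : Real.exp u ≤ 1 + 2 * u := by
  have h := Real.abs_exp_sub_one_sub_id_le (x := u) (by rw [abs_of_nonneg h0]; exact h1)
  have h2 := (abs_le.mp h).2
  nlinarith

/-- Rankin's trick: the truncated sum over divisors of the primorial is at least half of the whole -/
lemma rankin (w : ℕ) (hw : 4 ≤ w) (r s : ℕ) (hs : 8 * r + 2 ≤ s) (nf : ℕ → ℝ)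
    (h0 : ∀ p ∈ PPy w, 0 ≤ nf p) (h1 : ∀ p ∈ PPy w, nf p < p) (h2 : ∀ p ∈ PPy w, nf p ≤ r) :
    (1 / 2) * ∏ p ∈ PPy w, (1 + nf p / (p - nf p)) ≤
      ∑ l ∈ (∏ p ∈ PPy w, p).divisors,
        if (l : ℝ) ^ 2 ≤ (w : ℝ) ^ s then ∏ p ∈ l.primeFactors, nf p / (p - nf p) else 0 := by
  classical
  set P := ∏ p ∈ PPy w, p with hP
  set g : ℕ → ℝ := fun p => nf p / (p - nf p) with hg
  have hPpos : 0 < P := Finset.prod_pos (fun p hp => (PPy_prime w p hp).pos)
  have hsq : Squarefree P := Finset.squarefree_prod_of_pairwise_isCoprime (fun p hp q hq hpq => by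
      have := (Nat.coprime_primes (PPy_prime w p hp) (PPy_prime w q hq)).mpr hpq
      simpa [Nat.isCoprime_iff_coprime, Nat.coprime_iff_isRelPrime] using this)
    (fun p hp => (PPy_prime w p hp).squarefree)
  have hpf : P.primeFactors = PPy w := Nat.primeFactors_prod (PPy_prime w)
  have hw0 : (0:ℝ) < w := by exact_mod_cast (by omega : 0 < w)
  have hw4 : (4:ℝ) ≤ w := by exact_mod_cast hw
  have hlogw : 0 < Real.log w := Real.log_pos (by linarith)
  have hg0 : ∀ p ∈ PPy w, 0 ≤ g p := fun p hp =>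
    div_nonneg (h0 p hp) (by have := h1 p hp; linarith)
  set t : ℕ → ℝ := fun p => Real.exp (Real.log p / Real.log w) with ht
  have hsubset : ∀ l ∈ P.divisors, l.primeFactors ⊆ PPy w := by
    intro l hl
    rw [← hpf]
    exact Nat.primeFactors_mono (Nat.dvd_of_mem_divisors hl) hPpos.ne'
  have hterm : ∀ l ∈ P.divisors, (∏ p ∈ l.primeFactors, g p) -
      Real.exp (-(s:ℝ) / 2) * ∏ p ∈ l.primeFactors, (g p * t p) ≤
      if (l : ℝ) ^ 2 ≤ (w : ℝ) ^ s then ∏ p ∈ l.primeFactors, g p else 0 := by
    intro l hl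
    have hgl : 0 ≤ ∏ p ∈ l.primeFactors, g p :=
      Finset.prod_nonneg (fun p hp => hg0 p (hsubset l hl hp))
    rw [Finset.prod_mul_distrib]
    have htl : ∏ p ∈ l.primeFactors, t p = Real.exp (Real.log l / Real.log w) := by
      rw [ht, ← Real.exp_sum, ← Finset.sum_div]
      congr 2
      have hlsq : Squarefree l := hsq.squarefree_of_dvd (Nat.dvd_of_mem_divisors hl)
      rw [← Real.log_prod (fun p hp => by exact_mod_cast (Nat.prime_of_mem_primeFactors hp).ne_zero)]
      rw [← Nat.cast_prod, Nat.prod_primeFactors_of_squarefree hlsq]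
    split_ifs with hc
    · have : 0 ≤ Real.exp (-(s:ℝ) / 2) * ((∏ p ∈ l.primeFactors, g p) * ∏ p ∈ l.primeFactors, t p) := by
        rw [htl]
        positivity
      linarith
    · push Not at hc
      have hl0 : (0:ℝ) < l := by exact_mod_cast Nat.pos_of_mem_divisors hl
      have h3 := Real.log_lt_log (by positivity) hc
      rw [Real.log_pow, Real.log_pow] at h3
      have h4 : (s:ℝ) / 2 ≤ Real.log l / Real.log w := by
        rw [le_div_iff₀ hlogw]
        push_cast at h3
        linarith
      have h5 : 1 ≤ Real.exp (-(s:ℝ) / 2) * ∏ p ∈ l.primeFactors, t p := by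
        rw [htl, ← Real.exp_add]
        apply Real.one_le_exp
        linarith
      nlinarith
  have hsum := Finset.sum_le_sum hterm
  refine le_trans ?_ hsum
  rw [Finset.sum_sub_distrib, ← Finset.mul_sum, hP, sum_divisors_eq_prod w g,
    sum_divisors_eq_prod w (fun p => g p * t p)]
  -- compare the two products
  have hZ : 0 ≤ ∏ p ∈ PPy w, (1 + g p) := Finset.prod_nonneg (fun p hp => by
    have := hg0 p hp; linarith)
  have hcmp : ∏ p ∈ PPy w, (1 + g p * t p) ≤ (∏ p ∈ PPy w, (1 + g p)) * Real.exp (4 * r) := by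
    have hfac : ∀ p ∈ PPy w, 1 + g p * t p ≤ (1 + g p) * Real.exp (2 * r * (Real.log p / p) / Real.log w) := by
      intro p hp
      have hpp := PPy_prime w p hp
      have hp0 : (0:ℝ) < p := by exact_mod_cast hpp.pos
      have hp1 : (1:ℝ) ≤ p := by exact_mod_cast hpp.one_lt.le
      have hpw : (p : ℝ) ≤ w := by
        have : p < w + 1 := Finset.mem_range.mp (Finset.mem_filter.mp hp).1
        exact_mod_cast (by omega : p ≤ w)
      have hlp : 0 ≤ Real.log p := Real.log_nonneg hp1
      have hlpw : Real.log p ≤ Real.log w := Real.log_le_log hp0 hpw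
      have htp : t p ≤ 1 + 2 * (Real.log p / Real.log w) :=
        exp_le_one_add_two _ (by positivity) ((div_le_one hlogw).mpr hlpw)
      have hn1 := h1 p hp
      have hn0 := h0 p hp
      have hn2 := h2 p hp
      have hd : (p : ℝ) - nf p ≠ 0 := by linarith
      have e1 : 1 + g p * t p = (1 + g p) * (1 + nf p / p * (t p - 1)) := by
        simp only [hg]
        field_simp
        ring
      rw [e1]
      apply mul_le_mul_of_nonneg_left _ (by have := hg0 p hp; linarith)
      refine le_trans (by rw [add_comm]) ((Real.add_one_le_exp _).trans (Real.exp_le_exp.mpr ?_))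
      calc nf p / p * (t p - 1) ≤ nf p / p * (2 * (Real.log p / Real.log w)) :=
            mul_le_mul_of_nonneg_left (by linarith) (by positivity)
        _ ≤ r / p * (2 * (Real.log p / Real.log w)) := by
            apply mul_le_mul_of_nonneg_right _ (by positivity)
            exact div_le_div_of_nonneg_right hn2 hp0.le
        _ = _ := by ring
    refine (Finset.prod_le_prod (fun p hp => ?_) hfac).trans ?_
    · have := hg0 p hp
      have : 0 < t p := Real.exp_pos _
      positivity
    · rw [Finset.prod_mul_distrib, ← Real.exp_sum]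
      apply mul_le_mul_of_nonneg_left _ hZ
      apply Real.exp_le_exp.mpr
      rw [← Finset.sum_div, ← Finset.mul_sum, div_le_iff₀ hlogw]
      have h3 := sum_log_div_le w (by omega)
      have h4 : Real.log 4 ≤ Real.log w := Real.log_le_log (by norm_num) hw4
      calc 2 * (r:ℝ) * ∑ p ∈ PPy w, Real.log p / p ≤ 2 * r * (Real.log w + Real.log 4) :=
            mul_le_mul_of_nonneg_left h3 (by positivity)
        _ ≤ 2 * r * (Real.log w + Real.log w) := mul_le_mul_of_nonneg_left (by linarith) (by positivity)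
        _ = _ := by ring
  have hexp : Real.exp (-(s:ℝ) / 2) * Real.exp (4 * r) ≤ 1 / 2 := by
    rw [← Real.exp_add]
    have h3 : -(s:ℝ) / 2 + 4 * r ≤ -1 := by
      have : (8 * (r:ℝ) + 2) ≤ s := by exact_mod_cast hs
      linarith
    refine (Real.exp_le_exp.mpr h3).trans ?_
    rw [Real.exp_neg, inv_eq_one_div]
    apply one_div_le_one_div_of_le (by norm_num)
    have := Real.add_one_le_exp (1:ℝ)
    linarith
  have h6 : Real.exp (-(s:ℝ) / 2) * ∏ p ∈ PPy w, (1 + g p * t p) ≤
      (1 / 2) * ∏ p ∈ PPy w, (1 + g p) := by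
    calc _ ≤ Real.exp (-(s:ℝ) / 2) * ((∏ p ∈ PPy w, (1 + g p)) * Real.exp (4 * r)) :=
          mul_le_mul_of_nonneg_left hcmp (Real.exp_pos _).le
      _ = (Real.exp (-(s:ℝ) / 2) * Real.exp (4 * r)) * ∏ p ∈ PPy w, (1 + g p) := by ring
      _ ≤ _ := mul_le_mul_of_nonneg_right hexp hZ
  linarith

end Pool.Agent.HL26
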