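import Mathlib
import Pool.Agent.HL26.SieveB
import Pool.Agent.Lib.Sieve.Residue

set_option autoImplicit false

open Finset Filter

namespace Pool.Agent.HL26

/-- a uniform positive lower bound for the singular series of an admissible `r`-tuple -/
lemma exists_singularSeries_lower (r : ℕ) : ∃ c : ℝ, 0 < c ∧ ∀ E : Finset ℕ, E.card = r →
    (∀ p : ℕ, p.Prime → nu E p < p) → c ≤ singularSeries E := by
  set y := 2 * r ^ 2 + 1 with hy
  refine ⟨(1 / 2) * ∏ p ∈ PPy y, (1 / (p : ℝ)), ?_, ?_⟩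
  · apply mul_pos (by norm_num)
    apply Finset.prod_pos
    intro p hp
    have : (0:ℝ) < p := by exact_mod_cast (PPy_prime y p hp).pos
    positivity
  · intro E hE hadm
    have h1 := singularSeries_ge E y (by omega)
    have h2 : ∏ p ∈ PPy y, (1 / (p : ℝ)) ≤ SP (PPy y) E := by
      unfold SP
      apply Finset.prod_le_prod
      · intro p _; positivity
      · intro p hp
        have hpp := PPy_prime y p hp
        have hp0 : (0:ℝ) < p := by exact_mod_cast hpp.pos
        have h3 := one_sub_inv_pos p hpp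
        have h4 : 1 ≤ ((1 - 1 / (p:ℝ))⁻¹) ^ E.card := by
          apply one_le_pow₀
          apply (one_le_inv₀ h3).mpr
          have : (0:ℝ) < 1 / p := by positivity
          linarith
        have h5 : 1 / (p:ℝ) ≤ 1 - (nu E p : ℝ) / p := by
          have : (nu E p : ℝ) + 1 ≤ p := by exact_mod_cast hadm p hpp
          rw [le_sub_iff_add_le, ← add_div, div_le_one hp0]
          linarith
        calc 1 / (p:ℝ) = 1 * (1 / p) := by ring
          _ ≤ _ := mul_le_mul h4 h5 (by positivity) (by positivity)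
    have h6 : (1:ℝ) / 2 ≤ 1 - (E.card : ℝ) ^ 2 / (y : ℝ) := by
      rw [hE, hy]
      have : (r : ℝ) ^ 2 / ((2 * r ^ 2 + 1 : ℕ) : ℝ) ≤ 1 / 2 := by
        rw [div_le_div_iff₀ (by positivity) (by norm_num)]
        push_cast
        linarith
      linarith
    have h7 : 0 ≤ SP (PPy y) E := SP_nonneg _ (PPy_prime y) E
    refine le_trans ?_ h1
    exact mul_le_mul h6 h2 (Finset.prod_nonneg (fun p _ => by positivity)) (by linarith)

lemma three_mul_le_four_pow (r : ℕ) (hr : 1 ≤ r) : 3 * r ≤ 4 ^ r := by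
  induction r, hr using Nat.le_induction with
  | base => norm_num
  | succ n hn ih => rw [pow_succ]; omega

lemma pow_omega_le' (r d : ℕ) (hr : 1 ≤ r) (hd : d ≠ 0) :
    (3 * r : ℝ) ^ d.primeFactors.card ≤ (d : ℝ) ^ (2 * r) := by
  have h1 : 2 ^ d.primeFactors.card ≤ d := by
    calc 2 ^ d.primeFactors.card = ∏ p ∈ d.primeFactors, 2 := by rw [Finset.prod_const]
      _ ≤ ∏ p ∈ d.primeFactors, p := Finset.prod_le_prod' (fun p hp => (Nat.prime_of_mem_primeFactors hp).two_le)
      _ ≤ d := Nat.le_of_dvd (Nat.pos_of_ne_zero hd) (Nat.prod_primeFactors_dvd d)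
  have h2 : (3 * r : ℝ) ≤ (2:ℝ) ^ (2 * r) := by
    have := three_mul_le_four_pow r hr
    have h3 : (3 * r : ℝ) ≤ 4 ^ r := by exact_mod_cast this
    rw [pow_mul]; norm_num; exact h3
  calc (3 * r : ℝ) ^ d.primeFactors.card ≤ ((2:ℝ) ^ (2 * r)) ^ d.primeFactors.card :=
        pow_le_pow_left₀ (by positivity) h2 _
    _ = ((2:ℝ) ^ d.primeFactors.card) ^ (2 * r) := by rw [← pow_mul, ← pow_mul, mul_comm]
    _ ≤ (d : ℝ) ^ (2 * r) := pow_le_pow_left₀ (by positivity) (by exact_mod_cast h1) _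

/-- the sieve bound with explicit parameters -/
theorem sieve_explicit (r : ℕ) (hr : 1 ≤ r) (w : ℕ) (hw : 4 ≤ w) (hwr : 2 * r ^ 2 ≤ w) (x : ℝ) (hx : 1 ≤ x)
    (E : Finset ℕ) (hE : E.card = r) (hadm : ∀ p : ℕ, p.Prime → nu E p < p) :
    (tupleCount x E : ℝ) ≤ 4 * (singularSeries E * (x / (Real.log w) ^ r)) + w +
      ((w : ℝ) ^ (8 * r + 2)) ^ (2 * r + 1) := by
  classical
  have hw4 : (4:ℝ) ≤ w := by exact_mod_cast hw
  have hlogw : 0 < Real.log w := Real.log_pos (by linarith)
  have hEne : E.Nonempty := by rw [← Finset.card_pos]; omega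
  set P := ∏ p ∈ PPy w, p with hP
  have hPpos : 0 < P := Finset.prod_pos (fun p hp => (PPy_prime w p hp).pos)
  have hsq : Squarefree P := Finset.squarefree_prod_of_pairwise_isCoprime (fun p hp q hq hpq => by
      have := (Nat.coprime_primes (PPy_prime w p hp) (PPy_prime w q hq)).mpr hpq
      simpa [Nat.isCoprime_iff_coprime, Nat.coprime_iff_isRelPrime] using this)
    (fun p hp => (PPy_prime w p hp).squarefree)
  have hpf : P.primeFactors = PPy w := Nat.primeFactors_prod (PPy_prime w)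
  -- the removed residues
  set Ω : ℕ → Finset ℕ := fun p => (Finset.range p).filter (fun a => ∃ e ∈ E, p ∣ a + e) with hΩ
  have hΩcard : ∀ p ∈ PPy w, (Ω p).card = nu E p := by
    intro p hp
    have hpp := PPy_prime w p hp
    have : Fact p.Prime := ⟨hpp⟩
    have : NeZero p := ⟨hpp.ne_zero⟩
    unfold nu
    symm
    apply Finset.card_bij (fun (z : ZMod p) _ => (-z).val)
    · intro z hz
      rw [Finset.mem_image] at hz
      obtain ⟨e, he, rfl⟩ := hz
      rw [hΩ, Finset.mem_filter, Finset.mem_range]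
      refine ⟨ZMod.val_lt _, e, he, ?_⟩
      rw [← ZMod.natCast_eq_zero_iff]
      push_cast
      rw [ZMod.natCast_zmod_val]
      ring
    · intro a _ b _ hab
      have := ZMod.val_injective p hab
      exact neg_injective this
    · intro a ha
      rw [hΩ, Finset.mem_filter, Finset.mem_range] at ha
      obtain ⟨hlt, e, he, hdvd⟩ := ha
      refine ⟨-(a : ZMod p), ?_, ?_⟩
      · rw [Finset.mem_image]
        refine ⟨e, he, ?_⟩
        rw [← ZMod.natCast_eq_zero_iff] at hdvd
        push_cast at hdvd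
        exact eq_neg_of_add_eq_zero_right hdvd
      · rw [neg_neg, ZMod.val_natCast, Nat.mod_eq_of_lt hlt]
  have hΩsub : ∀ p ∈ P.primeFactors, Ω p ⊆ Finset.range p := fun p _ => Finset.filter_subset _ _
  have hΩ0 : ∀ p ∈ P.primeFactors, 0 < (Ω p).card := by
    intro p hp
    rw [hpf] at hp
    rw [hΩcard p hp]
    exact nu_pos E hEne p
  have hΩ1 : ∀ p ∈ P.primeFactors, (Ω p).card < p := by
    intro p hp
    rw [hpf] at hp
    rw [hΩcard p hp]
    exact hadm p (PPy_prime w p hp)
  set s := 8 * r + 2 with hs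
  set y : ℝ := (w:ℝ) ^ s with hy
  have hy1 : 1 ≤ y := one_le_pow₀ (by linarith)
  have hsel := Pool.Agent.Lib.Sieve.selberg_residue P hsq Ω hΩsub hΩ0 hΩ1 1 ⌊x⌋₊ y hy1
  -- the G-sum
  set nf : ℕ → ℝ := fun p => ((Ω p).card : ℝ) with hnf
  have hG := rankin w hw r s (le_refl _) nf (fun p _ => by positivity)
    (fun p hp => by
      have := hΩ1 p (by rw [hpf]; exact hp)
      simp only [hnf]
      exact_mod_cast this)
    (fun p hp => by
      have h1 := hΩcard p hp
      have h2 := nu_le_card E p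
      simp only [hnf]
      rw [h1]
      exact_mod_cast h2.trans hE.le)
  set G := ∑ l ∈ P.divisors, if (l : ℝ) ^ 2 ≤ y then ∏ p ∈ l.primeFactors, ((Ω p).card : ℝ) / (p - (Ω p).card) else 0 with hGdef
  have hG' : (1 / 2) * ∏ p ∈ PPy w, (1 + nf p / (p - nf p)) ≤ G := hG
  -- Z * SP = L^r
  have hSPpos : 0 < SP (PPy w) E := SP_pos _ (PPy_prime w) E (fun p hp => hadm p (PPy_prime w p hp))
  have hZSP : (∏ p ∈ PPy w, (1 + nf p / (p - nf p))) * SP (PPy w) E =
      (∏ p ∈ PPy w, (1 - 1 / (p : ℝ))⁻¹) ^ r := by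
    unfold SP
    rw [← Finset.prod_mul_distrib, ← Finset.prod_pow]
    apply Finset.prod_congr rfl
    intro p hp
    have hpp := PPy_prime w p hp
    have hp0 : (0:ℝ) < p := by exact_mod_cast hpp.pos
    have h1 : nf p = (nu E p : ℝ) := by simp only [hnf]; rw [hΩcard p hp]
    have h2 : (nu E p : ℝ) < p := by exact_mod_cast hadm p hpp
    have h3 : (p : ℝ) - nu E p ≠ 0 := by linarith
    rw [h1, hE]
    have h4 : (1 + (nu E p : ℝ) / (p - nu E p)) * (1 - (nu E p : ℝ) / p) = 1 := by
      field_simp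
      ring
    calc (1 + (nu E p : ℝ) / (p - nu E p)) * ((1 - 1 / (p:ℝ))⁻¹ ^ r * (1 - (nu E p : ℝ) / p))
        = (1 - 1 / (p:ℝ))⁻¹ ^ r * ((1 + (nu E p : ℝ) / (p - nu E p)) * (1 - (nu E p : ℝ) / p)) := by ring
      _ = _ := by rw [h4, mul_one]
  have hL : Real.log w ≤ ∏ p ∈ PPy w, (1 - 1 / (p : ℝ))⁻¹ := by
    refine le_trans ?_ (log_le_prod w)
    apply Real.log_le_log (by linarith) (by linarith)
  have hLr : (Real.log w) ^ r ≤ (∏ p ∈ PPy w, (1 - 1 / (p : ℝ))⁻¹) ^ r := pow_le_pow_left₀ hlogw.le hL r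
  -- SP ≤ 2 S
  have hSP2 : SP (PPy w) E ≤ 2 * singularSeries E := by
    have h1 := singularSeries_ge E w (by omega)
    have h2 : (1:ℝ) / 2 ≤ 1 - (E.card : ℝ) ^ 2 / (w : ℝ) := by
      rw [hE]
      have : (r : ℝ) ^ 2 / (w : ℝ) ≤ 1 / 2 := by
        rw [div_le_div_iff₀ (by linarith) (by norm_num)]
        have : (2 * (r:ℝ) ^ 2) ≤ w := by exact_mod_cast hwr
        linarith
      linarith
    have h3 := mul_le_mul_of_nonneg_right h2 hSPpos.le
    linarith
  have hSpos : 0 < singularSeries E := singularSeries_pos_of E hadm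
  -- lower bound for G
  have hGlow : (Real.log w) ^ r / (4 * singularSeries E) ≤ G := by
    refine le_trans ?_ hG'
    rw [div_le_iff₀ (by positivity)]
    have hZ0 : 0 ≤ ∏ p ∈ PPy w, (1 + nf p / (p - nf p)) := by
      by_contra hcon
      push Not at hcon
      have h1 := mul_neg_of_neg_of_pos hcon hSPpos
      rw [hZSP] at h1
      have h2 : 0 < (Real.log w) ^ r := by positivity
      linarith
    calc (Real.log w) ^ r ≤ (∏ p ∈ PPy w, (1 + nf p / (p - nf p))) * SP (PPy w) E := by rw [hZSP]; exact hLr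
      _ ≤ (∏ p ∈ PPy w, (1 + nf p / (p - nf p))) * (2 * singularSeries E) := mul_le_mul_of_nonneg_left hSP2 hZ0
      _ = _ := by ring
  have hGpos : 0 < G := lt_of_lt_of_le (by positivity) hGlow
  have hmain : ((⌊x⌋₊ : ℕ) : ℝ) / G ≤ 4 * (singularSeries E * (x / (Real.log w) ^ r)) := by
    have h1 : ((⌊x⌋₊ : ℕ) : ℝ) ≤ x := Nat.floor_le (by linarith)
    calc ((⌊x⌋₊ : ℕ) : ℝ) / G ≤ x / G := div_le_div_of_nonneg_right h1 hGpos.le
      _ ≤ x / ((Real.log w) ^ r / (4 * singularSeries E)) := by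
          apply div_le_div_of_nonneg_left (by linarith) (by positivity) hGlow
      _ = _ := by field_simp
  -- the error term
  have herr : ∑ d ∈ P.divisors, (if (d : ℝ) ≤ y then
      (3 : ℝ) ^ (ArithmeticFunction.cardDistinctFactors d) * ∏ p ∈ d.primeFactors, ((Ω p).card : ℝ) else 0) ≤
      y ^ (2 * r + 1) := by
    have hterm : ∀ d ∈ P.divisors, (if (d : ℝ) ≤ y then
      (3 : ℝ) ^ (ArithmeticFunction.cardDistinctFactors d) * ∏ p ∈ d.primeFactors, ((Ω p).card : ℝ) else 0) ≤
      if (d : ℝ) ≤ y then y ^ (2 * r) else 0 := by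
      intro d hd
      split_ifs with hc
      · have hd0 : d ≠ 0 := (Nat.pos_of_mem_divisors hd).ne'
        have h1 : ArithmeticFunction.cardDistinctFactors d = d.primeFactors.card := by
          rw [ArithmeticFunction.cardDistinctFactors_apply]; rfl
        rw [h1]
        have h2 : ∏ p ∈ d.primeFactors, ((Ω p).card : ℝ) ≤ (r:ℝ) ^ d.primeFactors.card := by
          rw [← Finset.prod_const]
          apply Finset.prod_le_prod (fun p _ => by positivity)
          intro p hp
          have hp' : p ∈ PPy w := by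
            rw [← hpf]
            exact Nat.primeFactors_mono (Nat.dvd_of_mem_divisors hd) hPpos.ne' hp
          rw [hΩcard p hp']
          exact_mod_cast (nu_le_card E p).trans hE.le
        calc (3 : ℝ) ^ d.primeFactors.card * ∏ p ∈ d.primeFactors, ((Ω p).card : ℝ)
            ≤ (3 : ℝ) ^ d.primeFactors.card * (r:ℝ) ^ d.primeFactors.card :=
              mul_le_mul_of_nonneg_left h2 (by positivity)
          _ = (3 * r : ℝ) ^ d.primeFactors.card := by rw [mul_pow]
          _ ≤ (d : ℝ) ^ (2 * r) := pow_omega_le' r d hr hd0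
          _ ≤ y ^ (2 * r) := pow_le_pow_left₀ (by positivity) hc _
      · exact le_refl _
    refine (Finset.sum_le_sum hterm).trans ?_
    rw [← Finset.sum_filter, Finset.sum_const, nsmul_eq_mul, pow_succ']
    apply mul_le_mul_of_nonneg_right _ (by positivity)
    have hsub : P.divisors.filter (fun d : ℕ => (d:ℝ) ≤ y) ⊆ Finset.Ioc 0 ⌊y⌋₊ := by
      intro d hd
      rw [Finset.mem_filter] at hd
      rw [Finset.mem_Ioc]
      exact ⟨Nat.pos_of_mem_divisors hd.1, Nat.le_floor hd.2⟩
    have h1 := Finset.card_le_card hsub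
    rw [Nat.card_Ioc, Nat.sub_zero] at h1
    calc (((P.divisors.filter (fun d : ℕ => (d:ℝ) ≤ y)).card : ℕ) : ℝ) ≤ ((⌊y⌋₊ : ℕ) : ℝ) := by exact_mod_cast h1
      _ ≤ y := Nat.floor_le (by linarith)
  -- the counts
  have hcount : tupleCount x E ≤ w + ((Finset.Ico 1 (1 + ⌊x⌋₊)).filter
      (fun n => ∀ p ∈ P.primeFactors, n % p ∉ Ω p)).card := by
    unfold tupleCount
    have hsub : (Finset.Icc 1 ⌊x⌋₊).filter (fun m => ∀ e ∈ E, Nat.Prime (m + e)) ⊆
        Finset.Icc 1 w ∪ (Finset.Ico 1 (1 + ⌊x⌋₊)).filter (fun n => ∀ p ∈ P.primeFactors, n % p ∉ Ω p) := by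
      intro m hm
      rw [Finset.mem_filter, Finset.mem_Icc] at hm
      rw [Finset.mem_union]
      by_cases hmw : m ≤ w
      · left; rw [Finset.mem_Icc]; exact ⟨hm.1.1, hmw⟩
      · right
        rw [Finset.mem_filter, Finset.mem_Ico]
        refine ⟨⟨hm.1.1, by omega⟩, ?_⟩
        intro p hp hcon
        rw [hpf] at hp
        have hpp := PPy_prime w p hp
        have hpw : p < w + 1 := Finset.mem_range.mp (Finset.mem_filter.mp hp).1
        rw [hΩ, Finset.mem_filter] at hcon
        obtain ⟨_, e, he, hdvd⟩ := hcon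
        have hdvd2 : p ∣ m + e := by
          have h1 : m + e = (m % p + e) + p * (m / p) := by
            have := Nat.mod_add_div m p
            omega
          rw [h1]
          exact dvd_add hdvd (dvd_mul_right _ _)
        have := (Nat.prime_dvd_prime_iff_eq hpp (hm.2 e he)).mp hdvd2
        omega
    refine (Finset.card_le_card hsub).trans ((Finset.card_union_le _ _).trans ?_)
    simp
  have hcount' : (tupleCount x E : ℝ) ≤ w + ((((Finset.Ico 1 (1 + ⌊x⌋₊)).filter
      (fun n : ℕ => ∀ p ∈ P.primeFactors, n % p ∉ Ω p)).card : ℕ) : ℝ) := by exact_mod_cast hcount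
  have hfin := hsel.trans (add_le_add hmain herr)
  linarith

end Pool.Agent.HL26
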