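import Mathlib
import Pool.Agent.HL26.SieveC

set_option autoImplicit false

open Finset Filter

namespace Pool.Agent.HL26

/-- Upper bound sieve, uniform over all admissible `r`-tuples. -/
theorem exists_sieve_bound (r : ℕ) (hr : 1 ≤ r) : ∃ C : ℝ, 0 < C ∧ ∀ᶠ x : ℝ in atTop, ∀ E : Finset ℕ,
    E.card = r → (∀ p : ℕ, p.Prime → nu E p < p) →
      (tupleCount x E : ℝ) ≤ C * (singularSeries E * (x / (Real.log x) ^ r)) := by
  obtain ⟨c, hc, hclow⟩ := exists_singularSeries_lower r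
  set t : ℕ := (8 * r + 2) * (2 * r + 1) with ht
  have ht1 : 1 ≤ t := by rw [ht]; nlinarith
  have htr : (1:ℝ) ≤ t := by exact_mod_cast ht1
  set θ : ℝ := 1 / (2 * t) with hθ
  have hθ0 : 0 < θ := by positivity
  have hθ2 : θ ≤ 1 / 2 := by
    rw [hθ]
    apply one_div_le_one_div_of_le (by norm_num)
    linarith
  have hθt : θ * t = 1 / 2 := by
    rw [hθ]
    field_simp
  refine ⟨4 * (2 / θ) ^ r + 1, by positivity, ?_⟩
  have ev1 : ∀ᶠ x : ℝ in atTop, max 8 (2 * (2 * (r:ℝ) ^ 2 + 1)) ≤ x ^ θ :=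
    (tendsto_rpow_atTop hθ0).eventually_ge_atTop _
  have ev2 : ∀ᶠ x : ℝ in atTop, 2 * Real.log 2 / θ ≤ Real.log x :=
    Real.tendsto_log_atTop.eventually_ge_atTop _
  have ev3 : ∀ᶠ x : ℝ in atTop, (Real.log x) ^ r ≤ (c / 2) * x ^ ((1:ℝ) / 2) := by
    have h := isLittleO_log_rpow_rpow_atTop (r : ℝ) (show (0:ℝ) < 1 / 2 by norm_num)
    filter_upwards [h.bound (show (0:ℝ) < c / 2 by positivity), eventually_ge_atTop 1] with x hx hx1
    have hl : 0 ≤ Real.log x := Real.log_nonneg hx1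
    rw [Real.rpow_natCast, Real.norm_of_nonneg (by positivity), Real.norm_of_nonneg (by positivity)] at hx
    exact hx
  filter_upwards [ev1, ev2, ev3, eventually_ge_atTop 3] with x h1 h2 h3 hx3
  intro E hE hadm
  have hx0 : 0 < x := by linarith
  have hlogx : 0 < Real.log x := Real.log_pos (by linarith)
  set w := ⌊x ^ θ⌋₊ with hw
  have hxθ8 : 8 ≤ x ^ θ := (le_max_left _ _).trans h1
  have hxθr : 2 * (2 * (r:ℝ) ^ 2 + 1) ≤ x ^ θ := (le_max_right _ _).trans h1
  have hwle : (w : ℝ) ≤ x ^ θ := Nat.floor_le (by positivity)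
  have hwge : x ^ θ / 2 ≤ w := by
    have := Nat.lt_floor_add_one (x ^ θ)
    rw [← hw] at this
    linarith
  have hw4 : 4 ≤ w := by
    have : (4:ℝ) ≤ w := by linarith
    exact_mod_cast this
  have hwr : 2 * r ^ 2 ≤ w := by
    have : (2 * (r:ℝ) ^ 2) ≤ w := by linarith
    exact_mod_cast this
  have hmain := sieve_explicit r hr w hw4 hwr x (by linarith) E hE hadm
  have hS : c ≤ singularSeries E := hclow E hE hadm
  have hw0 : (0:ℝ) < w := by have : (4:ℝ) ≤ w := by exact_mod_cast hw4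
                             linarith
  have hlogw : θ / 2 * Real.log x ≤ Real.log w := by
    have e1 : Real.log (x ^ θ / 2) ≤ Real.log w := Real.log_le_log (by positivity) hwge
    rw [Real.log_div (by positivity) (by norm_num), Real.log_rpow hx0] at e1
    rw [div_le_iff₀ hθ0] at h2
    linarith
  have hlw0 : 0 < θ / 2 * Real.log x := by positivity
  have e2 : x / (Real.log w) ^ r ≤ (2 / θ) ^ r * (x / (Real.log x) ^ r) := by
    calc x / (Real.log w) ^ r ≤ x / (θ / 2 * Real.log x) ^ r :=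
          div_le_div_of_nonneg_left hx0.le (by positivity) (pow_le_pow_left₀ hlw0.le hlogw r)
      _ = _ := by
          have hh : (2 / θ) ^ r * (θ / 2) ^ r = 1 := by
            rw [← mul_pow, div_mul_div_comm, mul_comm 2 θ, div_self (by positivity), one_pow]
          have hl : (Real.log x) ^ r ≠ 0 := by positivity
          have hθr : (θ / 2) ^ r ≠ 0 := by positivity
          rw [mul_pow, div_eq_iff (by positivity)]
          calc x = x * 1 := by ring
            _ = x * ((2 / θ) ^ r * (θ / 2) ^ r) := by rw [hh]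
            _ = x * ((2 / θ) ^ r * (θ / 2) ^ r) * ((Real.log x) ^ r / (Real.log x) ^ r) := by
                rw [div_self hl, mul_one]
            _ = _ := by ring
  have e3 : ((w : ℝ) ^ (8 * r + 2)) ^ (2 * r + 1) ≤ x ^ ((1:ℝ) / 2) := by
    rw [← pow_mul, ← ht]
    calc (w : ℝ) ^ t ≤ (x ^ θ) ^ t := pow_le_pow_left₀ hw0.le hwle t
      _ = x ^ ((1:ℝ) / 2) := by rw [← Real.rpow_natCast, ← Real.rpow_mul hx0.le, hθt]
  have e4 : (w : ℝ) ≤ x ^ ((1:ℝ) / 2) := hwle.trans (Real.rpow_le_rpow_of_exponent_le (by linarith) hθ2)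
  have e5 : 2 * x ^ ((1:ℝ) / 2) ≤ singularSeries E * (x / (Real.log x) ^ r) := by
    have e6 : 2 * x ^ ((1:ℝ) / 2) ≤ c * (x / (Real.log x) ^ r) := by
      rw [mul_div_assoc', le_div_iff₀ (by positivity)]
      have e7 : x ^ ((1:ℝ) / 2) * x ^ ((1:ℝ) / 2) = x := by
        rw [← Real.rpow_add hx0]; norm_num
      calc 2 * x ^ ((1:ℝ) / 2) * (Real.log x) ^ r ≤ 2 * x ^ ((1:ℝ) / 2) * ((c / 2) * x ^ ((1:ℝ) / 2)) :=
            mul_le_mul_of_nonneg_left h3 (by positivity)
        _ = c * (x ^ ((1:ℝ) / 2) * x ^ ((1:ℝ) / 2)) := by ring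
        _ = c * x := by rw [e7]
    exact e6.trans (mul_le_mul_of_nonneg_right hS (by positivity))
  have hS0 : 0 ≤ singularSeries E := hc.le.trans hS
  calc (tupleCount x E : ℝ) ≤ 4 * (singularSeries E * (x / (Real.log w) ^ r)) + w +
      ((w : ℝ) ^ (8 * r + 2)) ^ (2 * r + 1) := hmain
    _ ≤ 4 * (singularSeries E * ((2 / θ) ^ r * (x / (Real.log x) ^ r))) + x ^ ((1:ℝ) / 2) + x ^ ((1:ℝ) / 2) := by
        have := mul_le_mul_of_nonneg_left e2 hS0
        linarith
    _ ≤ 4 * (singularSeries E * ((2 / θ) ^ r * (x / (Real.log x) ^ r))) +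
        singularSeries E * (x / (Real.log x) ^ r) := by linarith
    _ = _ := by ring

end Pool.Agent.HL26
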