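import Mathlib
import Pool.Agent.HL26.Degenerate

set_option autoImplicit false

open Finset Filter Topology

namespace Pool.Agent.HL26

/-- weak uniform prime number theorem in arithmetic progressions (lower bound) -/
def PrimesAP (A : ℕ) : Prop := ∀ ε : ℝ, 0 < ε → ∀ᶠ x : ℝ in atTop, ∀ q : ℕ, 0 < q →
  (q : ℝ) ≤ (Real.log x) ^ 2 → ∀ a : ZMod q, IsUnit a →
    (1 - ε) * x / ((Nat.totient q : ℝ) * Real.log x) ≤
      (((Finset.Ioc (max 1 ⌊(Real.log x) ^ A⌋₊) (⌊x⌋₊ - max 1 ⌊(Real.log x) ^ A⌋₊)).filter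
        (fun p : ℕ => p.Prime ∧ (p : ZMod q) = a)).card : ℝ)

lemma tendsto_loglog : Tendsto (fun x : ℝ => Real.log (Real.log x)) atTop atTop :=
  Real.tendsto_log_atTop.comp Real.tendsto_log_atTop

lemma tendsto_y : Tendsto (fun x : ℝ => ⌊Real.log (Real.log x)⌋₊) atTop atTop :=
  tendsto_nat_floor_atTop.comp tendsto_loglog

lemma ev_pow_le (A : ℕ) (δ : ℝ) (hδ : 0 < δ) : ∀ᶠ x : ℝ in atTop, (Real.log x) ^ A ≤ δ * x := by
  have h := (Real.isLittleO_pow_log_id_atTop (n := A)).bound hδ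
  filter_upwards [h, eventually_ge_atTop 1] with x hx hx1
  simp only [id, Real.norm_eq_abs] at hx
  rw [abs_of_nonneg (by linarith : (0:ℝ) ≤ x)] at hx
  exact (le_abs_self _).trans hx

lemma ev_tail (r A : ℕ) (δ : ℝ) (hδ : 0 < δ) : ∀ᶠ x : ℝ in atTop,
    (r : ℝ) ^ 3 * Real.log ((max 1 ⌊(Real.log x) ^ A⌋₊ : ℕ) : ℝ) /
      ((⌊Real.log (Real.log x)⌋₊ : ℝ) * Real.log (⌊Real.log (Real.log x)⌋₊ : ℝ)) ≤ δ := by
  have h1 : Tendsto (fun x : ℝ => Real.log ((⌊Real.log (Real.log x)⌋₊ : ℕ) : ℝ)) atTop atTop :=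
    Real.tendsto_log_atTop.comp (tendsto_natCast_atTop_atTop.comp tendsto_y)
  filter_upwards [h1.eventually_ge_atTop (2 * (r : ℝ) ^ 3 * A / δ + 1), tendsto_loglog.eventually_ge_atTop 2,
    Real.tendsto_log_atTop.eventually_ge_atTop 1] with x hx1 hx2 hx3
  set y := ⌊Real.log (Real.log x)⌋₊ with hy
  have hy2 : 2 ≤ y := by rw [hy]; exact Nat.le_floor (by exact_mod_cast hx2)
  have hyr : (2:ℝ) ≤ y := by exact_mod_cast hy2
  have hlogy : 0 < Real.log y := Real.log_pos (by linarith)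
  have hH : Real.log ((max 1 ⌊(Real.log x) ^ A⌋₊ : ℕ) : ℝ) ≤ A * Real.log (Real.log x) := by
    have hle : ((max 1 ⌊(Real.log x) ^ A⌋₊ : ℕ) : ℝ) ≤ (Real.log x) ^ A := by
      have e1 : (1:ℝ) ≤ (Real.log x) ^ A := one_le_pow₀ hx3
      rw [Nat.cast_max]
      apply max_le
      · simpa using e1
      · exact Nat.floor_le (by positivity)
    have hpos : (0:ℝ) < ((max 1 ⌊(Real.log x) ^ A⌋₊ : ℕ) : ℝ) := by
      have : 0 < max 1 ⌊(Real.log x) ^ A⌋₊ := by omega
      exact_mod_cast this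
    calc _ ≤ Real.log ((Real.log x) ^ A) := Real.log_le_log hpos hle
      _ = _ := Real.log_pow _ _
  have hll : Real.log (Real.log x) ≤ 2 * y := by
    have := (Nat.lt_floor_add_one (Real.log (Real.log x))).le
    rw [← hy] at this
    linarith
  rw [div_le_iff₀ (by positivity)]
  calc (r : ℝ) ^ 3 * Real.log ((max 1 ⌊(Real.log x) ^ A⌋₊ : ℕ) : ℝ)
      ≤ (r : ℝ) ^ 3 * (A * (2 * y)) := by
        apply mul_le_mul_of_nonneg_left _ (by positivity)
        exact hH.trans (mul_le_mul_of_nonneg_left hll (by positivity))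
    _ = (2 * (r : ℝ) ^ 3 * A / δ) * δ * y := by field_simp
    _ ≤ Real.log y * δ * y := by
        apply mul_le_mul_of_nonneg_right _ (by positivity)
        apply mul_le_mul_of_nonneg_right _ hδ.le
        linarith
    _ = δ * (y * Real.log y) := by ring

lemma four_pow_le (x : ℝ) (hx : 1 ≤ Real.log x) (h0 : 0 ≤ Real.log (Real.log x)) :
    (4:ℝ) ^ ⌊Real.log (Real.log x)⌋₊ ≤ (Real.log x) ^ 2 := by
  have h1 : (4:ℝ) ^ ⌊Real.log (Real.log x)⌋₊ = Real.exp (Real.log 4 * (⌊Real.log (Real.log x)⌋₊ : ℝ)) := by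
    rw [mul_comm, Real.exp_nat_mul, Real.exp_log (by norm_num)]
  have h2 : Real.log 4 ≤ 2 := by
    have h : Real.log 4 = 2 * Real.log 2 := by
      rw [show (4:ℝ) = 2 ^ 2 by norm_num, Real.log_pow]; norm_num
    have := Real.log_two_lt_d9
    linarith
  have h3 := Nat.floor_le h0
  have h4 : (0:ℝ) ≤ Real.log 4 := Real.log_nonneg (by norm_num)
  rw [h1]
  calc Real.exp (Real.log 4 * (⌊Real.log (Real.log x)⌋₊ : ℝ)) ≤ Real.exp (2 * Real.log (Real.log x)) := by
        apply Real.exp_le_exp.mpr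
        exact mul_le_mul h2 h3 (by positivity) (by norm_num)
    _ = (Real.log x) ^ 2 := by
        rw [show (2:ℝ) * Real.log (Real.log x) = ((2:ℕ) : ℝ) * Real.log (Real.log x) by norm_num, Real.exp_nat_mul, Real.exp_log (by linarith)]

lemma two_pow_le (x : ℝ) (hx : 1 ≤ Real.log x) (h0 : 0 ≤ Real.log (Real.log x)) :
    (2:ℝ) ^ ⌊Real.log (Real.log x)⌋₊ ≤ Real.log x * Real.exp (-(0.3 * Real.log (Real.log x))) := by
  have h1 : (2:ℝ) ^ ⌊Real.log (Real.log x)⌋₊ = Real.exp (Real.log 2 * (⌊Real.log (Real.log x)⌋₊ : ℝ)) := by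
    rw [mul_comm, Real.exp_nat_mul, Real.exp_log (by norm_num)]
  have h2 : Real.log 2 ≤ 0.7 := by
    have := Real.log_two_lt_d9
    linarith
  have h3 := Nat.floor_le h0
  rw [h1]
  calc Real.exp (Real.log 2 * (⌊Real.log (Real.log x)⌋₊ : ℝ)) ≤ Real.exp (0.7 * Real.log (Real.log x)) := by
        apply Real.exp_le_exp.mpr
        exact mul_le_mul h2 h3 (by positivity) (by norm_num)
    _ = Real.exp (Real.log (Real.log x)) * Real.exp (-(0.3 * Real.log (Real.log x))) := by
        rw [← Real.exp_add]; congr 1; ring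
    _ = _ := by rw [Real.exp_log (by linarith)]

lemma ev_X_ge (k : ℕ) (T : ℝ) : ∀ᶠ x : ℝ in atTop, T ≤ x / (Real.log x) ^ (k + 1) := by
  have hT : (0:ℝ) < 1 / (|T| + 1) := by positivity
  filter_upwards [ev_pow_le (k + 1) (1 / (|T| + 1)) hT, eventually_gt_atTop 0,
    Real.tendsto_log_atTop.eventually_ge_atTop 1] with x hx hx0 hx1
  rw [le_div_iff₀ (by positivity)]
  have h1 : T ≤ |T| + 1 := (le_abs_self T).trans (by linarith)
  have h2 : 0 ≤ (Real.log x) ^ (k + 1) := by positivity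
  calc T * (Real.log x) ^ (k + 1) ≤ (|T| + 1) * (Real.log x) ^ (k + 1) := mul_le_mul_of_nonneg_right h1 h2
    _ ≤ (|T| + 1) * (1 / (|T| + 1) * x) := mul_le_mul_of_nonneg_left hx (by positivity)
    _ = x := by field_simp

/-- the main theorem, for `ε ≤ 1/2`, assuming the weak uniform prime number theorem. -/
theorem main_of_primesAP (hAP : ∀ A, PrimesAP A) (k : ℕ) (hk : 1 ≤ k) (A : ℕ) (ε : ℝ) (hε : 0 < ε)
    (hε2 : ε ≤ 1 / 2) :
    ∃ K : ℝ, ∀ᶠ x : ℝ in atTop, ∀ B : Finset ℕ, (∀ b ∈ B, (b : ℝ) ≤ (Real.log x) ^ A) →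
      K * Real.log x ≤ B.card →
      (1 - ε) * (x / (Real.log x) ^ (k + 1)) *
          ∑ E ∈ B.powersetCard (k + 1), singularSeries (translate0 E) ≤
        ∑ E ∈ B.powersetCard (k + 1), (tupleCount x (translate0 E) : ℝ) ∧
      (1 - ε) * (B.card.choose (k + 1) : ℝ) ≤ ∑ E ∈ B.powersetCard (k + 1), singularSeries (translate0 E) ∧
      ∃ E ∈ B.powersetCard (k + 1), 0 < singularSeries (translate0 E) ∧
        (1 - ε) * (singularSeries (translate0 E) * (x / (Real.log x) ^ (k + 1))) ≤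
          (tupleCount x (translate0 E) : ℝ) := by
  set ε1 : ℝ := ε / (24 * (k + 1)) with hε1
  have hk0 : (0:ℝ) < (k : ℝ) + 1 := by positivity
  have hε1pos : 0 < ε1 := by positivity
  have hε1le : ε1 ≤ 1 := by
    rw [hε1, div_le_one (by positivity)]
    have : (1:ℝ) ≤ k := by exact_mod_cast hk
    linarith
  set K : ℝ := 24 * (k + 1) ^ 2 / ε with hK
  have hKpos : 0 < K := by positivity
  have hK1 : (k : ℝ) + 1 ≤ K := by
    rw [hK, le_div_iff₀ hε]
    nlinarith
  refine ⟨K, ?_⟩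
  have hcoef : 1 - ε / 6 ≤ 1 - (2 * (k : ℝ) + 1) * ε1 - ((k : ℝ) + 1) * k * (1 + ε1) / K := by
    have h1 : (2 * (k : ℝ) + 1) * ε1 ≤ ε / 12 := by
      rw [hε1]
      rw [mul_div_assoc', div_le_div_iff₀ (by positivity) (by norm_num)]
      nlinarith
    have h2 : ((k : ℝ) + 1) * k * (1 + ε1) / K ≤ ε / 12 := by
      rw [hK, div_div_eq_mul_div, div_le_div_iff₀ (by positivity) (by norm_num)]
      have e1 : (k : ℝ) * (1 + ε1) ≤ 2 * (k + 1) := by nlinarith
      have e2 : ((k : ℝ) + 1) * k * (1 + ε1) ≤ 2 * (k + 1) ^ 2 := by nlinarith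
      nlinarith [mul_le_mul_of_nonneg_right e2 hε.le]
    linarith
  have hexp6 : (0:ℝ) < ε / 12 := by positivity
  filter_upwards [hAP A ε1 hε1pos, ev_tail (k + 1) A (ε / 12) hexp6, tendsto_loglog.eventually_ge_atTop 2,
    Real.tendsto_log_atTop.eventually_ge_atTop 1, ev_pow_le 2 ε1 hε1pos, ev_pow_le A (1 / 4) (by norm_num),
    ev_X_ge k (6 * (k + 2) / ε), eventually_ge_atTop 8,
    (tendsto_natCast_atTop_atTop.comp tendsto_y).eventually_ge_atTop (12 * ((k : ℝ) + 1) ^ 2 / ε),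
    tendsto_loglog.eventually_ge_atTop 10] with x hAPx htail hll hlog hx2 hxA hXge hx8 hyge hll10
  intro B hB hM
  set ℓ := Real.log x with hℓ
  set y := ⌊Real.log ℓ⌋₊ with hy
  set H := max 1 ⌊ℓ ^ A⌋₊ with hH
  have hx0 : 0 < x := by linarith
  have hℓ0 : 0 < ℓ := by linarith
  have hy2 : 2 ≤ y := by rw [hy]; exact Nat.le_floor (by exact_mod_cast hll)
  have hB' : ∀ b ∈ B, b ≤ H := by
    intro b hb
    have := hB b hb
    rw [hH]
    exact le_max_of_le_right (Nat.le_floor this)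
  have hHle : (H : ℝ) ≤ x / 4 := by
    rw [hH, Nat.cast_max]
    apply max_le
    · simp only [Nat.cast_one]; linarith
    · exact (Nat.floor_le (by positivity)).trans (by linarith)
  set N1 := ⌊x⌋₊ - H with hN1
  have hfl : x - 1 ≤ ⌊x⌋₊ := by have := (Nat.lt_floor_add_one x).le; linarith
  have hHfl : H ≤ ⌊x⌋₊ := by
    apply Nat.le_floor
    linarith
  have hN1H : N1 + H ≤ ⌊x⌋₊ := by omega
  set P := ∏ p ∈ PPy y, p with hP
  have hPpos : 0 < P := Finset.prod_pos (fun p hp => (PPy_prime y p hp).pos)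
  have hPr : (0:ℝ) < (P : ℝ) := by exact_mod_cast hPpos
  have hP4 : (P : ℝ) ≤ ℓ ^ 2 := by
    have h1 : (P : ℝ) ≤ (4:ℝ) ^ y := by exact_mod_cast prod_PPy_le y
    exact h1.trans (four_pow_le x hlog (by linarith))
  have hstar := hAPx P hPpos hP4
  have hN1' : (N1 : ℝ) / (P : ℝ) + 1 ≤ (1 + ε1) * x / (P : ℝ) := by
    have h1 : (N1 : ℝ) ≤ x := by
      have : N1 ≤ ⌊x⌋₊ := Nat.sub_le _ _
      exact (by exact_mod_cast this : (N1 : ℝ) ≤ (⌊x⌋₊ : ℝ)).trans (Nat.floor_le hx0.le)
    have h2 : (P : ℝ) ≤ ε1 * x := hP4.trans hx2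
    have h3 : (N1 : ℝ) / (P : ℝ) + 1 = (N1 + P) / P := by field_simp
    rw [h3]
    apply div_le_div_of_nonneg_right _ hPr.le
    linarith
  have heng := engine (PPy y) (PPy_prime y) B H N1 hB' k x ℓ ε1 K hx0 hℓ0 hε1pos hKpos hM hstar hN1'
  -- comparison of singular series with truncated singular series
  have hEprop : ∀ E ∈ B.powersetCard (k + 1), E.Nonempty ∧ (∀ e ∈ E, e ≤ H) ∧ E.card = k + 1 := by
    intro E hE
    rw [Finset.mem_powersetCard] at hE
    refine ⟨?_, fun e he => hB' e (hE.1 he), hE.2⟩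
    rw [← Finset.card_pos]; omega
  have hSle : ∀ E ∈ B.powersetCard (k + 1), singularSeries E ≤ (1 + ε / 6) * SP (PPy y) E := by
    intro E hE
    obtain ⟨hne, hle, hcard⟩ := hEprop E hE
    have h1 := singularSeries_le E hne y H hy2 (le_max_left _ _) hle
    refine h1.trans ?_
    rw [mul_comm]
    apply mul_le_mul_of_nonneg_right _ (SP_nonneg _ (PPy_prime y) E)
    rw [hcard]
    have h2 : Real.exp (((k + 1 : ℕ) : ℝ) ^ 3 * Real.log H / (y * Real.log y)) ≤ Real.exp (ε / 12) :=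
      Real.exp_le_exp.mpr htail
    refine h2.trans ?_
    have h3 : Real.exp (ε / 12) ≤ 1 / (1 - ε / 12) := by
      have h4 := Real.add_one_le_exp (-(ε / 12))
      have h5 : Real.exp (ε / 12) = 1 / Real.exp (-(ε / 12)) := by rw [Real.exp_neg]; simp
      rw [h5]
      apply one_div_le_one_div_of_le <;> linarith
    refine h3.trans ?_
    rw [div_le_iff₀ (by linarith)]
    have h4 := mul_le_mul_of_nonneg_left hε2 hε.le
    linarith only [h4, hε]
  have hSge : ∀ E ∈ B.powersetCard (k + 1), (1 - ε / 12) * SP (PPy y) E ≤ singularSeries E := by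
    intro E hE
    obtain ⟨hne, hle, hcard⟩ := hEprop E hE
    have h1 := singularSeries_ge E y (by omega)
    refine le_trans ?_ h1
    apply mul_le_mul_of_nonneg_right _ (SP_nonneg _ (PPy_prime y) E)
    rw [hcard]
    have hyr : (0:ℝ) < y := by exact_mod_cast (by omega : 0 < y)
    have h2 : (((k + 1 : ℕ) : ℝ)) ^ 2 / y ≤ ε / 12 := by
      rw [div_le_iff₀ hyr]
      have h3 : 12 * ((k : ℝ) + 1) ^ 2 / ε ≤ y := hyge
      rw [div_le_iff₀ hε] at h3
      push_cast
      linarith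
    linarith
  set S1 := ∑ E ∈ B.powersetCard (k + 1), SP (PPy y) E with hS1
  have hS1nn : 0 ≤ S1 := Finset.sum_nonneg (fun E _ => SP_nonneg _ (PPy_prime y) E)
  have hSS : ∑ E ∈ B.powersetCard (k + 1), singularSeries (translate0 E)
      = ∑ E ∈ B.powersetCard (k + 1), singularSeries E :=
    Finset.sum_congr rfl (fun E _ => singularSeries_translate0 E)
  rw [hSS]
  set S2 := ∑ E ∈ B.powersetCard (k + 1), singularSeries E with hS2
  have hS2le : S2 ≤ (1 + ε / 6) * S1 := by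
    rw [hS1, hS2, Finset.mul_sum]
    exact Finset.sum_le_sum hSle
  have hS2ge : (1 - ε / 12) * S1 ≤ S2 := by
    rw [hS1, hS2, Finset.mul_sum]
    exact Finset.sum_le_sum hSge
  set X := x / ℓ ^ (k + 1) with hX
  have hXpos : 0 < X := by positivity
  set TC := ∑ E ∈ B.powersetCard (k + 1), (tupleCount x (translate0 E) : ℝ) with hTC
  have hcnt : ∑ E ∈ B.powersetCard (k + 1),
        (((Finset.Icc 1 N1).filter (fun n => ∀ e ∈ E, Nat.Prime (n + e))).card : ℝ) ≤ TC := by
    rw [hTC]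
    apply Finset.sum_le_sum
    intro E hE
    obtain ⟨hne, hle, hcard⟩ := hEprop E hE
    exact_mod_cast count_le_tupleCount E H N1 x hne hle hN1H
  have hmain : (1 - ε / 6) * X * S1 ≤ TC := by
    refine le_trans ?_ (heng.trans hcnt)
    apply mul_le_mul_of_nonneg_right _ hS1nn
    exact mul_le_mul_of_nonneg_right hcoef hXpos.le
  have hmain2 : (1 - ε / 3) * X * S2 ≤ TC := by
    refine le_trans ?_ hmain
    have e1 : (1 - ε / 3) * X * S2 ≤ (1 - ε / 3) * X * ((1 + ε / 6) * S1) := by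
      apply mul_le_mul_of_nonneg_left hS2le
      apply mul_nonneg _ hXpos.le
      linarith
    refine e1.trans ?_
    have e2 : (1 - ε / 3) * X * ((1 + ε / 6) * S1) = ((1 - ε / 3) * (1 + ε / 6)) * (X * S1) := by ring
    have e3 : (1 - ε / 6) * X * S1 = (1 - ε / 6) * (X * S1) := by ring
    rw [e2, e3]
    apply mul_le_mul_of_nonneg_right _ (by positivity)
    linarith only [mul_self_nonneg ε]
  -- lower bound for the mean value of the singular series
  have hM0 : 0 < (B.card : ℝ) := lt_of_lt_of_le (by positivity) hM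
  set w : ℝ := (B.card : ℝ) * (Nat.totient P : ℝ) / (P : ℝ) with hw
  have hφpos : (0:ℝ) < (Nat.totient P : ℝ) := by exact_mod_cast Nat.totient_pos.mpr hPpos
  have hwpos : 0 < w := by positivity
  have hwge : 12 * ((k : ℝ) + 1) ^ 2 / ε ≤ w := by
    have h1 : (P : ℝ) ≤ (2:ℝ) ^ y * (Nat.totient P : ℝ) := ratio_le y
    have h2 : (2:ℝ) ^ y ≤ ℓ * Real.exp (-(0.3 * Real.log ℓ)) := two_pow_le x hlog (by linarith)
    have h3 : (B.card : ℝ) / (2:ℝ) ^ y ≤ w := by
      rw [hw, div_le_div_iff₀ (by positivity) hPr]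
      have h4 := mul_le_mul_of_nonneg_left h1 hM0.le
      linarith only [h4]
    refine le_trans ?_ h3
    have h4 : K ≤ (B.card : ℝ) / (2:ℝ) ^ y := by
      rw [le_div_iff₀ (by positivity)]
      have h5 : Real.exp (-(0.3 * Real.log ℓ)) ≤ 1 := by
        rw [Real.exp_le_one_iff]; linarith
      calc K * (2:ℝ) ^ y ≤ K * ℓ := by
            apply mul_le_mul_of_nonneg_left _ hKpos.le
            refine h2.trans ?_
            exact mul_le_of_le_one_right hℓ0.le h5
        _ ≤ _ := hM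
    refine le_trans ?_ h4
    rw [hK]
    apply div_le_div_of_nonneg_right _ hε.le
    linarith only [sq_nonneg ((k : ℝ) + 1)]
  have hSPge := sum_SP_ge (PPy y) (PPy_prime y) B k w hwpos rfl
  have hS1ge : (1 - ε / 12) * (B.card.choose (k + 1) : ℝ) ≤ S1 := by
    refine le_trans ?_ hSPge
    apply mul_le_mul_of_nonneg_right _ (by positivity)
    have h1 : ((k : ℝ) + 1) * k / w ≤ ε / 12 := by
      rw [div_le_iff₀ hwpos]
      rw [div_le_iff₀ hε] at hwge
      linarith only [hwge, hk0]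
    linarith
  have hS2C : (1 - ε / 6) * (B.card.choose (k + 1) : ℝ) ≤ S2 := by
    refine le_trans ?_ hS2ge
    have h1 : (1 - ε / 12) * ((1 - ε / 12) * (B.card.choose (k + 1) : ℝ)) ≤ (1 - ε / 12) * S1 :=
      mul_le_mul_of_nonneg_left hS1ge (by linarith)
    refine le_trans ?_ h1
    rw [← mul_assoc]
    apply mul_le_mul_of_nonneg_right _ (by positivity)
    linarith only [sq_nonneg (ε / 12)]
  have hCpos : 1 ≤ (B.card.choose (k + 1) : ℝ) := by
    have h1 : k + 1 ≤ B.card := by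
      have : ((k + 1 : ℕ) : ℝ) ≤ B.card := by
        push_cast
        calc (k : ℝ) + 1 ≤ K := hK1
          _ ≤ K * ℓ := le_mul_of_one_le_right hKpos.le hlog
          _ ≤ _ := hM
      exact_mod_cast this
    exact_mod_cast Nat.choose_pos h1
  have hS2pos : 0 < S2 := by
    refine lt_of_lt_of_le ?_ hS2C
    have : 0 < 1 - ε / 6 := by linarith
    exact mul_pos this (lt_of_lt_of_le one_pos hCpos)
  refine ⟨?_, ?_, ?_⟩
  · refine le_trans ?_ hmain2
    apply mul_le_mul_of_nonneg_right _ hS2pos.le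
    apply mul_le_mul_of_nonneg_right _ hXpos.le
    linarith
  · refine le_trans ?_ hS2C
    apply mul_le_mul_of_nonneg_right _ (by positivity)
    linarith
  · by_contra hcon
    push Not at hcon
    have hub : TC ≤ ∑ E ∈ B.powersetCard (k + 1), ((1 - ε) * (singularSeries E * X) + (k + 1)) := by
      rw [hTC]
      apply Finset.sum_le_sum
      intro E hE
      obtain ⟨hne, hle, hcard⟩ := hEprop E hE
      rcases (singularSeries_nonneg (translate0 E)).lt_or_eq with h1 | h1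
      · have h2 := (hcon E hE h1).le
        rw [singularSeries_translate0] at h2
        have : (0:ℝ) ≤ (k:ℝ) + 1 := by positivity
        linarith
      · have h2 := tupleCount_le_of_zero (translate0 E) h1.symm x
        rw [card_translate0, hcard] at h2
        have h3 : (tupleCount x (translate0 E) : ℝ) ≤ (k : ℝ) + 1 := by exact_mod_cast h2
        have h4 : 0 ≤ (1 - ε) * (singularSeries E * X) := by
          apply mul_nonneg (by linarith)
          exact mul_nonneg (singularSeries_nonneg E) hXpos.le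
        linarith
    rw [Finset.sum_add_distrib, ← Finset.mul_sum, ← Finset.sum_mul, Finset.sum_const, Finset.card_powersetCard, nsmul_eq_mul] at hub
    have h1 := hmain2.trans hub
    have h2 : (B.card.choose (k + 1) : ℝ) ≤ 2 * S2 := by
      have : (1 - ε / 6) * (B.card.choose (k + 1) : ℝ) ≥ (1 / 2) * (B.card.choose (k + 1) : ℝ) := by
        apply mul_le_mul_of_nonneg_right _ (by positivity)
        linarith
      linarith
    have h3 : (2 * ε / 3) * X * S2 ≤ 2 * (k + 1) * S2 := by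
      have e1 : (B.card.choose (k + 1) : ℝ) * ((k : ℝ) + 1) ≤ 2 * S2 * (k + 1) :=
        mul_le_mul_of_nonneg_right h2 hk0.le
      have e2 : (1 - ε / 3) * X * S2 - (1 - ε) * (S2 * X) = (2 * ε / 3) * X * S2 := by ring
      linarith
    have h4 : (2 * ε / 3) * X ≤ 2 * (k + 1) := le_of_mul_le_mul_right h3 hS2pos
    have h5 : 6 * (k + 2) / ε ≤ X := hXge
    rw [div_le_iff₀ hε] at h5
    linarith only [h4, h5, hk0]

end Pool.Agent.HL26
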