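import Mathlib
import Pool.Agent.HL26.Main
import Pool.Agent.Lib.ANT.SW

set_option autoImplicit false

open Finset Filter Topology

namespace Pool.Agent.HL26

theorem primesAP (A : ℕ) : PrimesAP A := by
  intro ε hε
  obtain ⟨C, hC, hpi⟩ := Pool.Agent.ANT.pi_ap_lower 5 (ε := 1) one_pos
  filter_upwards [eventually_ge_atTop 3, Real.tendsto_log_atTop.eventually_ge_atTop 1,
    Real.tendsto_log_atTop.eventually_ge_atTop (2 * C / ε), ev_pow_le (A + 3) (ε / 8) (by positivity),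
    ev_pow_le 3 (ε / 8) (by positivity)] with x hx3 hlog1 hlogC hA h3
  intro q hq hqle a ha
  have : NeZero q := ⟨hq.ne'⟩
  have h := hpi q a ha x hx3
  set ℓ := Real.log x with hℓ
  have hx0 : 0 < x := by linarith
  have hℓ0 : 0 < ℓ := by linarith
  set H := max 1 ⌊ℓ ^ A⌋₊ with hH
  have hφ : (0:ℝ) < (Nat.totient q : ℝ) := by exact_mod_cast Nat.totient_pos.mpr hq
  have hφle : (Nat.totient q : ℝ) ≤ ℓ ^ 2 := by
    have : (Nat.totient q : ℝ) ≤ q := by exact_mod_cast Nat.totient_le q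
    linarith
  -- counting
  have hsub : (Finset.Icc 1 ⌊x⌋₊).filter (fun p : ℕ => p.Prime ∧ (p : ZMod q) = a) ⊆
      ((Finset.Ioc H (⌊x⌋₊ - H)).filter (fun p : ℕ => p.Prime ∧ (p : ZMod q) = a)) ∪
        (Finset.Icc 1 H ∪ Finset.Ioc (⌊x⌋₊ - H) ⌊x⌋₊) := by
    intro p hp
    rw [Finset.mem_filter, Finset.mem_Icc] at hp
    rw [Finset.mem_union, Finset.mem_union, Finset.mem_filter, Finset.mem_Ioc, Finset.mem_Icc, Finset.mem_Ioc]
    by_cases h1 : p ≤ H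
    · right; left; exact ⟨hp.1.1, h1⟩
    · by_cases h2 : p ≤ ⌊x⌋₊ - H
      · left; exact ⟨⟨by omega, h2⟩, hp.2⟩
      · right; right; exact ⟨by omega, hp.1.2⟩
  have hcard := (Finset.card_le_card hsub).trans (Finset.card_union_le _ _)
  have hcard2 : (Finset.Icc 1 H ∪ Finset.Ioc (⌊x⌋₊ - H) ⌊x⌋₊).card ≤ 2 * H := by
    refine (Finset.card_union_le _ _).trans ?_
    simp only [Nat.card_Icc, Nat.card_Ioc]
    omega
  have hcard3 : (((Finset.Icc 1 ⌊x⌋₊).filter (fun p : ℕ => p.Prime ∧ (p : ZMod q) = a)).card : ℝ) ≤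
      (((Finset.Ioc H (⌊x⌋₊ - H)).filter (fun p : ℕ => p.Prime ∧ (p : ZMod q) = a)).card : ℝ) + 2 * H := by
    have : ((Finset.Icc 1 ⌊x⌋₊).filter (fun p : ℕ => p.Prime ∧ (p : ZMod q) = a)).card ≤
      ((Finset.Ioc H (⌊x⌋₊ - H)).filter (fun p : ℕ => p.Prime ∧ (p : ZMod q) = a)).card + 2 * H := by omega
    exact_mod_cast this
  -- bounds
  have hHle : (H : ℝ) ≤ ℓ ^ A := by
    have e1 : (1:ℝ) ≤ ℓ ^ A := one_le_pow₀ hlog1
    rw [hH, Nat.cast_max]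
    apply max_le
    · simpa using e1
    · exact Nat.floor_le (by positivity)
  have hb1 : C * (q:ℝ) ^ (1:ℝ) * x / ℓ ^ (5 + 1) ≤ (ε / 2) * x / ((Nat.totient q : ℝ) * ℓ) := by
    rw [Real.rpow_one]
    rw [div_le_div_iff₀ (by positivity) (by positivity)]
    have e1 : C ≤ (ε / 2) * ℓ := by
      rw [div_le_iff₀ hε] at hlogC
      linarith
    calc C * q * x * ((Nat.totient q : ℝ) * ℓ) ≤ ((ε / 2) * ℓ) * (ℓ ^ 2) * x * (ℓ ^ 2 * ℓ) := by
          gcongr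
      _ = (ε / 2) * x * ℓ ^ (5 + 1) := by ring
  have hb2 : 2 * (H : ℝ) ≤ (ε / 2) * x / ((Nat.totient q : ℝ) * ℓ) := by
    rw [le_div_iff₀ (by positivity)]
    calc 2 * (H : ℝ) * ((Nat.totient q : ℝ) * ℓ) ≤ 2 * (ℓ ^ A) * (ℓ ^ 2 * ℓ) := by gcongr
      _ = 2 * ℓ ^ (A + 3) := by ring
      _ ≤ 2 * (ε / 8 * x) := by linarith
      _ ≤ (ε / 2) * x := by nlinarith
  have hfin : (1 - ε) * x / ((Nat.totient q : ℝ) * ℓ) = x / ((Nat.totient q : ℝ) * ℓ) - (ε / 2) * x / ((Nat.totient q : ℝ) * ℓ) - (ε / 2) * x / ((Nat.totient q : ℝ) * ℓ) := by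
    ring
  rw [hfin]
  linarith

end Pool.Agent.HL26
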