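import Mathlib
import Pool.Agent.HL26.SieveD
import Pool.Agent.HL26.Second
import Pool.Agent.HL26.AP

set_option autoImplicit false

open Finset Filter

namespace Pool.Agent.HL26

open Classical in
lemma good_mass {ι : Type*} (F : Finset ι) (S cnt : ι → ℝ) (X C r ε η : ℝ) (hX : 0 < X)
    (hS : ∀ i ∈ F, 0 ≤ S i) (h0 : ∀ i ∈ F, S i = 0 → cnt i ≤ r) (hC0 : 0 ≤ C)
    (hC : ∀ i ∈ F, 0 < S i → cnt i ≤ C * (S i * X)) (hr : 0 ≤ r) (hε1 : ε ≤ 1)
    (hlow : (1 - η) * X * ∑ i ∈ F, S i ≤ ∑ i ∈ F, cnt i) :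
    (ε - η) * ∑ i ∈ F, S i - (r / X) * F.card ≤
      C * ∑ i ∈ F.filter (fun i => 0 < S i ∧ (1 - ε) * (S i * X) ≤ cnt i), S i := by
  have hpt : ∀ i ∈ F, cnt i ≤ C * X * (if 0 < S i ∧ (1 - ε) * (S i * X) ≤ cnt i then S i else 0) +
      (1 - ε) * X * S i + r := by
    intro i hi
    have hSi := hS i hi
    have h1 : 0 ≤ (1 - ε) * X * S i := mul_nonneg (mul_nonneg (by linarith) hX.le) hSi
    rcases hSi.lt_or_eq with hpos | hz
    · split_ifs with hg
      · have := hC i hi hpos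
        nlinarith
      · push Not at hg
        have := hg hpos
        nlinarith
    · rw [← hz]
      simp only [lt_irrefl, false_and, if_false]
      have := h0 i hi hz.symm
      linarith
  have hsum := Finset.sum_le_sum hpt
  rw [Finset.sum_add_distrib, Finset.sum_add_distrib, ← Finset.mul_sum, ← Finset.mul_sum, Finset.sum_const,
    nsmul_eq_mul, ← Finset.sum_filter] at hsum
  set G := ∑ i ∈ F.filter (fun i => 0 < S i ∧ (1 - ε) * (S i * X) ≤ cnt i), S i with hG
  set T := ∑ i ∈ F, S i with hT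
  have h2 : (ε - η) * X * T ≤ C * X * G + F.card * r := by nlinarith
  have h3 : X * ((ε - η) * T - (r / X) * F.card) ≤ X * (C * G) := by
    have e1 : X * ((ε - η) * T - (r / X) * F.card) = (ε - η) * X * T - F.card * r := by
      field_simp
    rw [e1]
    linarith
  exact le_of_mul_le_mul_left h3 hX

open Classical in
lemma under_mass {ι : Type*} (F : Finset ι) (S cnt : ι → ℝ) (X C r ε δ η : ℝ) (hX : 0 < X)
    (hS : ∀ i ∈ F, 0 ≤ S i) (h0 : ∀ i ∈ F, S i = 0 → cnt i ≤ r) (hC0 : 0 ≤ C)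
    (hC : ∀ i ∈ F, 0 < S i → cnt i ≤ C * (S i * X)) (hr : 0 ≤ r) (hδ : 0 ≤ δ) (hε : 0 ≤ ε)
    (hlow : (1 - η) * X * ∑ i ∈ F, S i ≤ ∑ i ∈ F, cnt i) :
    ε * ∑ i ∈ F.filter (fun i => 0 < S i ∧ cnt i < (1 - ε) * (S i * X)), S i ≤
      (δ + η) * ∑ i ∈ F, S i + C * ∑ i ∈ F.filter (fun i => 0 < S i ∧ (1 + δ) * (S i * X) < cnt i), S i +
        (r / X) * F.card := by
  have hpt : ∀ i ∈ F, cnt i ≤ C * X * (if 0 < S i ∧ (1 + δ) * (S i * X) < cnt i then S i else 0) +
      (1 + δ) * X * S i - ε * X * (if 0 < S i ∧ cnt i < (1 - ε) * (S i * X) then S i else 0) + r := by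
    intro i hi
    have hSi := hS i hi
    rcases hSi.lt_or_eq with hpos | hz
    · have hSX : 0 < S i * X := mul_pos hpos hX
      have hCi := hC i hi hpos
      by_cases hP : 0 < S i ∧ (1 + δ) * (S i * X) < cnt i
      · have hQ : ¬ (0 < S i ∧ cnt i < (1 - ε) * (S i * X)) := by
          rintro ⟨_, h2⟩
          have := hP.2
          nlinarith
        rw [if_pos hP, if_neg hQ]
        nlinarith
      · rw [if_neg hP]
        push Not at hP
        have h1 := hP hpos
        by_cases hQ : 0 < S i ∧ cnt i < (1 - ε) * (S i * X)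
        · rw [if_pos hQ]
          have := hQ.2
          nlinarith
        · rw [if_neg hQ]
          nlinarith
    · rw [← hz]
      simp only [lt_irrefl, false_and, if_false]
      have := h0 i hi hz.symm
      linarith
  have hsum := Finset.sum_le_sum hpt
  rw [Finset.sum_add_distrib, Finset.sum_sub_distrib, Finset.sum_add_distrib, ← Finset.mul_sum, ← Finset.mul_sum,
    ← Finset.mul_sum, Finset.sum_const,
    nsmul_eq_mul, ← Finset.sum_filter, ← Finset.sum_filter] at hsum
  set P := ∑ i ∈ F.filter (fun i => 0 < S i ∧ (1 + δ) * (S i * X) < cnt i), S i with hP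
  set Q := ∑ i ∈ F.filter (fun i => 0 < S i ∧ cnt i < (1 - ε) * (S i * X)), S i with hQ
  set T := ∑ i ∈ F, S i with hT
  have h2 : ε * X * Q ≤ (δ + η) * X * T + C * X * P + F.card * r := by nlinarith
  have h3 : X * (ε * Q) ≤ X * ((δ + η) * T + C * P + (r / X) * F.card) := by
    have e1 : X * ((δ + η) * T + C * P + (r / X) * F.card) = (δ + η) * X * T + C * X * P + F.card * r := by
      field_simp
    rw [e1]
    linarith
  exact le_of_mul_le_mul_left h3 hX

/-- everything we know about the subsets of a set `B` with at least `K log x` elements -/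
lemma basic_facts (k : ℕ) (hk : 1 ≤ k) : ∃ C : ℝ, 0 < C ∧ ∀ A : ℕ, ∀ η : ℝ, 0 < η → η ≤ 1 / 2 →
    ∃ K : ℝ, ∀ᶠ x : ℝ in atTop,
      (0 < x / (Real.log x) ^ (k + 1)) ∧
      (((k + 1 : ℕ) : ℝ) / (x / (Real.log x) ^ (k + 1)) ≤ η) ∧
      ∀ B : Finset ℕ, (∀ b ∈ B, (b : ℝ) ≤ (Real.log x) ^ A) →
      K * Real.log x ≤ B.card →
      (1 - η) * (x / (Real.log x) ^ (k + 1)) *
          ∑ E ∈ B.powersetCard (k + 1), singularSeries (translate0 E) ≤
        ∑ E ∈ B.powersetCard (k + 1), (tupleCount x (translate0 E) : ℝ) ∧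
      (1 - η) * (B.card.choose (k + 1) : ℝ) ≤ ∑ E ∈ B.powersetCard (k + 1), singularSeries (translate0 E) ∧
      (∀ E ∈ B.powersetCard (k + 1), 0 ≤ singularSeries (translate0 E)) ∧
      (∀ E ∈ B.powersetCard (k + 1), singularSeries (translate0 E) = 0 →
        (tupleCount x (translate0 E) : ℝ) ≤ ((k + 1 : ℕ) : ℝ)) ∧
      (∀ E ∈ B.powersetCard (k + 1), 0 < singularSeries (translate0 E) →
        (tupleCount x (translate0 E) : ℝ) ≤
          C * (singularSeries (translate0 E) * (x / (Real.log x) ^ (k + 1)))) := by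
  obtain ⟨C, hC, hev⟩ := exists_sieve_bound (k + 1) (by omega)
  refine ⟨C, hC, ?_⟩
  intro A η hη hη2
  obtain ⟨K, hK⟩ := main_of_primesAP primesAP k hk A η hη hη2
  refine ⟨K, ?_⟩
  filter_upwards [hK, hev, ev_X_ge k (((k + 1 : ℕ) : ℝ) / η), eventually_ge_atTop 3] with x h1 h2 h3 hx3
  have hlog : 0 < Real.log x := Real.log_pos (by linarith)
  have hX : 0 < x / (Real.log x) ^ (k + 1) := by
    have : 0 < x := by linarith
    positivity
  refine ⟨hX, ?_, ?_⟩
  · rw [div_le_iff₀ hX]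
    rw [div_le_iff₀ hη] at h3
    linarith
  · intro B hB hM
    obtain ⟨ha, hb, _⟩ := h1 B hB hM
    refine ⟨ha, hb, fun E _ => singularSeries_nonneg _, ?_, ?_⟩
    · intro E hE hz
      have h4 := tupleCount_le_of_zero _ hz x
      rw [card_translate0, (Finset.mem_powersetCard.mp hE).2] at h4
      exact_mod_cast h4
    · intro E hE hpos
      exact h2 (translate0 E) (by rw [card_translate0, (Finset.mem_powersetCard.mp hE).2])
        (fun p hp => admissible_of_pos _ hpos p hp)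

end Pool.Agent.HL26
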