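import Mathlib
import Pool.Agent.HL26.Degenerate

set_option autoImplicit false

open Finset Filter

namespace Pool.Agent.HL26

lemma translate0_insert_shift (D : Finset ℕ) (a : ℕ) :
    translate0 ((insert 0 D).image (fun d => d + a)) = insert 0 D := by
  have hne : ((insert 0 D).image (fun d => d + a)).Nonempty := (Finset.insert_nonempty _ _).image _
  have hinf : sInf (((insert 0 D).image (fun d => d + a) : Finset ℕ) : Set ℕ) = a := by
    apply le_antisymm
    · apply sInf_le_of_mem
      rw [Finset.mem_image]
      exact ⟨0, Finset.mem_insert_self _ _, by simp⟩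
    · have := sInf_mem_of_nonempty _ hne
      rw [Finset.mem_image] at this
      obtain ⟨d, _, hd⟩ := this
      omega
  unfold translate0
  rw [hinf, Finset.image_image]
  ext z
  simp [Function.comp]

open Classical in
/-- from tuples in an interval to their translates -/
lemma card_le_mul (k H : ℕ) (Pd : Finset ℕ → Prop) :
    ((((Finset.range (H + 1)).powersetCard (k + 1)).filter
      (fun E => 0 < singularSeries (translate0 E) ∧ Pd (translate0 E))).card) ≤
    (H + 1) * (((Finset.Icc 2 H).powersetCard k).filter
      (fun D => (∀ p : ℕ, p.Prime → nu (insert 0 D) p < p) ∧ Pd (insert 0 D))).card := by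
  set T := ((Finset.Icc 2 H).powersetCard k).filter
      (fun D => (∀ p : ℕ, p.Prime → nu (insert 0 D) p < p) ∧ Pd (insert 0 D)) with hT
  have h : ((((Finset.range (H + 1)).powersetCard (k + 1)).filter
      (fun E => 0 < singularSeries (translate0 E) ∧ Pd (translate0 E))).card) ≤
      (Finset.range (H + 1) ×ˢ T).card := by
    apply Finset.card_le_card_of_injOn (fun E : Finset ℕ => (sInf (E : Set ℕ), (translate0 E).erase 0))
    · intro E hE
      rw [Finset.mem_coe, Finset.mem_filter, Finset.mem_powersetCard] at hE
      obtain ⟨⟨hsub, hcard⟩, hpos, hPd⟩ := hE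
      have hne : E.Nonempty := by rw [← Finset.card_pos]; omega
      have h0 := zero_mem_translate0 E hne
      rw [Finset.mem_coe, Finset.mem_product]
      refine ⟨hsub (sInf_mem_of_nonempty E hne), ?_⟩
      simp only
      rw [hT, Finset.mem_filter, Finset.mem_powersetCard, Finset.insert_erase h0]
      refine ⟨⟨?_, ?_⟩, fun p hp => admissible_of_pos _ hpos p hp, hPd⟩
      · intro d hd
        rw [Finset.mem_erase] at hd
        rw [Finset.mem_Icc]
        refine ⟨two_le_of_mem _ h0 hpos d hd.2 hd.1, ?_⟩
        have hd2 := hd.2
        unfold translate0 at hd2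
        rw [Finset.mem_image] at hd2
        obtain ⟨e, he, rfl⟩ := hd2
        have := Finset.mem_range.mp (hsub he)
        omega
      · rw [Finset.card_erase_of_mem h0, card_translate0, hcard]; rfl
    · intro E hE E' hE' hEE
      rw [Finset.mem_coe, Finset.mem_filter, Finset.mem_powersetCard] at hE hE'
      have hne : E.Nonempty := by rw [← Finset.card_pos]; omega
      have hne' : E'.Nonempty := by rw [← Finset.card_pos]; omega
      simp only [Prod.mk.injEq] at hEE
      obtain ⟨h1, h2⟩ := hEE
      have h3 : translate0 E = translate0 E' := by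
        rw [← Finset.insert_erase (zero_mem_translate0 E hne), h2,
          Finset.insert_erase (zero_mem_translate0 E' hne')]
      rw [← translate0_add E, ← translate0_add E', h1, h3]
  rw [Finset.card_product, Finset.card_range] at h
  exact h

open Classical in
/-- from tuples `{0} ∪ D` to their translates -/
lemma mul_card_le (k H t : ℕ) (Pd : Finset ℕ → Prop) (ht : t ≤ H) :
    t * (((Finset.Icc 2 (H - t)).powersetCard k).filter
      (fun D => (∀ p : ℕ, p.Prime → nu (insert 0 D) p < p) ∧ Pd (insert 0 D))).card ≤
    ((((Finset.range (H + 1)).powersetCard (k + 1)).filter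
      (fun E => 0 < singularSeries (translate0 E) ∧ Pd (translate0 E))).card) := by
  set T := ((Finset.Icc 2 (H - t)).powersetCard k).filter
      (fun D => (∀ p : ℕ, p.Prime → nu (insert 0 D) p < p) ∧ Pd (insert 0 D)) with hT
  have h : (Finset.range t ×ˢ T).card ≤ ((((Finset.range (H + 1)).powersetCard (k + 1)).filter
      (fun E => 0 < singularSeries (translate0 E) ∧ Pd (translate0 E))).card) := by
    apply Finset.card_le_card_of_injOn (fun q => (insert 0 q.2).image (fun d => d + q.1))
    · intro q hq
      rw [Finset.mem_coe, Finset.mem_product, hT, Finset.mem_filter, Finset.mem_powersetCard, Finset.mem_range] at hq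
      obtain ⟨hq1, ⟨hsub, hcard⟩, hadm, hPd⟩ := hq
      rw [Finset.mem_coe, Finset.mem_filter, Finset.mem_powersetCard]
      simp only
      rw [translate0_insert_shift]
      refine ⟨⟨?_, ?_⟩, singularSeries_pos_of _ hadm, hPd⟩
      · intro z hz
        rw [Finset.mem_image] at hz
        obtain ⟨d, hd, rfl⟩ := hz
        rw [Finset.mem_range]
        rw [Finset.mem_insert] at hd
        rcases hd with rfl | hd
        · omega
        · have := Finset.mem_Icc.mp (hsub hd)
          omega
      · rw [Finset.card_image_of_injective _ (fun a b hab => Nat.add_right_cancel hab), Finset.card_insert_of_notMem, hcard]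
        intro h0
        have := Finset.mem_Icc.mp (hsub h0)
        omega
    · intro q hq q' hq' hEE
      rw [Finset.mem_coe, Finset.mem_product, hT, Finset.mem_filter, Finset.mem_powersetCard, Finset.mem_range] at hq hq'
      simp only at hEE
      have h1 := congrArg translate0 hEE
      rw [translate0_insert_shift, translate0_insert_shift] at h1
      have h0q : 0 ∉ q.2 := fun h0 => by
        have := Finset.mem_Icc.mp (hq.2.1.1 h0)
        omega
      have h0q' : 0 ∉ q'.2 := fun h0 => by
        have := Finset.mem_Icc.mp (hq'.2.1.1 h0)
        omega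
      have h2 : q.2 = q'.2 := by
        rw [← Finset.erase_insert h0q, h1, Finset.erase_insert h0q']
      have h3 : q.1 = q'.1 := by
        have e1 : q.1 ∈ (insert 0 q.2).image (fun d => d + q.1) := by
          rw [Finset.mem_image]; exact ⟨0, Finset.mem_insert_self _ _, by simp⟩
        have e2 : q'.1 ∈ (insert 0 q'.2).image (fun d => d + q'.1) := by
          rw [Finset.mem_image]; exact ⟨0, Finset.mem_insert_self _ _, by simp⟩
        rw [hEE] at e1
        rw [← hEE] at e2
        rw [Finset.mem_image] at e1 e2
        obtain ⟨d1, _, hd1⟩ := e1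
        obtain ⟨d2, _, hd2⟩ := e2
        omega
      exact Prod.ext h3 h2
  rw [Finset.card_product, Finset.card_range] at h
  exact h

open Classical in
/-- sets with an element near the end of the interval are rare -/
lemma card_split (k H t : ℕ) (ht : t ≤ H) (Pd : Finset ℕ → Prop) :
    (((Finset.Icc 2 H).powersetCard k).filter Pd).card ≤
      (((Finset.Icc 2 (H - t)).powersetCard k).filter Pd).card + t * H ^ (k - 1) := by
  have hsub : ((Finset.Icc 2 H).powersetCard k).filter Pd ⊆
      (((Finset.Icc 2 (H - t)).powersetCard k).filter Pd) ∪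
        (Finset.Ioc (H - t) H ×ˢ (Finset.Icc 1 H).powersetCard (k - 1)).image (fun q => insert q.1 q.2) := by
    intro D hD
    rw [Finset.mem_filter, Finset.mem_powersetCard] at hD
    rw [Finset.mem_union]
    by_cases h : ∀ d ∈ D, d ≤ H - t
    · left
      rw [Finset.mem_filter, Finset.mem_powersetCard]
      refine ⟨⟨?_, hD.1.2⟩, hD.2⟩
      intro d hd
      have := Finset.mem_Icc.mp (hD.1.1 hd)
      rw [Finset.mem_Icc]
      exact ⟨this.1, h d hd⟩
    · right
      push Not at h
      obtain ⟨d, hd, hlt⟩ := h
      rw [Finset.mem_image]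
      refine ⟨(d, D.erase d), ?_, ?_⟩
      · rw [Finset.mem_product, Finset.mem_Ioc, Finset.mem_powersetCard]
        refine ⟨⟨hlt, (Finset.mem_Icc.mp (hD.1.1 hd)).2⟩, ?_, ?_⟩
        · intro e he
          have := Finset.mem_Icc.mp (hD.1.1 (Finset.mem_of_mem_erase he))
          rw [Finset.mem_Icc]
          omega
        · simp only
          rw [Finset.card_erase_of_mem hd, hD.1.2]
      · simp only
        exact Finset.insert_erase hd
  refine (Finset.card_le_card hsub).trans ((Finset.card_union_le _ _).trans ?_)
  apply Nat.add_le_add_left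
  refine Finset.card_image_le.trans ?_
  rw [Finset.card_product, Nat.card_Ioc, Finset.card_powersetCard, Nat.card_Icc]
  have : H - (H - t) = t := by omega
  rw [this, Nat.add_sub_cancel]
  exact Nat.mul_le_mul_left _ (Nat.choose_le_pow _ _)

end Pool.Agent.HL26
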