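import Mathlib
import Pool.Agent.HL26.Combine
import Pool.Agent.HL26.Trans

set_option autoImplicit false

open Finset Filter

namespace Pool.Agent.HL26

lemma choose_ge (r H : ℕ) (hr : 1 ≤ r) (hH : 2 * r ≤ H) :
    ((H : ℝ) + 1) ^ r ≤ (2 ^ r * (r.factorial : ℝ)) * ((H + 1).choose r : ℝ) := by
  have h := Nat.pow_le_choose r (H + 1) (α := ℝ)
  have h1 : ((H : ℝ) + 1) / 2 ≤ ((H + 1 + 1 - r : ℕ) : ℝ) := by
    rw [div_le_iff₀ (by norm_num)]
    have : H + 1 ≤ (H + 1 + 1 - r) * 2 := by omega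
    exact_mod_cast this
  have h2 : (((H : ℝ) + 1) / 2) ^ r ≤ ((H + 1 + 1 - r : ℕ) : ℝ) ^ r := pow_le_pow_left₀ (by positivity) h1 r
  rw [div_pow, div_le_iff₀ (by positivity)] at h2
  calc ((H : ℝ) + 1) ^ r ≤ ((H + 1 + 1 - r : ℕ) : ℝ) ^ r * 2 ^ r := h2
    _ ≤ ((r.factorial : ℝ) * ((H + 1).choose r : ℝ)) * 2 ^ r := by
        apply mul_le_mul_of_nonneg_right _ (by positivity)
        rw [div_le_iff₀ (by positivity)] at h
        linarith
    _ = _ := by ring

lemma sum_S_sq (r : ℕ) (hr : 2 ≤ r) : ∃ C : ℝ, 0 < C ∧ ∀ H : ℕ,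
    ∑ E ∈ (Finset.range (H + 1)).powersetCard r, (singularSeries (translate0 E)) ^ 2 ≤ C * ((H : ℝ) + 1) ^ r := by
  obtain ⟨C, hC, h⟩ := sum_singularSeries_sq_le r hr
  refine ⟨C, hC, fun H => ?_⟩
  simp_rw [singularSeries_translate0]
  exact h H

open Classical in
theorem positive_proportion (k : ℕ) (hk : 1 ≤ k) (ε : ℝ) (hε : 0 < ε) (hε2 : ε ≤ 1 / 2) :
    ∃ c : ℝ, 0 < c ∧ ∀ A : ℕ, ∃ K : ℝ, ∀ᶠ x : ℝ in atTop, ∀ H : ℕ, K * Real.log x ≤ H →
      (H : ℝ) ≤ (Real.log x) ^ A →
      c * (H : ℝ) ^ k ≤ ((((Finset.Icc 2 H).powersetCard k).filter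
        (fun D => (∀ p : ℕ, p.Prime → nu (insert 0 D) p < p) ∧
          (1 - ε) * (singularSeries (insert 0 D) * (x / (Real.log x) ^ (k + 1))) ≤
            (tupleCount x (insert 0 D) : ℝ))).card : ℝ) := by
  obtain ⟨C, hC, hbasic⟩ := basic_facts k hk
  obtain ⟨C2, hC2, hsq⟩ := sum_S_sq (k + 1) (by omega)
  set R : ℝ := 2 ^ (k + 1) * ((k + 1).factorial : ℝ) with hR
  have hR0 : 0 < R := by positivity
  refine ⟨(ε / (2 * C * R)) ^ 2 / C2, by positivity, ?_⟩
  intro A
  obtain ⟨K, hK⟩ := hbasic A (ε / 8) (by positivity) (by linarith)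
  refine ⟨max K 1, ?_⟩
  filter_upwards [hK, Real.tendsto_log_atTop.eventually_ge_atTop (2 * ((k : ℝ) + 1))] with x hx hlx
  intro H hH1 hH2
  obtain ⟨hXX, hr, hall⟩ := hx
  have hlog : 0 < Real.log x := by
    have : (0:ℝ) ≤ k := by positivity
    linarith
  have hKH : K * Real.log x ≤ H := (mul_le_mul_of_nonneg_right (le_max_left _ _) hlog.le).trans hH1
  have hlH : Real.log x ≤ H := by
    have := (mul_le_mul_of_nonneg_right (le_max_right K 1) hlog.le).trans hH1
    linarith
  have hH2k : 2 * (k + 1) ≤ H := by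
    have : (2 * ((k:ℝ) + 1)) ≤ H := by linarith
    exact_mod_cast this
  set B := Finset.range (H + 1) with hB
  obtain ⟨h1, h2, hS, h0, hup⟩ := hall B (by
      intro b hb
      rw [hB, Finset.mem_range] at hb
      have : (b : ℝ) ≤ H := by exact_mod_cast (by omega : b ≤ H)
      linarith) (by
      rw [hB, Finset.card_range]
      push_cast
      linarith)
  set F := B.powersetCard (k + 1) with hF
  set T := ∑ E ∈ F, singularSeries (translate0 E) with hT
  have hgm := good_mass F (fun E => singularSeries (translate0 E))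
      (fun E => (tupleCount x (translate0 E) : ℝ)) (x / (Real.log x) ^ (k + 1)) C ((k + 1 : ℕ) : ℝ) ε (ε / 8)
      hXX hS h0 hC.le hup (by positivity) (by linarith) h1
  set G := F.filter (fun E => 0 < singularSeries (translate0 E) ∧
      (1 - ε) * (singularSeries (translate0 E) * (x / (Real.log x) ^ (k + 1))) ≤ (tupleCount x (translate0 E) : ℝ)) with hG
  have hcardF : F.card = (H + 1).choose (k + 1) := by
    rw [hF, Finset.card_powersetCard, hB, Finset.card_range]
  have hFB : B.card.choose (k + 1) = F.card := by rw [hF, Finset.card_powersetCard]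
  rw [hFB] at h2
  set N : ℝ := (F.card : ℝ) with hN
  have hN0 : 0 ≤ N := by positivity
  -- the S-mass of the good sets
  have hmass : ε / (2 * C) * N ≤ ∑ E ∈ G, singularSeries (translate0 E) := by
    have h3 : (((k + 1 : ℕ) : ℝ) / (x / (Real.log x) ^ (k + 1))) * N ≤ (ε / 8) * N :=
      mul_le_mul_of_nonneg_right hr hN0
    have h4 : (ε / 2) * N ≤ C * ∑ E ∈ G, singularSeries (translate0 E) := by
      refine le_trans ?_ hgm
      have h5 : (ε - ε / 8) * ((1 - ε / 8) * N) ≤ (ε - ε / 8) * T :=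
        mul_le_mul_of_nonneg_left h2 (by linarith)
      have h6 : 0 ≤ ε * N := by positivity
      nlinarith
    rw [div_mul_eq_mul_div, div_le_iff₀ (by positivity)]
    linarith
  -- Cauchy-Schwarz
  have hcs : (∑ E ∈ G, singularSeries (translate0 E)) ^ 2 ≤ (G.card : ℝ) * (C2 * ((H : ℝ) + 1) ^ (k + 1)) := by
    refine (sq_sum_le_card_mul_sum_sq).trans ?_
    apply mul_le_mul_of_nonneg_left _ (by positivity)
    refine (Finset.sum_le_sum_of_subset_of_nonneg (Finset.filter_subset _ _) (fun _ _ _ => by positivity)).trans ?_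
    exact hsq H
  have hNlow : ((H : ℝ) + 1) ^ (k + 1) / R ≤ N := by
    rw [div_le_iff₀ hR0, mul_comm, hN, hcardF]
    exact choose_ge (k + 1) H (by omega) hH2k
  have hHp : (0:ℝ) < (H : ℝ) + 1 := by positivity
  have hGlow : (ε / (2 * C * R)) ^ 2 / C2 * ((H : ℝ) + 1) ^ (k + 1) ≤ G.card := by
    have h3 : (ε / (2 * C) * (((H : ℝ) + 1) ^ (k + 1) / R)) ^ 2 ≤ (G.card : ℝ) * (C2 * ((H : ℝ) + 1) ^ (k + 1)) := by
      refine le_trans ?_ hcs
      apply pow_le_pow_left₀ (by positivity)
      exact (mul_le_mul_of_nonneg_left hNlow (by positivity)).trans hmass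
    set Y := ((H : ℝ) + 1) ^ (k + 1) with hY
    have hY0 : 0 < Y := by positivity
    have e1 : (ε / (2 * C) * (Y / R)) ^ 2 = ((ε / (2 * C * R)) ^ 2 / C2 * Y) * (C2 * Y) := by
      field_simp
    rw [e1] at h3
    exact le_of_mul_le_mul_right h3 (by positivity)
  -- to the sets D
  have htr := card_le_mul k H (fun E => (1 - ε) * (singularSeries E * (x / (Real.log x) ^ (k + 1))) ≤ (tupleCount x E : ℝ))
  rw [← hB, ← hF, ← hG] at htr
  set T2 := ((Finset.Icc 2 H).powersetCard k).filter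
        (fun D => (∀ p : ℕ, p.Prime → nu (insert 0 D) p < p) ∧
          (1 - ε) * (singularSeries (insert 0 D) * (x / (Real.log x) ^ (k + 1))) ≤
            (tupleCount x (insert 0 D) : ℝ)) with hT2
  have htr' : (G.card : ℝ) ≤ ((H : ℝ) + 1) * (T2.card : ℝ) := by exact_mod_cast htr
  have h7 : (ε / (2 * C * R)) ^ 2 / C2 * ((H : ℝ) + 1) ^ k ≤ T2.card := by
    have h8 := hGlow.trans htr'
    rw [pow_succ ((H : ℝ) + 1) k] at h8
    have e2 : (ε / (2 * C * R)) ^ 2 / C2 * (((H : ℝ) + 1) ^ k * ((H : ℝ) + 1)) =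
        ((H : ℝ) + 1) * ((ε / (2 * C * R)) ^ 2 / C2 * ((H : ℝ) + 1) ^ k) := by ring
    rw [e2] at h8
    exact le_of_mul_le_mul_left h8 hHp
  refine le_trans ?_ h7
  apply mul_le_mul_of_nonneg_left _ (by positivity)
  exact pow_le_pow_left₀ (by positivity) (by linarith) k

open Classical in
theorem dichotomy_aux (k : ℕ) (hk : 1 ≤ k) (ε : ℝ) (hε : 0 < ε) (hε1 : ε ≤ 1) :
    ∃ δ : ℝ, 0 < δ ∧ ∀ A : ℕ, ∃ K : ℝ, ∀ᶠ x : ℝ in atTop, ∀ H : ℕ, K * Real.log x ≤ H →
      (H : ℝ) ≤ (Real.log x) ^ A →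
      ((((Finset.Icc 2 H).powersetCard k).filter
        (fun D => (∀ p : ℕ, p.Prime → nu (insert 0 D) p < p) ∧
          (1 + δ) * (singularSeries (insert 0 D) * (x / (Real.log x) ^ (k + 1))) <
            (tupleCount x (insert 0 D) : ℝ))).card : ℝ) ≤ δ * (H : ℝ) ^ k →
      ((((Finset.Icc 2 H).powersetCard k).filter
        (fun D => (∀ p : ℕ, p.Prime → nu (insert 0 D) p < p) ∧
          ¬ ((1 - ε) * (singularSeries (insert 0 D) * (x / (Real.log x) ^ (k + 1))) ≤
            (tupleCount x (insert 0 D) : ℝ) ∧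
            (tupleCount x (insert 0 D) : ℝ) ≤
              (1 + ε) * (singularSeries (insert 0 D) * (x / (Real.log x) ^ (k + 1)))))).card : ℝ) ≤
        ε * (H : ℝ) ^ k := by
  obtain ⟨C, hC, hbasic⟩ := basic_facts k hk
  obtain ⟨C2, hC2, hsq⟩ := sum_S_sq (k + 1) (by omega)
  obtain ⟨c, hc, hclow⟩ := exists_singularSeries_lower (k + 1)
  set L : ℝ := (1 + C2) * (3 + C) * 2 ^ (k + 2) * 64 / (c * ε ^ 3) with hL
  have hL0 : 0 < L := by positivity
  set M : ℝ := 2 + 2 / ε + L with hM
  have hM2 : 2 ≤ M := by have : 0 < 2 / ε := by positivity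
                         linarith
  have hM0 : 0 < M := by linarith
  have hMε : 2 / ε ≤ M := by linarith
  have hML : L ≤ M := by have : 0 < 2 / ε := by positivity
                         linarith
  set δ : ℝ := 1 / M ^ 2 with hδ
  have hδ0 : 0 < δ := by positivity
  have hδM : δ * M = 1 / M := by rw [hδ]; field_simp
  have hδ1M : δ ≤ 1 / M := by
    rw [hδ]
    apply one_div_le_one_div_of_le hM0
    nlinarith
  have hδ2 : δ ≤ 1 / 2 := hδ1M.trans (one_div_le_one_div_of_le (by norm_num) hM2)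
  have hδε : δ ≤ ε / 2 := by
    refine hδ1M.trans ?_
    rw [div_le_div_iff₀ hM0 (by norm_num)]
    rw [div_le_iff₀ hε] at hMε
    linarith
  refine ⟨δ, hδ0, ?_⟩
  intro A
  obtain ⟨K, hK⟩ := hbasic A δ hδ0 hδ2
  refine ⟨max K 1, ?_⟩
  filter_upwards [hK, Real.tendsto_log_atTop.eventually_ge_atTop (16 / ε)] with x hx hlx
  intro H hH1 hH2 hover
  obtain ⟨hXX, hr, hall⟩ := hx
  have h16 : 16 ≤ 16 / ε := by rw [le_div_iff₀ hε]; linarith
  have hlog : 0 < Real.log x := by linarith
  have hKH : K * Real.log x ≤ H := (mul_le_mul_of_nonneg_right (le_max_left _ _) hlog.le).trans hH1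
  have hlH : Real.log x ≤ H := by
    have := (mul_le_mul_of_nonneg_right (le_max_right K 1) hlog.le).trans hH1
    linarith
  have hH16 : 16 / ε ≤ H := hlx.trans hlH
  have hHr1 : (1:ℝ) ≤ H := by linarith
  have hHr0 : (0:ℝ) < H := by linarith
  set X := x / (Real.log x) ^ (k + 1) with hX
  set B := Finset.range (H + 1) with hB
  obtain ⟨h1, h2, hS, h0, hup⟩ := hall B (by
      intro b hb
      rw [hB, Finset.mem_range] at hb
      have : (b : ℝ) ≤ H := by exact_mod_cast (by omega : b ≤ H)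
      linarith) (by
      rw [hB, Finset.card_range]
      push_cast
      linarith)
  set F := B.powersetCard (k + 1) with hF
  set T := ∑ E ∈ F, singularSeries (translate0 E) with hT
  have hum := under_mass F (fun E => singularSeries (translate0 E))
      (fun E => (tupleCount x (translate0 E) : ℝ)) X C ((k + 1 : ℕ) : ℝ) ε δ δ
      hXX hS h0 hC.le hup (by positivity) hδ0.le hε.le h1
  set P := F.filter (fun E => 0 < singularSeries (translate0 E) ∧
      (1 + δ) * (singularSeries (translate0 E) * X) < (tupleCount x (translate0 E) : ℝ)) with hP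
  set Q := F.filter (fun E => 0 < singularSeries (translate0 E) ∧
      (tupleCount x (translate0 E) : ℝ) < (1 - ε) * (singularSeries (translate0 E) * X)) with hQ
  set Y : ℝ := ((H : ℝ) + 1) ^ (k + 1) with hY
  have hY0 : 0 < Y := by positivity
  have hcardF : (F.card : ℝ) ≤ Y := by
    rw [hF, Finset.card_powersetCard, hB, Finset.card_range, hY]
    exact_mod_cast Nat.choose_le_pow _ _
  have hsqF := hsq H
  rw [← hB, ← hF, ← hY] at hsqF
  -- total mass
  have hTle : T ≤ (1 + C2) * Y := by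
    have e1 : T ≤ ∑ E ∈ F, (1 + (singularSeries (translate0 E)) ^ 2) := by
      apply Finset.sum_le_sum
      intro E _
      nlinarith [sq_nonneg (singularSeries (translate0 E) - 1)]
    rw [Finset.sum_add_distrib, Finset.sum_const, nsmul_eq_mul, mul_one] at e1
    linarith
  -- the mass of P
  have htr := card_le_mul k H (fun E => (1 + δ) * (singularSeries E * X) < (tupleCount x E : ℝ))
  rw [← hB, ← hF, ← hP] at htr
  have hPcard : (P.card : ℝ) ≤ δ * Y := by
    have e1 : (P.card : ℝ) ≤ ((H : ℝ) + 1) * ((((Finset.Icc 2 H).powersetCard k).filter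
        (fun D => (∀ p : ℕ, p.Prime → nu (insert 0 D) p < p) ∧
          (1 + δ) * (singularSeries (insert 0 D) * X) <
            (tupleCount x (insert 0 D) : ℝ))).card : ℝ) := by exact_mod_cast htr
    calc (P.card : ℝ) ≤ ((H : ℝ) + 1) * (δ * (H : ℝ) ^ k) :=
          e1.trans (mul_le_mul_of_nonneg_left hover (by positivity))
      _ ≤ ((H : ℝ) + 1) * (δ * ((H : ℝ) + 1) ^ k) := by
          gcongr
          linarith
      _ = δ * Y := by rw [hY, pow_succ]; ring
  have hPmass : ∑ E ∈ P, singularSeries (translate0 E) ≤ (1 + C2) / M * Y := by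
    have e1 : ∑ E ∈ P, singularSeries (translate0 E) ≤ ∑ E ∈ P, (M + (singularSeries (translate0 E)) ^ 2 / M) := by
      apply Finset.sum_le_sum
      intro E _
      rw [← sub_nonneg]
      have : M + (singularSeries (translate0 E)) ^ 2 / M - singularSeries (translate0 E) =
          ((M - singularSeries (translate0 E) / 2) ^ 2 + 3 / 4 * (singularSeries (translate0 E)) ^ 2) / M := by
        field_simp
        ring
      rw [this]
      positivity
    rw [Finset.sum_add_distrib, Finset.sum_const, nsmul_eq_mul, ← Finset.sum_div] at e1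
    have e2 : ∑ E ∈ P, (singularSeries (translate0 E)) ^ 2 ≤ C2 * Y :=
      (Finset.sum_le_sum_of_subset_of_nonneg (Finset.filter_subset _ _) (fun _ _ _ => by positivity)).trans hsqF
    calc ∑ E ∈ P, singularSeries (translate0 E) ≤ (P.card : ℝ) * M + (∑ E ∈ P, (singularSeries (translate0 E)) ^ 2) / M := e1
      _ ≤ (δ * Y) * M + (C2 * Y) / M :=
          add_le_add (mul_le_mul_of_nonneg_right hPcard hM0.le) (div_le_div_of_nonneg_right e2 hM0.le)
      _ = (δ * M) * Y + (C2 * Y) / M := by ring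
      _ = _ := by rw [hδM]; ring
  -- the mass of Q
  have hQmass : ε * ∑ E ∈ Q, singularSeries (translate0 E) ≤ (1 + C2) * (3 + C) / M * Y := by
    refine hum.trans ?_
    have e1 : (δ + δ) * T ≤ (2 / M) * ((1 + C2) * Y) := by
      apply mul_le_mul _ hTle (Finset.sum_nonneg hS) (by positivity)
      have : 2 / M = 1 / M + 1 / M := by ring
      linarith
    have e2 : C * ∑ E ∈ P, singularSeries (translate0 E) ≤ C * ((1 + C2) / M * Y) :=
      mul_le_mul_of_nonneg_left hPmass hC.le
    have e3 : ((k + 1 : ℕ) : ℝ) / X * F.card ≤ 1 / M * ((1 + C2) * Y) := by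
      apply mul_le_mul (hr.trans hδ1M) (hcardF.trans (by nlinarith)) (by positivity) (by positivity)
    have e4 : (1 + C2) * (3 + C) / M * Y = (2 / M) * ((1 + C2) * Y) + C * ((1 + C2) / M * Y) +
        1 / M * ((1 + C2) * Y) := by
      ring
    rw [e4]
    exact add_le_add (add_le_add e1 e2) e3
  have hQcard : (Q.card : ℝ) ≤ (1 + C2) * (3 + C) / (c * ε * M) * Y := by
    have e1 : c * (Q.card : ℝ) ≤ ∑ E ∈ Q, singularSeries (translate0 E) := by
      rw [mul_comm, ← nsmul_eq_mul, ← Finset.sum_const]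
      apply Finset.sum_le_sum
      intro E hE
      rw [hQ, Finset.mem_filter] at hE
      apply hclow
      · rw [card_translate0, (Finset.mem_powersetCard.mp hE.1).2]
      · intro p hp
        exact admissible_of_pos _ hE.2.1 p hp
    have e2 : (c * ε) * (Q.card : ℝ) ≤ (c * ε) * ((1 + C2) * (3 + C) / (c * ε * M) * Y) := by
      calc (c * ε) * (Q.card : ℝ) = ε * (c * (Q.card : ℝ)) := by ring
        _ ≤ ε * ∑ E ∈ Q, singularSeries (translate0 E) := mul_le_mul_of_nonneg_left e1 hε.le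
        _ ≤ (1 + C2) * (3 + C) / M * Y := hQmass
        _ = _ := by field_simp
    exact le_of_mul_le_mul_left e2 (by positivity)
  -- back to the sets D
  set τ : ℝ := ε / 8 with hτ
  have hτ0 : 0 < τ := by positivity
  set t : ℕ := ⌊τ * H⌋₊ with ht
  have htle : (t : ℝ) ≤ τ * H := Nat.floor_le (by positivity)
  have htge : τ * H / 2 ≤ t := by
    have e1 := Nat.lt_floor_add_one (τ * H)
    rw [← ht] at e1
    have e2 : 2 ≤ τ * H := by
      rw [div_le_iff₀ hε] at hH16
      rw [hτ]
      linarith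
    linarith
  have htH : t ≤ H := by
    have : (t : ℝ) ≤ H := htle.trans (by
      have : τ ≤ 1 := by rw [hτ]; linarith
      nlinarith)
    exact_mod_cast this
  have hmul := mul_card_le k H t (fun E => (tupleCount x E : ℝ) < (1 - ε) * (singularSeries E * X)) htH
  rw [← hB, ← hF, ← hQ] at hmul
  set Q' := ((Finset.Icc 2 (H - t)).powersetCard k).filter
      (fun D => (∀ p : ℕ, p.Prime → nu (insert 0 D) p < p) ∧
        (tupleCount x (insert 0 D) : ℝ) < (1 - ε) * (singularSeries (insert 0 D) * X)) with hQ'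
  have hsplit := card_split k H t htH (fun D => (∀ p : ℕ, p.Prime → nu (insert 0 D) p < p) ∧
        (tupleCount x (insert 0 D) : ℝ) < (1 - ε) * (singularSeries (insert 0 D) * X))
  set QD := ((Finset.Icc 2 H).powersetCard k).filter
      (fun D => (∀ p : ℕ, p.Prime → nu (insert 0 D) p < p) ∧
        (tupleCount x (insert 0 D) : ℝ) < (1 - ε) * (singularSeries (insert 0 D) * X)) with hQD
  have hmul' : (t : ℝ) * (Q'.card : ℝ) ≤ Q.card := by exact_mod_cast hmul
  have hsplit2 : QD.card ≤ Q'.card + t * H ^ (k - 1) := by convert hsplit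
  have hsplit' : (QD.card : ℝ) ≤ (Q'.card : ℝ) + (t : ℝ) * (H : ℝ) ^ (k - 1) := by exact_mod_cast hsplit2
  have hQ'card : (Q'.card : ℝ) ≤ ε / 8 * (H : ℝ) ^ k := by
    have e1 : τ * H / 2 * (Q'.card : ℝ) ≤ (1 + C2) * (3 + C) / (c * ε * M) * Y :=
      (mul_le_mul_of_nonneg_right htge (by positivity)).trans (hmul'.trans hQcard)
    have e2 : Y ≤ 2 ^ (k + 1) * (H : ℝ) ^ (k + 1) := by
      rw [hY, ← mul_pow]
      apply pow_le_pow_left₀ (by positivity)
      linarith
    have e3 : (1 + C2) * (3 + C) / (c * ε * M) * Y ≤ (1 + C2) * (3 + C) / (c * ε * L) * (2 ^ (k + 1) * (H : ℝ) ^ (k + 1)) := by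
      apply mul_le_mul _ e2 hY0.le (by positivity)
      apply div_le_div_of_nonneg_left (by positivity) (by positivity)
      exact mul_le_mul_of_nonneg_left hML (by positivity)
    have e4 : (1 + C2) * (3 + C) / (c * ε * L) * (2 ^ (k + 1) * (H : ℝ) ^ (k + 1)) =
        τ * H / 2 * (ε / 8 * (H : ℝ) ^ k) := by
      rw [hL, hτ]
      have hc' : c ≠ 0 := hc.ne'
      have hε' : ε ≠ 0 := hε.ne'
      have hC2' : (1 + C2) ≠ 0 := by positivity
      have hC' : (3 + C) ≠ 0 := by positivity
      field_simp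
      ring
    rw [e4] at e3
    exact le_of_mul_le_mul_left (e1.trans e3) (by positivity)
  have hQDcard : (QD.card : ℝ) ≤ ε / 4 * (H : ℝ) ^ k := by
    have e1 : (t : ℝ) * (H : ℝ) ^ (k - 1) ≤ ε / 8 * (H : ℝ) ^ k := by
      calc (t : ℝ) * (H : ℝ) ^ (k - 1) ≤ (τ * H) * (H : ℝ) ^ (k - 1) :=
            mul_le_mul_of_nonneg_right htle (by positivity)
        _ = τ * ((H : ℝ) ^ (k - 1) * H) := by ring
        _ = _ := by rw [← pow_succ, Nat.sub_add_cancel hk]
    linarith
  -- conclusion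
  have hsub : ((Finset.Icc 2 H).powersetCard k).filter
        (fun D => (∀ p : ℕ, p.Prime → nu (insert 0 D) p < p) ∧
          ¬ ((1 - ε) * (singularSeries (insert 0 D) * X) ≤ (tupleCount x (insert 0 D) : ℝ) ∧
            (tupleCount x (insert 0 D) : ℝ) ≤ (1 + ε) * (singularSeries (insert 0 D) * X))) ⊆
      (((Finset.Icc 2 H).powersetCard k).filter
        (fun D => (∀ p : ℕ, p.Prime → nu (insert 0 D) p < p) ∧
          (1 + δ) * (singularSeries (insert 0 D) * X) < (tupleCount x (insert 0 D) : ℝ))) ∪ QD := by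
    intro D hD
    rw [Finset.mem_filter] at hD
    obtain ⟨hD1, hadm, hnot⟩ := hD
    rw [Finset.mem_union]
    by_cases hlow : (1 - ε) * (singularSeries (insert 0 D) * X) ≤ (tupleCount x (insert 0 D) : ℝ)
    · left
      rw [Finset.mem_filter]
      refine ⟨hD1, hadm, ?_⟩
      have h3 : (1 + ε) * (singularSeries (insert 0 D) * X) < (tupleCount x (insert 0 D) : ℝ) := by
        by_contra hcon
        push Not at hcon
        exact hnot ⟨hlow, hcon⟩
      refine lt_of_le_of_lt ?_ h3
      apply mul_le_mul_of_nonneg_right (by linarith)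
      exact mul_nonneg (singularSeries_nonneg _) hXX.le
    · right
      push Not at hlow
      rw [hQD, Finset.mem_filter]
      exact ⟨hD1, hadm, hlow⟩
  have hcard := (Finset.card_le_card hsub).trans (Finset.card_union_le _ _)
  have hcard' : ((((Finset.Icc 2 H).powersetCard k).filter
        (fun D => (∀ p : ℕ, p.Prime → nu (insert 0 D) p < p) ∧
          ¬ ((1 - ε) * (singularSeries (insert 0 D) * X) ≤ (tupleCount x (insert 0 D) : ℝ) ∧
            (tupleCount x (insert 0 D) : ℝ) ≤ (1 + ε) * (singularSeries (insert 0 D) * X)))).card : ℝ) ≤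
      ((((Finset.Icc 2 H).powersetCard k).filter
        (fun D => (∀ p : ℕ, p.Prime → nu (insert 0 D) p < p) ∧
          (1 + δ) * (singularSeries (insert 0 D) * X) < (tupleCount x (insert 0 D) : ℝ))).card : ℝ) + (QD.card : ℝ) := by
    exact_mod_cast hcard
  have hHk : (0:ℝ) ≤ (H : ℝ) ^ k := by positivity
  have e5 : δ * (H : ℝ) ^ k ≤ ε / 2 * (H : ℝ) ^ k := mul_le_mul_of_nonneg_right hδε hHk
  linarith

end Pool.Agent.HL26
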