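import Mathlib

set_option autoImplicit false

open MeasureTheory Set Filter Topology

namespace Pool.Agent.HL26

/-- the Fejer-type kernel -/
noncomputable def kf (v : ℝ) : ℝ := (Real.sinc (v / 2)) ^ 2

lemma kf_nonneg (v : ℝ) : 0 ≤ kf v := by unfold kf; positivity

lemma continuous_kf : Continuous kf := by
  unfold kf
  exact (Real.continuous_sinc.comp (continuous_id.div_const 2)).pow 2

lemma kf_le_one (v : ℝ) : kf v ≤ 1 := by
  unfold kf
  have h1 := Real.sinc_le_one (v / 2)
  have h2 := Real.neg_one_le_sinc (v / 2)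
  nlinarith

lemma kf_eq (v : ℝ) (hv : v ≠ 0) : kf v = 4 * Real.sin (v / 2) ^ 2 / v ^ 2 := by
  unfold kf
  rw [Real.sinc_of_ne_zero (by simpa using hv)]
  field_simp
  ring

lemma kf_le (v : ℝ) (hv : v ≠ 0) : kf v ≤ 4 / v ^ 2 := by
  rw [kf_eq v hv]
  have h : Real.sin (v / 2) ^ 2 ≤ 1 := Real.sin_sq_le_one _
  have hv2 : 0 < v ^ 2 := by positivity
  apply div_le_div_of_nonneg_right _ hv2.le
  linarith

lemma kf_le' (v : ℝ) : kf v ≤ 8 * (1 + v ^ 2)⁻¹ := by
  rw [← div_eq_mul_inv]
  by_cases h : |v| ≤ 1
  · refine (kf_le_one v).trans ?_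
    rw [le_div_iff₀ (by positivity)]
    have : v ^ 2 ≤ 1 := by rw [← sq_abs]; nlinarith [abs_nonneg v]
    linarith
  · push Not at h
    have hv : v ≠ 0 := by
      intro h0; rw [h0] at h; simp at h; linarith
    refine (kf_le v hv).trans ?_
    have : 1 < v ^ 2 := by rw [← sq_abs]; nlinarith [abs_nonneg v]
    rw [div_le_div_iff₀ (by positivity) (by positivity)]
    linarith

lemma integrable_kf : Integrable kf := by
  refine Integrable.mono' (integrable_inv_one_add_sq.const_mul 8) continuous_kf.aestronglyMeasurable ?_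
  filter_upwards with v
  rw [Real.norm_eq_abs, abs_of_nonneg (kf_nonneg v)]
  exact kf_le' v

/-- the total mass of the kernel -/
noncomputable def kap : ℝ := ∫ v, kf v

lemma kap_pos : 0 < kap := by
  unfold kap
  rw [integral_pos_iff_support_of_nonneg kf_nonneg integrable_kf]
  apply IsOpen.measure_pos
  · exact continuous_kf.isOpen_support
  · exact ⟨0, by simp [kf]⟩

lemma fourier_tri (L : ℝ) (hL : 0 < L) (u : ℝ) :
    ∫ τ in (-L)..L, ((1 - |τ| / L : ℝ) : ℂ) * Complex.exp (Complex.I * u * τ)
      = ((L * kf (L * u) : ℝ) : ℂ) := by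
  have hLc : (L : ℂ) ≠ 0 := by exact_mod_cast hL.ne'
  have hcont : Continuous (fun τ : ℝ => ((1 - |τ| / L : ℝ) : ℂ) * Complex.exp (Complex.I * u * τ)) := by
    fun_prop
  rw [← intervalIntegral.integral_add_adjacent_intervals (b := 0) (hcont.intervalIntegrable _ _) (hcont.intervalIntegrable _ _)]
  by_cases hu : u = 0
  · subst hu
    simp only [Complex.ofReal_zero, mul_zero, zero_mul, Complex.exp_zero, mul_one]
    rw [intervalIntegral.integral_ofReal, intervalIntegral.integral_ofReal]
    have h1 : ∫ x in (-L)..0, (1 - |x| / L) = L / 2 := by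
      have : ∫ x in (-L)..0, (1 - |x| / L) = ∫ x in (-L)..0, (1 + x / L) := by
        apply intervalIntegral.integral_congr
        intro x hx
        rw [uIcc_of_le (by linarith)] at hx
        simp only
        rw [abs_of_nonpos hx.2]
        ring
      rw [this, intervalIntegral.integral_eq_sub_of_hasDerivAt (f := fun x => x + x ^ 2 / (2 * L))]
      · simp
        field_simp
        ring
      · intro x _
        have e := (hasDerivAt_id x).add (((hasDerivAt_id x).pow 2).div_const (2 * L))
        refine e.congr_deriv ?_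
        simp
        field_simp
      · apply Continuous.intervalIntegrable
        fun_prop
    have h2 : ∫ x in (0:ℝ)..L, (1 - |x| / L) = L / 2 := by
      have : ∫ x in (0:ℝ)..L, (1 - |x| / L) = ∫ x in (0:ℝ)..L, (1 - x / L) := by
        apply intervalIntegral.integral_congr
        intro x hx
        rw [uIcc_of_le (by linarith)] at hx
        simp only
        rw [abs_of_nonneg hx.1]
      rw [this, intervalIntegral.integral_eq_sub_of_hasDerivAt (f := fun x => x - x ^ 2 / (2 * L))]
      · simp
        field_simp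
        ring
      · intro x _
        have e := (hasDerivAt_id x).sub (((hasDerivAt_id x).pow 2).div_const (2 * L))
        refine e.congr_deriv ?_
        simp
        field_simp
      · apply Continuous.intervalIntegrable
        fun_prop
    rw [h1, h2]
    have : kf 0 = 1 := by simp [kf]
    rw [this]
    push_cast
    ring
  · have huc : (u : ℂ) ≠ 0 := by exact_mod_cast hu
    have hI : Complex.I * (u : ℂ) ≠ 0 := mul_ne_zero Complex.I_ne_zero huc
    set a : ℂ := Complex.I * u with ha
    have hd : ∀ τ : ℝ, HasDerivAt (fun τ : ℝ => Complex.exp (a * τ)) (a * Complex.exp (a * τ)) τ := by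
      intro τ
      have h1 : HasDerivAt (fun τ : ℝ => a * (τ : ℂ)) a τ := by
        simpa using (Complex.ofRealCLM.hasDerivAt (x := τ)).const_mul a
      simpa [mul_comm] using h1.cexp
    have hid : ∀ τ : ℝ, HasDerivAt (fun τ : ℝ => (τ : ℂ)) 1 τ := fun τ => Complex.ofRealCLM.hasDerivAt
    have h1 : ∫ τ in (0:ℝ)..L, ((1 - |τ| / L : ℝ) : ℂ) * Complex.exp (a * τ)
        = (1 / L) * Complex.exp (a * L) / a ^ 2 - (1 / a + (1 / L) / a ^ 2) := by
      have hc : ∫ τ in (0:ℝ)..L, ((1 - |τ| / L : ℝ) : ℂ) * Complex.exp (a * τ)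
          = ∫ τ in (0:ℝ)..L, (1 - (τ : ℂ) / L) * Complex.exp (a * τ) := by
        apply intervalIntegral.integral_congr
        intro x hx
        rw [uIcc_of_le (by linarith)] at hx
        simp only
        rw [abs_of_nonneg hx.1]
        push_cast
        ring
      rw [hc]
      rw [intervalIntegral.integral_eq_sub_of_hasDerivAt (f := fun τ : ℝ => (1 - (τ : ℂ) / L) * Complex.exp (a * τ) / a + (1 / L) * Complex.exp (a * τ) / a ^ 2)]
      · simp only [Complex.ofReal_zero, mul_zero, Complex.exp_zero]
        field_simp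
        ring
      · intro τ _
        have e1 : HasDerivAt (fun τ : ℝ => (1 - (τ : ℂ) / L)) (-(1 / L)) τ := by
          simpa using ((hid τ).div_const (L : ℂ)).const_sub 1
        have e2 := ((e1.mul (hd τ)).div_const a).add ((((hd τ).const_mul (1 / (L:ℂ))).div_const (a ^ 2)))
        refine e2.congr_deriv ?_
        field_simp
        ring
      · apply Continuous.intervalIntegrable
        fun_prop
    have h2 : ∫ τ in (-L)..(0:ℝ), ((1 - |τ| / L : ℝ) : ℂ) * Complex.exp (a * τ)
        = (1 / a - (1 / L) / a ^ 2) + (1 / L) * Complex.exp (-(a * L)) / a ^ 2 := by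
      have hc : ∫ τ in (-L)..(0:ℝ), ((1 - |τ| / L : ℝ) : ℂ) * Complex.exp (a * τ)
          = ∫ τ in (-L)..(0:ℝ), (1 + (τ : ℂ) / L) * Complex.exp (a * τ) := by
        apply intervalIntegral.integral_congr
        intro x hx
        rw [uIcc_of_le (by linarith)] at hx
        simp only
        rw [abs_of_nonpos hx.2]
        push_cast
        ring
      rw [hc]
      rw [intervalIntegral.integral_eq_sub_of_hasDerivAt (f := fun τ : ℝ => (1 + (τ : ℂ) / L) * Complex.exp (a * τ) / a - (1 / L) * Complex.exp (a * τ) / a ^ 2)]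
      · simp only [Complex.ofReal_zero, mul_zero, Complex.exp_zero, Complex.ofReal_neg, mul_neg]
        field_simp
        ring
      · intro τ _
        have e1 : HasDerivAt (fun τ : ℝ => (1 + (τ : ℂ) / L)) ((1 / L)) τ := by
          simpa using ((hid τ).div_const (L : ℂ)).const_add 1
        have e2 := ((e1.mul (hd τ)).div_const a).sub ((((hd τ).const_mul (1 / (L:ℂ))).div_const (a ^ 2)))
        refine e2.congr_deriv ?_
        field_simp
        ring
      · apply Continuous.intervalIntegrable
        fun_prop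
    rw [h1, h2]
    have h3 : kf (L * u) = 2 * (1 - Real.cos (L * u)) / (L * u) ^ 2 := by
      rw [kf_eq _ (mul_ne_zero hL.ne' hu)]
      have h0 := Real.cos_two_mul (L * u / 2)
      rw [show 2 * (L * u / 2) = L * u by ring] at h0
      have h4 := Real.sin_sq_add_cos_sq (L * u / 2)
      have h5 : Real.sin (L * u / 2) ^ 2 = (1 - Real.cos (L * u)) / 2 := by linarith
      rw [h5]
      ring
    rw [h3]
    push_cast
    rw [Complex.cos]
    have e1 : (L : ℂ) * u * Complex.I = a * L := by rw [ha]; ring
    have e2 : -((L : ℂ) * u) * Complex.I = -(a * L) := by rw [ha]; ring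
    rw [e1, e2]
    have e3 : a ^ 2 = - (u : ℂ) ^ 2 := by
      rw [ha, mul_pow, Complex.I_sq]; ring
    have e4 : (1:ℂ) / a - 1 / a = 0 := by ring
    calc _ = (1 / (L:ℂ)) * (Complex.exp (a * L) + Complex.exp (-(a * L)) - 2) / a ^ 2 := by
          field_simp
          ring
      _ = _ := by
          rw [e3]
          field_simp
          ring

end Pool.Agent.HL26
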