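import Mathlib
import Pool.Agent.HL26.Kernel

set_option autoImplicit false

open MeasureTheory Set Filter Topology

namespace Pool.Agent.HL26

/-- integration by parts bound on the two halves of the triangle -/
lemma parts_bound (G G' : ℝ → ℂ) (L M y : ℝ) (hL : 0 < L) (hy : 0 < y)
    (hG : ∀ τ : ℝ, HasDerivAt G (G' τ) τ) (hG' : Continuous G')
    (hM : ∀ τ ∈ Icc (-L) L, ‖G τ‖ ≤ M) (hM' : ∀ τ ∈ Icc (-L) L, ‖G' τ‖ ≤ M) :
    ‖∫ τ in (-L)..L, ((1 - |τ| / L : ℝ) : ℂ) * (G τ * Complex.exp (Complex.I * y * τ))‖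
      ≤ 2 * M * (1 + L) / y := by
  have hGc : Continuous G := continuous_iff_continuousAt.mpr fun τ => (hG τ).continuousAt
  have hLc : (L : ℂ) ≠ 0 := by exact_mod_cast hL.ne'
  have hyc : (y : ℂ) ≠ 0 := by exact_mod_cast hy.ne'
  have hM0 : 0 ≤ M := (norm_nonneg _).trans (hM 0 ⟨by linarith, hL.le⟩)
  set a : ℂ := Complex.I * y with ha
  have ha0 : a ≠ 0 := mul_ne_zero Complex.I_ne_zero hyc
  have hna : ‖a‖ = y := by
    rw [ha, norm_mul, Complex.norm_I, one_mul, Complex.norm_real, Real.norm_eq_abs, abs_of_pos hy]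
  have hcont : Continuous (fun τ : ℝ => ((1 - |τ| / L : ℝ) : ℂ) * (G τ * Complex.exp (a * τ))) := by
    fun_prop
  have hid : ∀ τ : ℝ, HasDerivAt (fun τ : ℝ => (τ : ℂ)) 1 τ := fun τ => Complex.ofRealCLM.hasDerivAt
  have hd : ∀ τ : ℝ, HasDerivAt (fun τ : ℝ => Complex.exp (a * τ) / a) (Complex.exp (a * τ)) τ := by
    intro τ
    have h1 : HasDerivAt (fun τ : ℝ => a * (τ : ℂ)) a τ := by
      simpa using (hid τ).const_mul a
    have h2 := h1.cexp.div_const a
    refine h2.congr_deriv ?_
    field_simp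
  rw [← intervalIntegral.integral_add_adjacent_intervals (b := 0) (hcont.intervalIntegrable _ _) (hcont.intervalIntegrable _ _)]
  -- right half
  have hr : ∫ τ in (0:ℝ)..L, ((1 - |τ| / L : ℝ) : ℂ) * (G τ * Complex.exp (a * τ))
      = -(G 0 / a) - ∫ τ in (0:ℝ)..L, (-(1 / (L:ℂ)) * G τ + (1 - (τ : ℂ) / L) * G' τ) * (Complex.exp (a * τ) / a) := by
    have hc : ∫ τ in (0:ℝ)..L, ((1 - |τ| / L : ℝ) : ℂ) * (G τ * Complex.exp (a * τ))
        = ∫ τ in (0:ℝ)..L, ((1 - (τ : ℂ) / L) * G τ) * Complex.exp (a * τ) := by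
      apply intervalIntegral.integral_congr
      intro x hx
      rw [uIcc_of_le (by linarith)] at hx
      simp only
      rw [abs_of_nonneg hx.1]
      push_cast
      ring
    rw [hc]
    rw [intervalIntegral.integral_mul_deriv_eq_deriv_mul (u := fun τ : ℝ => (1 - (τ : ℂ) / L) * G τ)
      (u' := fun τ : ℝ => (-(1 / (L:ℂ)) * G τ + (1 - (τ : ℂ) / L) * G' τ))
      (v := fun τ : ℝ => Complex.exp (a * τ) / a) (v' := fun τ : ℝ => Complex.exp (a * τ))]
    · simp only [Complex.ofReal_zero, mul_zero, Complex.exp_zero]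
      congr 1
      field_simp
      ring
    · intro τ _
      have e1 : HasDerivAt (fun τ : ℝ => (1 - (τ : ℂ) / L)) (-(1 / L)) τ := by
        simpa using ((hid τ).div_const (L : ℂ)).const_sub 1
      exact e1.mul (hG τ)
    · intro τ _
      exact hd τ
    · apply Continuous.intervalIntegrable
      fun_prop
    · apply Continuous.intervalIntegrable
      fun_prop
  have hl : ∫ τ in (-L)..(0:ℝ), ((1 - |τ| / L : ℝ) : ℂ) * (G τ * Complex.exp (a * τ))
      = (G 0 / a) - ∫ τ in (-L)..(0:ℝ), ((1 / (L:ℂ)) * G τ + (1 + (τ : ℂ) / L) * G' τ) * (Complex.exp (a * τ) / a) := by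
    have hc : ∫ τ in (-L)..(0:ℝ), ((1 - |τ| / L : ℝ) : ℂ) * (G τ * Complex.exp (a * τ))
        = ∫ τ in (-L)..(0:ℝ), ((1 + (τ : ℂ) / L) * G τ) * Complex.exp (a * τ) := by
      apply intervalIntegral.integral_congr
      intro x hx
      rw [uIcc_of_le (by linarith)] at hx
      simp only
      rw [abs_of_nonpos hx.2]
      push_cast
      ring
    rw [hc]
    rw [intervalIntegral.integral_mul_deriv_eq_deriv_mul (u := fun τ : ℝ => (1 + (τ : ℂ) / L) * G τ)
      (u' := fun τ : ℝ => ((1 / (L:ℂ)) * G τ + (1 + (τ : ℂ) / L) * G' τ))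
      (v := fun τ : ℝ => Complex.exp (a * τ) / a) (v' := fun τ : ℝ => Complex.exp (a * τ))]
    · simp only [Complex.ofReal_zero, mul_zero, Complex.exp_zero, Complex.ofReal_neg]
      congr 1
      field_simp
      ring
    · intro τ _
      have e1 : HasDerivAt (fun τ : ℝ => (1 + (τ : ℂ) / L)) ((1 / L)) τ := by
        simpa using ((hid τ).div_const (L : ℂ)).const_add 1
      exact e1.mul (hG τ)
    · intro τ _
      exact hd τ
    · apply Continuous.intervalIntegrable
      fun_prop
    · apply Continuous.intervalIntegrable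
      fun_prop
  rw [hr, hl]
  have hexp : ∀ τ : ℝ, ‖Complex.exp (a * τ) / a‖ = 1 / y := by
    intro τ
    rw [norm_div, hna]
    congr 1
    rw [ha, show Complex.I * (y : ℂ) * τ = ((y * τ : ℝ) : ℂ) * Complex.I by push_cast; ring]
    exact Complex.norm_exp_ofReal_mul_I _
  have hb1 : ‖∫ τ in (0:ℝ)..L, (-(1 / (L:ℂ)) * G τ + (1 - (τ : ℂ) / L) * G' τ) * (Complex.exp (a * τ) / a)‖
      ≤ ((1 / L * M + M) * (1 / y)) * |L - 0| := by
    apply intervalIntegral.norm_integral_le_of_norm_le_const
    intro τ hτ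
    rw [uIoc_of_le hL.le] at hτ
    rw [norm_mul, hexp]
    apply mul_le_mul_of_nonneg_right _ (by positivity)
    refine (norm_add_le _ _).trans (add_le_add ?_ ?_)
    · rw [norm_mul, norm_neg, norm_div, norm_one, Complex.norm_real, Real.norm_eq_abs, abs_of_pos hL]
      exact mul_le_mul_of_nonneg_left (hM τ ⟨by linarith [hτ.1], hτ.2⟩) (by positivity)
    · rw [norm_mul]
      have h1 : ‖(1 - (τ : ℂ) / L)‖ ≤ 1 := by
        have : (1 - (τ : ℂ) / L) = ((1 - τ / L : ℝ) : ℂ) := by push_cast; ring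
        rw [this, Complex.norm_real, Real.norm_eq_abs, abs_le]
        have h2 : 0 ≤ τ / L := div_nonneg hτ.1.le hL.le
        have h3 : τ / L ≤ 1 := by rw [div_le_one hL]; exact hτ.2
        constructor <;> linarith
      calc _ ≤ 1 * M := mul_le_mul h1 (hM' τ ⟨by linarith [hτ.1], hτ.2⟩) (norm_nonneg _) (by norm_num)
        _ = M := one_mul _
  have hb2 : ‖∫ τ in (-L)..(0:ℝ), ((1 / (L:ℂ)) * G τ + (1 + (τ : ℂ) / L) * G' τ) * (Complex.exp (a * τ) / a)‖
      ≤ ((1 / L * M + M) * (1 / y)) * |0 - (-L)| := by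
    apply intervalIntegral.norm_integral_le_of_norm_le_const
    intro τ hτ
    rw [uIoc_of_le (by linarith)] at hτ
    rw [norm_mul, hexp]
    apply mul_le_mul_of_nonneg_right _ (by positivity)
    refine (norm_add_le _ _).trans (add_le_add ?_ ?_)
    · rw [norm_mul, norm_div, norm_one, Complex.norm_real, Real.norm_eq_abs, abs_of_pos hL]
      exact mul_le_mul_of_nonneg_left (hM τ ⟨hτ.1.le, by linarith [hτ.2]⟩) (by positivity)
    · rw [norm_mul]
      have h1 : ‖(1 + (τ : ℂ) / L)‖ ≤ 1 := by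
        have : (1 + (τ : ℂ) / L) = ((1 + τ / L : ℝ) : ℂ) := by push_cast; ring
        rw [this, Complex.norm_real, Real.norm_eq_abs, abs_le]
        have h2 : τ / L ≤ 0 := div_nonpos_of_nonpos_of_nonneg hτ.2 hL.le
        have h3 : -1 ≤ τ / L := by rw [le_div_iff₀ hL]; linarith [hτ.1]
        constructor <;> linarith
      calc _ ≤ 1 * M := mul_le_mul h1 (hM' τ ⟨hτ.1.le, by linarith [hτ.2]⟩) (norm_nonneg _) (by norm_num)
        _ = M := one_mul _
  set I1 := ∫ τ in (0:ℝ)..L, (-(1 / (L:ℂ)) * G τ + (1 - (τ : ℂ) / L) * G' τ) * (Complex.exp (a * τ) / a)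
  set I2 := ∫ τ in (-L)..(0:ℝ), ((1 / (L:ℂ)) * G τ + (1 + (τ : ℂ) / L) * G' τ) * (Complex.exp (a * τ) / a)
  have hsum : G 0 / a - I2 + (-(G 0 / a) - I1) = -(I1 + I2) := by ring
  rw [hsum, norm_neg]
  refine (norm_add_le _ _).trans ?_
  have e1 : |L - 0| = L := by rw [sub_zero, abs_of_pos hL]
  have e2 : |0 - (-L)| = L := by rw [zero_sub, neg_neg, abs_of_pos hL]
  rw [e1] at hb1
  rw [e2] at hb2
  calc _ ≤ (1 / L * M + M) * (1 / y) * L + (1 / L * M + M) * (1 / y) * L := add_le_add hb1 hb2
    _ = 2 * M * (1 + L) / y := by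
      field_simp
      ring


/-- data for the Tauberian theorem -/
structure TData (B : ℝ → ℝ) (c C0 M L : ℝ) (g : ℂ → ℂ) : Prop where
  meas : Measurable B
  nonneg : ∀ t, 0 ≤ B t
  le : ∀ t, B t ≤ C0
  mono : ∀ s t, s ≤ t → Real.exp s * B s ≤ Real.exp t * B t
  cpos : 0 < c
  Lpos : 0 < L
  diff : DifferentiableOn ℂ g {z | 0 < z.re}
  bd : ∀ z : ℂ, 0 < z.re → z.re ≤ 1 → |z.im| ≤ L → ‖g z‖ ≤ M ∧ ‖deriv g z‖ ≤ M
  lap : ∀ z : ℂ, 0 < z.re → ∫ t in Ioi (0:ℝ), ((B t - c : ℝ) : ℂ) * Complex.exp (-z * t) = g z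

variable {B : ℝ → ℝ} {c C0 M L : ℝ} {g : ℂ → ℂ}

lemma TData.C0_nonneg (h : TData B c C0 M L g) : 0 ≤ C0 := (h.nonneg 0).trans (h.le 0)

lemma TData.M_nonneg (h : TData B c C0 M L g) : 0 ≤ M := by
  have := (h.bd 1 (by simp) (by simp) (by simp [h.Lpos.le])).1
  exact (norm_nonneg _).trans this

lemma TData.abs_le (h : TData B c C0 M L g) (t : ℝ) : |B t - c| ≤ C0 + c := by
  rw [_root_.abs_le]
  have h1 := h.nonneg t
  have h2 := h.le t
  have h3 := h.cpos
  have h4 := h.C0_nonneg
  constructor <;> linarith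

lemma TData.swap (h : TData B c C0 M L g) (σ y : ℝ) (hσ : 0 < σ) :
    ∫ t in Ioi (0:ℝ), (((B t - c) * Real.exp (-σ * t) * (L * kf (L * (y - t))) : ℝ) : ℂ)
      = ∫ τ in (-L)..L, ((1 - |τ| / L : ℝ) : ℂ) * (g (σ + Complex.I * τ) * Complex.exp (Complex.I * y * τ)) := by
  have hL := h.Lpos
  set F : ℝ → ℝ → ℂ := fun τ t => (((1 - |τ| / L : ℝ) : ℂ) * Complex.exp (Complex.I * ((y - t : ℝ) : ℂ) * τ))
    * (((B t - c) * Real.exp (-σ * t) : ℝ) : ℂ) with hF
  have hmeas := h.meas
  have hFm : Measurable (Function.uncurry F) := by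
    rw [hF]
    unfold Function.uncurry
    simp only
    fun_prop
  have hint : Integrable (Function.uncurry F) ((volume.restrict (uIoc (-L) L)).prod (volume.restrict (Ioi 0))) := by
    have hbd : Integrable (fun p : ℝ × ℝ => (C0 + c) * Real.exp (-σ * p.2)) ((volume.restrict (uIoc (-L) L)).prod (volume.restrict (Ioi 0))) := by
      have h1 : Integrable (fun t : ℝ => (C0 + c) * Real.exp (-σ * t)) (volume.restrict (Ioi 0)) := by
        exact (exp_neg_integrableOn_Ioi 0 hσ).const_mul _
      have : IsFiniteMeasure (volume.restrict (uIoc (-L) L)) := by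
        rw [uIoc_of_le (by linarith)]; infer_instance
      exact h1.comp_snd _
    refine hbd.mono' hFm.aestronglyMeasurable ?_
    rw [Measure.prod_restrict]
    filter_upwards [ae_restrict_mem (measurableSet_uIoc.prod measurableSet_Ioi)] with p hp
    rw [hF]
    simp only [Function.uncurry]
    rw [norm_mul, norm_mul, Complex.norm_real, Complex.norm_real, Real.norm_eq_abs, Real.norm_eq_abs,
      abs_mul, abs_of_pos (Real.exp_pos _)]
    have e1 : ‖Complex.exp (Complex.I * ((y - p.2 : ℝ) : ℂ) * p.1)‖ = 1 := by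
      rw [show Complex.I * ((y - p.2 : ℝ) : ℂ) * p.1 = (((y - p.2) * p.1 : ℝ) : ℂ) * Complex.I by push_cast; ring]
      exact Complex.norm_exp_ofReal_mul_I _
    rw [e1, mul_one]
    have hp1 : p.1 ∈ uIoc (-L) L := hp.1
    rw [uIoc_of_le (by linarith)] at hp1
    have e2 : |1 - |p.1| / L| ≤ 1 := by
      have h2 : 0 ≤ |p.1| / L := by positivity
      have h3 : |p.1| / L ≤ 1 := by
        rw [div_le_one hL, _root_.abs_le]
        exact ⟨hp1.1.le, hp1.2⟩
      rw [_root_.abs_le]
      constructor <;> linarith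
    calc _ ≤ 1 * ((C0 + c) * Real.exp (-σ * p.2)) := by
          apply mul_le_mul e2 _ (by positivity) (by norm_num)
          exact mul_le_mul_of_nonneg_right (h.abs_le _) (Real.exp_pos _).le
      _ = _ := one_mul _
  have hsw := intervalIntegral_integral_swap (a := -L) (b := L) (f := F) hint
  have hleft : ∫ t in Ioi (0:ℝ), (((B t - c) * Real.exp (-σ * t) * (L * kf (L * (y - t))) : ℝ) : ℂ)
      = ∫ t in Ioi (0:ℝ), (∫ τ in (-L)..L, F τ t) := by
    apply integral_congr_ae
    filter_upwards with t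
    rw [hF]
    simp only
    rw [intervalIntegral.integral_mul_const, fourier_tri L hL (y - t)]
    push_cast
    ring
  have hright : ∫ τ in (-L)..L, ((1 - |τ| / L : ℝ) : ℂ) * (g (σ + Complex.I * τ) * Complex.exp (Complex.I * y * τ))
      = ∫ τ in (-L)..L, (∫ t in Ioi (0:ℝ), F τ t) := by
    apply intervalIntegral.integral_congr
    intro τ _
    simp only
    rw [← h.lap (σ + Complex.I * τ) (by simp [hσ]), hF]
    simp only
    rw [mul_comm (∫ t in Ioi (0:ℝ), _) _, ← mul_assoc, ← integral_const_mul]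
    apply integral_congr_ae
    filter_upwards with t
    push_cast
    have : Complex.exp (Complex.I * (y - t) * τ) * Complex.exp (-σ * t)
        = Complex.exp (Complex.I * y * τ) * Complex.exp (-(σ + Complex.I * τ) * t) := by
      rw [← Complex.exp_add, ← Complex.exp_add]
      congr 1
      ring
    calc ((1 - |τ| / L : ℂ)) * Complex.exp (Complex.I * y * τ) * ((B t - c) * Complex.exp (-(σ + Complex.I * τ) * t))
        = (1 - |τ| / L) * (B t - c) * (Complex.exp (Complex.I * y * τ) * Complex.exp (-(σ + Complex.I * τ) * t)) := by ring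
      _ = _ := by rw [← this]; ring
  rw [hleft, hright]
  exact hsw.symm

lemma TData.bound_sigma (h : TData B c C0 M L g) (σ y : ℝ) (hσ : 0 < σ) (hσ1 : σ ≤ 1) (hy : 0 < y) :
    |∫ t in Ioi (0:ℝ), (B t - c) * Real.exp (-σ * t) * (L * kf (L * (y - t)))| ≤ 2 * M * (1 + L) / y := by
  have hL := h.Lpos
  have h1 := h.swap σ y hσ
  have h2 : ‖∫ t in Ioi (0:ℝ), (((B t - c) * Real.exp (-σ * t) * (L * kf (L * (y - t))) : ℝ) : ℂ)‖
      = |∫ t in Ioi (0:ℝ), (B t - c) * Real.exp (-σ * t) * (L * kf (L * (y - t)))| := by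
    rw [integral_complex_ofReal, Complex.norm_real, Real.norm_eq_abs]
  rw [← h2, h1]
  have hopen : IsOpen {z : ℂ | 0 < z.re} := isOpen_lt continuous_const Complex.continuous_re
  have hz : ∀ τ : ℝ, 0 < ((σ : ℂ) + Complex.I * τ).re := by intro τ; simp [hσ]
  apply parts_bound (fun τ => g (σ + Complex.I * τ)) (fun τ => Complex.I * deriv g (σ + Complex.I * τ)) L M y hL hy
  · intro τ
    have hd : HasDerivAt g (deriv g (σ + Complex.I * τ)) (σ + Complex.I * τ) :=
      (h.diff.differentiableAt (hopen.mem_nhds (hz τ))).hasDerivAt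
    have hin : HasDerivAt (fun τ : ℝ => (σ : ℂ) + Complex.I * τ) Complex.I τ := by
      simpa using ((Complex.ofRealCLM.hasDerivAt (x := τ)).const_mul Complex.I).const_add (σ : ℂ)
    have := hd.comp τ hin
    refine this.congr_deriv ?_
    ring
  · have hc : ContinuousOn (deriv g) {z : ℂ | 0 < z.re} := (h.diff.deriv hopen).continuousOn
    refine continuous_const.mul ?_
    rw [continuous_iff_continuousAt]
    intro τ
    have := (hc.continuousAt (hopen.mem_nhds (hz τ)))
    exact ContinuousAt.comp (f := fun τ : ℝ => (σ : ℂ) + Complex.I * τ) this (by fun_prop)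
  · intro τ hτ
    exact (h.bd _ (hz τ) (by simp [hσ1]) (by simpa [_root_.abs_le] using hτ)).1
  · intro τ hτ
    rw [norm_mul, Complex.norm_I, one_mul]
    exact (h.bd _ (hz τ) (by simp [hσ1]) (by simpa [_root_.abs_le] using hτ)).2

lemma integrable_kf_shift (L : ℝ) (hL : 0 < L) (y : ℝ) : Integrable (fun t : ℝ => L * kf (L * (y - t))) := by
  have h1 : Integrable (fun t : ℝ => kf (L * t)) := integrable_kf.comp_mul_left' hL.ne'
  have h2 : Integrable (fun t : ℝ => kf (L * (y - t))) := h1.comp_sub_left y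
  exact h2.const_mul L

lemma TData.bound (h : TData B c C0 M L g) (y : ℝ) (hy : 0 < y) :
    |∫ t in Ioi (0:ℝ), (B t - c) * (L * kf (L * (y - t)))| ≤ 2 * M * (1 + L) / y := by
  have hL := h.Lpos
  have hlim : Tendsto (fun σ : ℝ => ∫ t in Ioi (0:ℝ), (B t - c) * Real.exp (-σ * t) * (L * kf (L * (y - t)))) (𝓝[>] 0)
      (𝓝 (∫ t in Ioi (0:ℝ), (B t - c) * (L * kf (L * (y - t))))) := by
    apply tendsto_integral_filter_of_dominated_convergence (fun t => (C0 + c) * (L * kf (L * (y - t))))
    · filter_upwards with σ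
      have hm := h.meas
      have hk := continuous_kf.measurable
      apply Measurable.aestronglyMeasurable
      fun_prop
    · filter_upwards [self_mem_nhdsWithin] with σ hσ
      filter_upwards [ae_restrict_mem measurableSet_Ioi] with t ht
      rw [Real.norm_eq_abs, abs_mul, abs_mul, abs_of_pos (Real.exp_pos _), abs_of_nonneg (mul_nonneg hL.le (kf_nonneg _))]
      apply mul_le_mul_of_nonneg_right _ (mul_nonneg hL.le (kf_nonneg _))
      have : Real.exp (-σ * t) ≤ 1 := by
        rw [Real.exp_le_one_iff]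
        have : 0 < σ * t := mul_pos hσ ht
        linarith
      calc _ ≤ (C0 + c) * 1 := mul_le_mul (h.abs_le t) this (Real.exp_pos _).le (by have := h.C0_nonneg; have := h.cpos; linarith)
        _ = _ := mul_one _
    · exact ((integrable_kf_shift L hL y).const_mul _).integrableOn
    · filter_upwards with t
      have : Tendsto (fun σ : ℝ => (B t - c) * Real.exp (-σ * t) * (L * kf (L * (y - t)))) (𝓝 0)
          (𝓝 ((B t - c) * Real.exp (-0 * t) * (L * kf (L * (y - t))))) := by
        apply Continuous.tendsto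
        fun_prop
      simp only [neg_zero, zero_mul, Real.exp_zero, mul_one] at this
      exact this.mono_left nhdsWithin_le_nhds
  refine le_of_tendsto hlim.abs ?_
  have : Ioc (0:ℝ) 1 ∈ 𝓝[>] (0:ℝ) := Ioc_mem_nhdsGT (by norm_num)
  filter_upwards [this] with σ hσ
  exact h.bound_sigma σ y hσ.1 hσ.2 hy


/-- the scaled kernel -/
noncomputable def KK (L y t : ℝ) : ℝ := L * kf (L * (y - t))

lemma KK_nonneg (L y t : ℝ) (hL : 0 < L) : 0 ≤ KK L y t := mul_nonneg hL.le (kf_nonneg _)

lemma integrable_KK (L y : ℝ) (hL : 0 < L) : Integrable (KK L y) := integrable_kf_shift L hL y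

lemma integral_KK (L y : ℝ) (hL : 0 < L) : ∫ t, KK L y t = kap := by
  unfold KK
  rw [integral_const_mul, integral_sub_left_eq_self (fun t => kf (L * t)) volume y]
  rw [Measure.integral_comp_mul_left, abs_of_pos (inv_pos.mpr hL), smul_eq_mul, ← mul_assoc,
    mul_inv_cancel₀ hL.ne', one_mul]
  rfl

lemma KK_le (L y t : ℝ) (hL : 0 < L) (ht : t ≠ y) : KK L y t ≤ 4 / (L * (y - t) ^ 2) := by
  have h1 : y - t ≠ 0 := sub_ne_zero.mpr (Ne.symm ht)
  have h2 := kf_le (L * (y - t)) (mul_ne_zero hL.ne' h1)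
  unfold KK
  calc L * kf (L * (y - t)) ≤ L * (4 / (L * (y - t)) ^ 2) := mul_le_mul_of_nonneg_left h2 hL.le
    _ = 4 / (L * (y - t) ^ 2) := by
      field_simp

lemma tail_right (L y b : ℝ) (hL : 0 < L) (hb : y < b) :
    ∫ t in Ioi b, KK L y t ≤ 4 / (L * (b - y)) := by
  have hder : ∀ x ∈ Ici b, HasDerivAt (fun x : ℝ => -(4 / (L * (x - y)))) (4 / (L * (y - x) ^ 2)) x := by
    intro x hx
    have hx' : x - y ≠ 0 := by have := mem_Ici.mp hx; linarith
    have h1 : HasDerivAt (fun x : ℝ => L * (x - y)) L x := by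
      simpa using ((hasDerivAt_id x).sub_const y).const_mul L
    have h2 := ((h1.inv (mul_ne_zero hL.ne' hx')).const_mul 4).neg
    refine (h2.congr_deriv ?_).congr_of_eventuallyEq ?_
    · have : y - x ≠ 0 := by intro h; apply hx'; linarith
      have e : (y - x) ^ 2 = (x - y) ^ 2 := by ring
      rw [e]
      field_simp
    · filter_upwards with z
      simp only [Pi.neg_apply, Pi.inv_apply]
      rw [div_eq_mul_inv]
  have hnn : ∀ x ∈ Ioi b, 0 ≤ 4 / (L * (y - x) ^ 2) := fun x _ => by positivity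
  have hlim : Tendsto (fun x : ℝ => -(4 / (L * (x - y)))) atTop (𝓝 0) := by
    rw [← neg_zero]
    apply Tendsto.neg
    apply Tendsto.div_atTop tendsto_const_nhds
    apply Tendsto.const_mul_atTop hL
    exact tendsto_atTop_add_const_right _ (-y) tendsto_id
  have hint := integrableOn_Ioi_deriv_of_nonneg (hder b self_mem_Ici).continuousAt.continuousWithinAt
    (fun x hx => hder x (mem_Ici.mpr (le_of_lt hx))) hnn hlim
  have hval := integral_Ioi_of_hasDerivAt_of_tendsto (hder b self_mem_Ici).continuousAt.continuousWithinAt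
    (fun x hx => hder x (mem_Ici.mpr (le_of_lt hx))) hint hlim
  calc ∫ t in Ioi b, KK L y t ≤ ∫ t in Ioi b, 4 / (L * (y - t) ^ 2) := by
        apply setIntegral_mono_on (integrable_KK L y hL).integrableOn hint measurableSet_Ioi
        intro t ht
        exact KK_le L y t hL (ne_of_gt (lt_trans hb ht))
    _ = 4 / (L * (b - y)) := by rw [hval]; ring

lemma kf_neg (v : ℝ) : kf (-v) = kf v := by
  unfold kf
  rw [neg_div, Real.sinc_neg]

lemma tail_left (L y b : ℝ) (hL : 0 < L) (hb : b < y) :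
    ∫ t in Iic b, KK L y t ≤ 4 / (L * (y - b)) := by
  have h1 := integral_comp_neg_Ioi (-b) (KK L y)
  rw [neg_neg] at h1
  rw [← h1]
  have h2 : ∀ x : ℝ, KK L y (-x) = KK L (-y) x := by
    intro x
    unfold KK
    rw [← kf_neg (L * (y - -x))]
    congr 2
    ring
  simp_rw [h2]
  have h3 := tail_right L (-y) (-b) hL (by linarith)
  rwa [show -b - -y = y - b by ring] at h3

lemma mass_Ioc (L y b d : ℝ) (hL : 0 < L) (hb : b < y) (hd : y < d) :
    kap - 4 / (L * (y - b)) - 4 / (L * (d - y)) ≤ ∫ t in Ioc b d, KK L y t := by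
  have hi := integrable_KK L y hL
  have h1 : ∫ t, KK L y t = (∫ t in Iic b, KK L y t) + ∫ t in Ioi b, KK L y t := by
    rw [← setIntegral_univ, ← Iic_union_Ioi (a := b)]
    exact setIntegral_union (Iic_disjoint_Ioi le_rfl) measurableSet_Ioi hi.integrableOn hi.integrableOn
  have h2 : ∫ t in Ioi b, KK L y t = (∫ t in Ioc b d, KK L y t) + ∫ t in Ioi d, KK L y t := by
    rw [← Ioc_union_Ioi_eq_Ioi (hb.trans hd).le]
    exact setIntegral_union (Ioc_disjoint_Ioi le_rfl) measurableSet_Ioi hi.integrableOn hi.integrableOn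
  rw [integral_KK L y hL] at h1
  have h3 := tail_left L y b hL hb
  have h4 := tail_right L y d hL hd
  linarith

lemma mass_le (L y : ℝ) (S : Set ℝ) (hL : 0 < L) : ∫ t in S, KK L y t ≤ kap := by
  rw [← integral_KK L y hL]
  exact setIntegral_le_integral (integrable_KK L y hL) (Filter.Eventually.of_forall (fun t => KK_nonneg L y t hL))

lemma TData.integrableOn_BK (h : TData B c C0 M L g) (y : ℝ) (S : Set ℝ) :
    IntegrableOn (fun t => B t * KK L y t) S := by
  have hL := h.Lpos
  have h1 : Integrable (fun t => C0 * KK L y t) := (integrable_KK L y hL).const_mul C0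
  have h2 : Integrable (fun t => B t * KK L y t) := by
    refine h1.mono' ?_ ?_
    · exact (h.meas.aestronglyMeasurable).mul (integrable_KK L y hL).aestronglyMeasurable
    · filter_upwards with t
      rw [Real.norm_eq_abs, abs_of_nonneg (mul_nonneg (h.nonneg t) (KK_nonneg L y t hL))]
      exact mul_le_mul_of_nonneg_right (h.le t) (KK_nonneg L y t hL)
  exact h2.integrableOn

lemma TData.J_bounds (h : TData B c C0 M L g) (y : ℝ) (hy : 0 < y) :
    (∫ t in Ioi (0:ℝ), B t * KK L y t) ≤ c * kap + 2 * M * (1 + L) / y ∧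
    c * (kap - 4 / (L * y)) - 2 * M * (1 + L) / y ≤ ∫ t in Ioi (0:ℝ), B t * KK L y t := by
  have hL := h.Lpos
  have hb := h.bound y hy
  have hsplit : ∫ t in Ioi (0:ℝ), (B t - c) * (L * kf (L * (y - t)))
      = (∫ t in Ioi (0:ℝ), B t * KK L y t) - c * ∫ t in Ioi (0:ℝ), KK L y t := by
    rw [← integral_const_mul, ← integral_sub (h.integrableOn_BK y _) ((integrable_KK L y hL).integrableOn.const_mul c)]
    apply integral_congr_ae
    filter_upwards with t
    unfold KK
    ring
  rw [hsplit, _root_.abs_le] at hb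
  have h1 := mass_le L y (Ioi 0) hL
  have h2 : kap - 4 / (L * y) ≤ ∫ t in Ioi (0:ℝ), KK L y t := by
    have hi := integrable_KK L y hL
    have e1 : ∫ t, KK L y t = (∫ t in Iic (0:ℝ), KK L y t) + ∫ t in Ioi (0:ℝ), KK L y t := by
      rw [← setIntegral_univ, ← Iic_union_Ioi (a := (0:ℝ))]
      exact setIntegral_union (Iic_disjoint_Ioi le_rfl) measurableSet_Ioi hi.integrableOn hi.integrableOn
    rw [integral_KK L y hL] at e1
    have h3 := tail_left L y 0 hL hy
    rw [sub_zero] at h3
    linarith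
  have hc := h.cpos
  constructor
  · have := mul_le_mul_of_nonneg_left h1 hc.le
    linarith [hb.2]
  · have := mul_le_mul_of_nonneg_left h2 hc.le
    linarith [hb.1]

/-- the upper Tauberian inequality -/
lemma TData.upper (h : TData B c C0 M L g) (a Y : ℝ) (ha : 0 < a) (hY : 0 ≤ Y) :
    Real.exp (-(2 * a / L)) * B Y * (kap - 8 / a) ≤ c * kap + 2 * M * (1 + L) / (Y + a / L) := by
  have hL := h.Lpos
  have haL : 0 < a / L := by positivity
  have hy : 0 < Y + a / L := by linarith
  have h1 := (h.J_bounds (Y + a / L) hy).1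
  refine le_trans ?_ h1
  have hm := mass_Ioc L (Y + a / L) Y (Y + 2 * a / L) hL (by linarith) (by
    have : 2 * a / L = a / L + a / L := by ring
    rw [this]; linarith)
  have e1 : L * (Y + a / L - Y) = a := by field_simp; ring
  have e2 : L * (Y + 2 * a / L - (Y + a / L)) = a := by field_simp; ring
  rw [e1, e2] at hm
  have hm' : kap - 8 / a ≤ ∫ t in Ioc Y (Y + 2 * a / L), KK L (Y + a / L) t := by
    have : 8 / a = 4 / a + 4 / a := by ring
    linarith
  have hB := h.nonneg Y
  have h2 : Real.exp (-(2 * a / L)) * B Y * ∫ t in Ioc Y (Y + 2 * a / L), KK L (Y + a / L) t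
      ≤ ∫ t in Ioc Y (Y + 2 * a / L), B t * KK L (Y + a / L) t := by
    rw [← integral_const_mul]
    apply setIntegral_mono_on ((integrable_KK L _ hL).integrableOn.const_mul _) (h.integrableOn_BK _ _) measurableSet_Ioc
    intro t ht
    apply mul_le_mul_of_nonneg_right _ (KK_nonneg L _ t hL)
    have hmono := h.mono Y t ht.1.le
    have : Real.exp (-(2 * a / L)) * B Y ≤ Real.exp (Y - t) * B Y := by
      apply mul_le_mul_of_nonneg_right _ hB
      apply Real.exp_le_exp.mpr
      linarith [ht.2]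
    refine this.trans ?_
    rw [Real.exp_sub, div_mul_eq_mul_div, div_le_iff₀ (Real.exp_pos _)]
    linarith
  have h3 : ∫ t in Ioc Y (Y + 2 * a / L), B t * KK L (Y + a / L) t
      ≤ ∫ t in Ioi (0:ℝ), B t * KK L (Y + a / L) t := by
    apply setIntegral_mono_set (h.integrableOn_BK _ _)
    · filter_upwards with t
      exact mul_nonneg (h.nonneg t) (KK_nonneg L _ t hL)
    · apply LE.le.eventuallyLE
      intro t ht
      exact lt_of_le_of_lt hY ht.1
  have h4 : Real.exp (-(2 * a / L)) * B Y * (kap - 8 / a) ≤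
      Real.exp (-(2 * a / L)) * B Y * ∫ t in Ioc Y (Y + 2 * a / L), KK L (Y + a / L) t :=
    mul_le_mul_of_nonneg_left hm' (by positivity)
  linarith

/-- the lower Tauberian inequality -/
lemma TData.lower (h : TData B c C0 M L g) (a Y Bp : ℝ) (ha : 0 < a) (hY : 0 < Y) (haY : a / L ≤ Y / 4)
    (hBp : ∀ t, Y / 2 ≤ t → B t ≤ Bp) :
    c * (kap - 4 / (L * (Y - a / L))) - 2 * M * (1 + L) / (Y - a / L) - 16 * C0 / (L * Y) - 8 * Bp / a
      ≤ Real.exp (2 * a / L) * B Y * kap := by
  have hL := h.Lpos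
  have haL : 0 < a / L := by positivity
  have hy : 0 < Y - a / L := by linarith
  set y := Y - a / L with hyd
  have h1 := (h.J_bounds y hy).2
  have hBp0 : 0 ≤ Bp := (h.nonneg Y).trans (hBp Y (by linarith))
  have h2a : 2 * a / L = a / L + a / L := by ring
  -- split of Ioi 0
  have hi := fun S => h.integrableOn_BK y S
  have s1 : ∫ t in Ioi (0:ℝ), B t * KK L y t = (∫ t in Ioc 0 (Y / 2), B t * KK L y t) + ∫ t in Ioi (Y / 2), B t * KK L y t := by
    rw [← Ioc_union_Ioi_eq_Ioi (by linarith : (0:ℝ) ≤ Y / 2)]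
    exact setIntegral_union (Ioc_disjoint_Ioi le_rfl) measurableSet_Ioi (hi _) (hi _)
  have s2 : ∫ t in Ioi (Y / 2), B t * KK L y t = (∫ t in Ioc (Y / 2) (Y - 2 * a / L), B t * KK L y t) + ∫ t in Ioi (Y - 2 * a / L), B t * KK L y t := by
    rw [← Ioc_union_Ioi_eq_Ioi (by rw [h2a]; linarith : Y / 2 ≤ Y - 2 * a / L)]
    exact setIntegral_union (Ioc_disjoint_Ioi le_rfl) measurableSet_Ioi (hi _) (hi _)
  have s3 : ∫ t in Ioi (Y - 2 * a / L), B t * KK L y t = (∫ t in Ioc (Y - 2 * a / L) Y, B t * KK L y t) + ∫ t in Ioi Y, B t * KK L y t := by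
    rw [← Ioc_union_Ioi_eq_Ioi (by rw [h2a]; linarith : Y - 2 * a / L ≤ Y)]
    exact setIntegral_union (Ioc_disjoint_Ioi le_rfl) measurableSet_Ioi (hi _) (hi _)
  have hK := integrable_KK L y hL
  have hKnn : ∀ t, 0 ≤ KK L y t := fun t => KK_nonneg L y t hL
  -- part 1
  have p1 : ∫ t in Ioc 0 (Y / 2), B t * KK L y t ≤ 16 * C0 / (L * Y) := by
    have e1 : ∫ t in Ioc 0 (Y / 2), B t * KK L y t ≤ ∫ t in Ioc 0 (Y / 2), C0 * KK L y t := by
      apply setIntegral_mono_on (hi _) (hK.integrableOn.const_mul _) measurableSet_Ioc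
      intro t _
      exact mul_le_mul_of_nonneg_right (h.le t) (hKnn t)
    rw [integral_const_mul] at e1
    have e2 : ∫ t in Ioc 0 (Y / 2), KK L y t ≤ ∫ t in Iic (Y / 2), KK L y t := by
      apply setIntegral_mono_set hK.integrableOn
      · filter_upwards with t using hKnn t
      · apply LE.le.eventuallyLE
        intro t ht
        exact ht.2
    have e3 := tail_left L y (Y / 2) hL (by linarith)
    have e4 : 4 / (L * (y - Y / 2)) ≤ 16 / (L * Y) := by
      rw [div_le_div_iff₀ (by apply mul_pos hL; linarith) (by positivity)]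
      have : Y / 4 ≤ y - Y / 2 := by linarith
      nlinarith
    have e5 := mul_le_mul_of_nonneg_left (e2.trans (e3.trans e4)) h.C0_nonneg
    calc _ ≤ C0 * (16 / (L * Y)) := e1.trans e5
      _ = _ := by ring
  have p2 : ∫ t in Ioc (Y / 2) (Y - 2 * a / L), B t * KK L y t ≤ Bp * (4 / a) := by
    have e1 : ∫ t in Ioc (Y / 2) (Y - 2 * a / L), B t * KK L y t ≤ ∫ t in Ioc (Y / 2) (Y - 2 * a / L), Bp * KK L y t := by
      apply setIntegral_mono_on (hi _) (hK.integrableOn.const_mul _) measurableSet_Ioc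
      intro t ht
      exact mul_le_mul_of_nonneg_right (hBp t ht.1.le) (hKnn t)
    rw [integral_const_mul] at e1
    have e2 : ∫ t in Ioc (Y / 2) (Y - 2 * a / L), KK L y t ≤ ∫ t in Iic (Y - 2 * a / L), KK L y t := by
      apply setIntegral_mono_set hK.integrableOn
      · filter_upwards with t using hKnn t
      · apply LE.le.eventuallyLE
        intro t ht
        exact ht.2
    have e3 := tail_left L y (Y - 2 * a / L) hL (by rw [h2a]; linarith)
    have e4 : L * (y - (Y - 2 * a / L)) = a := by rw [hyd]; field_simp; ring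
    rw [e4] at e3
    exact e1.trans (mul_le_mul_of_nonneg_left (e2.trans e3) hBp0)
  have p3 : ∫ t in Ioc (Y - 2 * a / L) Y, B t * KK L y t ≤ Real.exp (2 * a / L) * B Y * kap := by
    have e1 : ∫ t in Ioc (Y - 2 * a / L) Y, B t * KK L y t ≤ ∫ t in Ioc (Y - 2 * a / L) Y, (Real.exp (2 * a / L) * B Y) * KK L y t := by
      apply setIntegral_mono_on (hi _) (hK.integrableOn.const_mul _) measurableSet_Ioc
      intro t ht
      apply mul_le_mul_of_nonneg_right _ (hKnn t)
      have hmono := h.mono t Y ht.2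
      have : B t ≤ Real.exp (Y - t) * B Y := by
        rw [Real.exp_sub, div_mul_eq_mul_div, le_div_iff₀ (Real.exp_pos _)]
        linarith
      refine this.trans (mul_le_mul_of_nonneg_right (Real.exp_le_exp.mpr ?_) (h.nonneg Y))
      linarith [ht.1]
    rw [integral_const_mul] at e1
    exact e1.trans (mul_le_mul_of_nonneg_left (mass_le L y _ hL) (mul_nonneg (Real.exp_pos _).le (h.nonneg Y)))
  have p4 : ∫ t in Ioi Y, B t * KK L y t ≤ Bp * (4 / a) := by
    have e1 : ∫ t in Ioi Y, B t * KK L y t ≤ ∫ t in Ioi Y, Bp * KK L y t := by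
      apply setIntegral_mono_on (hi _) (hK.integrableOn.const_mul _) measurableSet_Ioi
      intro t ht
      have : Y < t := ht
      exact mul_le_mul_of_nonneg_right (hBp t (by linarith)) (hKnn t)
    rw [integral_const_mul] at e1
    have e3 := tail_right L y Y hL (by linarith)
    have e4 : L * (Y - y) = a := by rw [hyd]; field_simp; ring
    rw [e4] at e3
    exact e1.trans (mul_le_mul_of_nonneg_left e3 hBp0)
  rw [s1, s2, s3] at h1
  have e8 : Bp * (4 / a) + Bp * (4 / a) = 8 * Bp / a := by ring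
  linarith


theorem taub_main (ε : ℝ) (hε : 0 < ε) (hε1 : ε < 1) : ∃ L A : ℝ, 1 ≤ L ∧ 1 ≤ A ∧
    ∀ (B : ℝ → ℝ) (c C0 M : ℝ) (g : ℂ → ℂ), TData B c C0 M L g →
      ∀ Y, A * (1 + C0 / c + M / c) ≤ Y → (1 - ε) * c ≤ B Y ∧ B Y ≤ (1 + ε) * c := by
  have hk := kap_pos
  set η : ℝ := ε / 20 with hη
  have hη0 : 0 < η := by positivity
  have hη1 : η < 1 / 20 := by rw [hη]; linarith
  set a : ℝ := 8 / (η * kap) with ha
  have ha0 : 0 < a := by positivity
  have ha8 : 8 / a = η * kap := by rw [ha]; field_simp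
  set L : ℝ := 2 * a / η + 1 with hL
  have hL1 : 1 ≤ L := by rw [hL]; have : 0 ≤ 2 * a / η := by positivity
                         linarith
  have hL0 : 0 < L := by linarith
  have haL2 : 2 * a / L ≤ η := by
    rw [div_le_iff₀ hL0, hL, mul_add, mul_one, mul_div_cancel₀ _ hη0.ne']
    linarith
  set A : ℝ := 2 + (8 * (1 + L) + 32) / (η * kap) with hA
  have hAdd : 0 ≤ (8 * (1 + L) + 32) / (η * kap) := by positivity
  refine ⟨L, A, hL1, by rw [hA]; linarith, ?_⟩
  intro B c C0 M g h Y hY
  have hc := h.cpos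
  have hC0 := h.C0_nonneg
  have hM := h.M_nonneg
  have hA0 : 0 < A := by rw [hA]; linarith
  have hCc : 0 ≤ C0 / c := by positivity
  have hMc : 0 ≤ M / c := by positivity
  have hYA : A ≤ Y := by nlinarith
  have hYC : A * (C0 / c) ≤ Y := by nlinarith
  have hYM : A * (M / c) ≤ Y := by nlinarith
  have hY2 : 2 ≤ Y := by rw [hA] at hYA; linarith
  have hY0 : 0 < Y := by linarith
  -- consequences
  have k1 : 4 * M * (1 + L) / Y ≤ η * c * kap := by
    rw [div_le_iff₀ hY0]
    have e1 : (8 * (1 + L)) / (η * kap) * (M / c) ≤ Y := by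
      refine le_trans (mul_le_mul_of_nonneg_right ?_ hMc) hYM
      rw [hA]
      have : (8 * (1 + L)) / (η * kap) ≤ (8 * (1 + L) + 32) / (η * kap) := by
        apply div_le_div_of_nonneg_right _ (by positivity)
        linarith
      linarith
    have e2 : η * c * kap * ((8 * (1 + L)) / (η * kap) * (M / c)) = 8 * M * (1 + L) := by
      field_simp
    have e3 := mul_le_mul_of_nonneg_left e1 (by positivity : 0 ≤ η * c * kap)
    rw [e2] at e3
    nlinarith [mul_nonneg hM hL0.le]
  have k2 : 16 * C0 / (L * Y) ≤ η * c * kap := by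
    have e0 : 16 * C0 / (L * Y) ≤ 16 * C0 / Y := by
      apply div_le_div_of_nonneg_left (by positivity) hY0
      nlinarith
    refine e0.trans ?_
    rw [div_le_iff₀ hY0]
    have e1 : 32 / (η * kap) * (C0 / c) ≤ Y := by
      refine le_trans (mul_le_mul_of_nonneg_right ?_ hCc) hYC
      rw [hA]
      have : 32 / (η * kap) ≤ (8 * (1 + L) + 32) / (η * kap) := by
        apply div_le_div_of_nonneg_right _ (by positivity)
        linarith
      linarith
    have e2 : η * c * kap * (32 / (η * kap) * (C0 / c)) = 32 * C0 := by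
      field_simp
    have e3 := mul_le_mul_of_nonneg_left e1 (by positivity : 0 ≤ η * c * kap)
    rw [e2] at e3
    linarith
  have k3 : 8 / Y ≤ η * kap := by
    rw [div_le_iff₀ hY0]
    have e1 : 32 / (η * kap) ≤ Y := by
      refine le_trans ?_ hYA
      rw [hA]
      have : 32 / (η * kap) ≤ (8 * (1 + L) + 32) / (η * kap) := by
        apply div_le_div_of_nonneg_right _ (by positivity)
        linarith
      linarith
    have e2 : η * kap * (32 / (η * kap)) = 32 := by field_simp
    have e3 := mul_le_mul_of_nonneg_left e1 (by positivity : 0 ≤ η * kap)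
    rw [e2] at e3
    linarith
  have haLη : a / L ≤ η / 2 := by
    have : 2 * a / L = 2 * (a / L) := by ring
    linarith
  have haL0 : 0 < a / L := by positivity
  -- upper bound for all t ≥ Y/2
  have hup : ∀ t, Y / 2 ≤ t → B t ≤ (1 + 4 * η) * c := by
    intro t ht
    have h1 := h.upper a t ha0 (by linarith)
    have h2 : 2 * M * (1 + L) / (t + a / L) ≤ η * c * kap := by
      refine le_trans ?_ k1
      have : 4 * M * (1 + L) / Y = 2 * M * (1 + L) / (Y / 2) := by field_simp; ring
      rw [this]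
      apply div_le_div_of_nonneg_left (by positivity) (by positivity)
      linarith
    rw [ha8] at h1
    have h3 : 1 - η ≤ Real.exp (-(2 * a / L)) := by
      have := Real.add_one_le_exp (-(2 * a / L))
      linarith
    have hBt := h.nonneg t
    have h4 : (1 - η) * B t * (kap * (1 - η)) ≤ (1 + η) * c * kap := by
      calc (1 - η) * B t * (kap * (1 - η)) ≤ Real.exp (-(2 * a / L)) * B t * (kap * (1 - η)) := by
            apply mul_le_mul_of_nonneg_right
            · exact mul_le_mul_of_nonneg_right h3 hBt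
            · apply mul_nonneg hk.le; linarith
        _ = Real.exp (-(2 * a / L)) * B t * (kap - η * kap) := by ring
        _ ≤ c * kap + 2 * M * (1 + L) / (t + a / L) := h1
        _ ≤ (1 + η) * c * kap := by linarith
    have h5 : (1 - η) ^ 2 * B t ≤ (1 + η) * c := by
      have : kap * ((1 - η) ^ 2 * B t) ≤ kap * ((1 + η) * c) := by nlinarith
      exact le_of_mul_le_mul_left this hk
    have h6 : (1 + η) ≤ (1 + 4 * η) * (1 - η) ^ 2 := by nlinarith [sq_nonneg η, mul_pos hη0 hη0]
    have h7 : (1 - η) ^ 2 * B t ≤ (1 - η) ^ 2 * ((1 + 4 * η) * c) := by nlinarith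
    have h8 : 0 < (1 - η) ^ 2 := by
      have : 0 < 1 - η := by linarith
      positivity
    exact le_of_mul_le_mul_left h7 h8
  have hBp2 : (1 + 4 * η) * c ≤ 2 * c := by nlinarith
  have hlow := h.lower a Y (2 * c) ha0 hY0 (by linarith) (fun t ht => (hup t ht).trans hBp2)
  have hy : Y / 2 ≤ Y - a / L := by linarith
  have l1 : 4 / (L * (Y - a / L)) ≤ η * kap := by
    refine le_trans ?_ k3
    rw [div_le_div_iff₀ (by apply mul_pos hL0; linarith) hY0]
    nlinarith
  have l2 : 2 * M * (1 + L) / (Y - a / L) ≤ η * c * kap := by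
    refine le_trans ?_ k1
    have : 4 * M * (1 + L) / Y = 2 * M * (1 + L) / (Y / 2) := by field_simp; ring
    rw [this]
    exact div_le_div_of_nonneg_left (by positivity) (by positivity) hy
  have l3 : 8 * (2 * c) / a = 2 * η * c * kap := by
    have : 8 * (2 * c) / a = (8 / a) * (2 * c) := by ring
    rw [this, ha8]; ring
  have hexp : Real.exp (2 * a / L) ≤ 1 / (1 - η) := by
    have h1 : Real.exp (2 * a / L) ≤ Real.exp η := Real.exp_le_exp.mpr haL2
    have h2 : 1 - η ≤ Real.exp (-η) := by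
      have := Real.add_one_le_exp (-η); linarith
    have h3 : Real.exp η = 1 / Real.exp (-η) := by rw [Real.exp_neg]; simp
    rw [h3] at h1
    refine h1.trans ?_
    exact one_div_le_one_div_of_le (by linarith) h2
  have hBY := h.nonneg Y
  have l4 : c * kap * (1 - 5 * η) ≤ 1 / (1 - η) * B Y * kap := by
    have e1 : Real.exp (2 * a / L) * B Y * kap ≤ 1 / (1 - η) * B Y * kap := by
      apply mul_le_mul_of_nonneg_right _ hk.le
      exact mul_le_mul_of_nonneg_right hexp hBY
    have e2 : c * (kap - 4 / (L * (Y - a / L))) ≥ c * (kap - η * kap) := by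
      apply mul_le_mul_of_nonneg_left _ hc.le
      linarith
    rw [l3] at hlow
    have : c * (kap - η * kap) = c * kap - η * c * kap := by ring
    linarith
  have l5 : (1 - 5 * η) * (1 - η) * c ≤ B Y := by
    have h1 : 0 < 1 - η := by linarith
    have e : 1 / (1 - η) * B Y * kap = kap * (B Y / (1 - η)) := by ring
    rw [e] at l4
    have l6 : c * (1 - 5 * η) ≤ B Y / (1 - η) := by
      have : kap * (c * (1 - 5 * η)) ≤ kap * (B Y / (1 - η)) := by linarith
      exact le_of_mul_le_mul_left this hk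
    rw [le_div_iff₀ h1] at l6
    linarith
  constructor
  · have : (1 - ε) * c ≤ (1 - 5 * η) * (1 - η) * c := by
      apply mul_le_mul_of_nonneg_right _ hc.le
      have : ε = 20 * η := by rw [hη]; ring
      rw [this]
      nlinarith [mul_pos hη0 hη0]
    linarith
  · have h1 := hup Y (by linarith)
    have : (1 + 4 * η) * c ≤ (1 + ε) * c := by
      apply mul_le_mul_of_nonneg_right _ hc.le
      have : ε = 20 * η := by rw [hη]; ring
      linarith
    linarith

end Pool.Agent.HL26
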